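import Pool.Agent.H32.UP.Bas2

/-!
# UP.Adj2 : the adjoint in the two-block model, description of the Lie algebra

`(E_ij (a Fz c))^* = E_ji (Fz (-c) bar a)`.

PROOF. Compare UD/Adj.lean (one block, with a sign that is absent here). `adj2a`: `Bl_apply`, `B2_apply`, only the summand `i` remains: `Tr (a σ c (x j) bar (y i))`; apply `trace_σ` with `-c`. `adj2b`: `B2_symm` twice and `adj2a`. `S2_mem`: `adj2a`, `adj2b`. `mem_iff2`: every `X` is `∑ i j c, Bl i j (M (co2 X i j c) * Fz c)` (`ext_co2`, `co2_sum`, `co2_Bl`);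
`star X := ∑ i j c, Bl j i (Fz (-c) * M (bar (co2 X i j c)))` satisfies `B2 (X x) y = B2 x (star X y)`; `X ∈ 𝔤2` iff `star X + X = 0` (`B2_nondeg'`); the coefficient of `star X` at `(j, i, -c)` is `σ (-c) (bar (co2 X i j c))` (`Fz_M`). `co2_S2`: `co2_sub`, `Fz_M`, `co2_Bl`. `S2_swap`: `Fz_M`, `bar_σ`, `bar_bar`, `σ_neg_apply`.
`S2_diag0`: `Fz_zero`. `S2_diag_r`: `neg_r`, `σ r (bar a) = a`. `decomp2`: `ext_co2`; for `X ∈ 𝔤2` the coefficient of the sum at `(i, j, c)` with `¬ (i = j ∧ c = 0)` is `co2 X i j c` from the summand `(i, j, c)` plus `- σ c (bar (co2 X j i (-c))) = co2 X i j c` from the summand `(j, i, -c)` (`co2_S2`, `mem_iff2`; if the two summands coincide both `if` of `co2_S2` are active), at `(i, i, 0)` it is `0`.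
`bar_co2_zero`: `mem_iff2` at `(i, i, 0)`. `co2_r`: `mem_iff2` at `(i, i, r)` and `2 ≠ 0`.
-/

set_option autoImplicit false
set_option linter.unusedSectionVars false

namespace Pool.Agent.H32.UP

open Module Pool.Agent.H32.UD

namespace Da

variable {F E : Type} [Field F] [Field E] [Algebra F E] (D : Da F E) [Finite F] [Finite E]

private theorem Adj2_sum_l (i : Fin 2) (z : E) (w : Fin 2 → E) :
    ∑ k, Algebra.trace F E ((Pi.single i z : Fin 2 → E) k * w k) = Algebra.trace F E (z * w i) := by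
  rw [Finset.sum_eq_single i]
  · rw [Pi.single_eq_same]
  · intro k _ hk
    rw [Pi.single_eq_of_ne hk, zero_mul, map_zero]
  · intro h
    exact absurd (Finset.mem_univ i) h

private theorem Adj2_sum_r (j : Fin 2) (z : E) (w : Fin 2 → E) :
    ∑ k, Algebra.trace F E (w k * D.bar ((Pi.single j z : Fin 2 → E) k)) =
      Algebra.trace F E (w j * D.bar z) := by
  rw [Finset.sum_eq_single j]
  · rw [Pi.single_eq_same]
  · intro k _ hk
    rw [Pi.single_eq_of_ne hk, map_zero, mul_zero, map_zero]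
  · intro h
    exact absurd (Finset.mem_univ j) h

theorem adj2a (i j : Fin 2) (c : ZMod (2 * D.r)) (a : E) (x y : Fin 2 → E) :
    D.B2 ((Bl i j (M F a * D.Fz c)) x) y = D.B2 x ((Bl j i (D.Fz (-c) * M F (D.bar a))) y) := by
  have h1 : (M F a * D.Fz c) (x j) = a * D.σ c (x j) := rfl
  have h2 : (D.Fz (-c) * M F (D.bar a)) (y i) = D.σ (-c) (D.bar a * y i) := rfl
  rw [B2_apply, B2_apply, Bl_apply, Bl_apply, h1, h2,
    Adj2_sum_l i (a * D.σ c (x j)) (fun k => D.bar (y k)), D.Adj2_sum_r,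
    ← D.trace_σ (-c) (a * D.σ c (x j) * D.bar (y i))]
  congr 1
  rw [D.bar_σ, map_mul D.bar, D.bar_bar, map_mul, map_mul, map_mul, D.σ_neg_apply]
  ring

theorem adj2b (i j : Fin 2) (c : ZMod (2 * D.r)) (a : E) (x y : Fin 2 → E) :
    D.B2 ((Bl j i (D.Fz (-c) * M F (D.bar a))) x) y = D.B2 x ((Bl i j (M F a * D.Fz c)) y) := by
  rw [D.B2_symm y, ← D.adj2a, D.B2_symm x]

theorem S2_mem (i j : Fin 2) (c : ZMod (2 * D.r)) (a : E) : D.S2 i j c a ∈ D.𝔤2 := by
  rw [D.mem_𝔤2]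
  intro x y
  unfold S2
  rw [LinearMap.sub_apply, LinearMap.sub_apply, map_sub, map_sub, LinearMap.sub_apply]
  rw [D.adj2a i j c a x y, D.adj2b i j c a x y]
  ring

private theorem Adj2_eq_sum (X : Module.End F (Fin 2 → E)) :
    X = ∑ t : Fin 2 × Fin 2 × ZMod (2 * D.r),
      Bl t.1 t.2.1 (M F (D.co2 X t.1 t.2.1 t.2.2) * D.Fz t.2.2) := by
  apply D.ext_co2
  intro k l d
  rw [D.co2_sum, Finset.sum_eq_single (k, l, d)]
  · rw [D.co2_Bl, if_pos ⟨rfl, rfl, rfl⟩]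
  · intro t _ ht
    rw [D.co2_Bl, if_neg]
    rintro ⟨h1, h2, h3⟩
    exact ht (Prod.ext h1.symm (Prod.ext h2.symm h3.symm))
  · intro h
    exact absurd (Finset.mem_univ _) h

/-- the adjoint -/
private noncomputable def Adj2_star (X : Module.End F (Fin 2 → E)) : Module.End F (Fin 2 → E) :=
  ∑ t : Fin 2 × Fin 2 × ZMod (2 * D.r),
    Bl t.2.1 t.1 (D.Fz (-t.2.2) * M F (D.bar (D.co2 X t.1 t.2.1 t.2.2)))

private theorem Adj2_star_adj (X : Module.End F (Fin 2 → E)) (x y : Fin 2 → E) :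
    D.B2 (X x) y = D.B2 x (D.Adj2_star X y) := by
  conv_lhs => rw [D.Adj2_eq_sum X]
  unfold Adj2_star
  rw [LinearMap.sum_apply, LinearMap.sum_apply, map_sum, map_sum, LinearMap.sum_apply]
  exact Finset.sum_congr rfl fun t _ => D.adj2a t.1 t.2.1 t.2.2 _ x y

private theorem Adj2_co_star (X : Module.End F (Fin 2 → E)) (i j : Fin 2) (c : ZMod (2 * D.r)) :
    D.co2 (D.Adj2_star X) j i (-c) = D.σ (-c) (D.bar (D.co2 X i j c)) := by
  unfold Adj2_star
  rw [D.co2_sum, Finset.sum_eq_single (i, j, c)]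
  · rw [D.Fz_M, D.co2_Bl, if_pos ⟨rfl, rfl, rfl⟩]
  · intro t _ ht
    rw [D.Fz_M, D.co2_Bl, if_neg]
    rintro ⟨h1, h2, h3⟩
    exact ht (Prod.ext h2.symm (Prod.ext h1.symm (neg_injective h3).symm))
  · intro h
    exact absurd (Finset.mem_univ _) h

theorem mem_iff2 (X : Module.End F (Fin 2 → E)) :
    X ∈ D.𝔤2 ↔ ∀ i j c, D.co2 X j i (-c) = -(D.σ (-c) (D.bar (D.co2 X i j c))) := by
  have h1 : X ∈ D.𝔤2 ↔ D.Adj2_star X + X = 0 := by
    rw [D.mem_𝔤2]
    constructor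
    · intro h
      refine LinearMap.ext fun y => ?_
      apply D.B2_nondeg'
      intro x
      rw [LinearMap.add_apply, map_add, ← D.Adj2_star_adj]
      exact h x y
    · intro h x y
      rw [D.Adj2_star_adj, ← map_add, ← LinearMap.add_apply, h]
      simp
  rw [h1]
  constructor
  · intro h i j c
    have h2 : D.co2 (D.Adj2_star X + X) j i (-c) = 0 := by rw [h, D.co2_zero]
    rw [D.co2_add, D.Adj2_co_star] at h2
    linear_combination h2
  · intro h
    apply D.ext_co2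
    intro j i d
    have h2 := h i j (-d)
    have h3 := D.Adj2_co_star X i j (-d)
    rw [neg_neg] at h2 h3
    rw [D.co2_add, h3, h2, D.co2_zero]
    ring

theorem co2_S2 (i j k l : Fin 2) (c d : ZMod (2 * D.r)) (a : E) : D.co2 (D.S2 i j c a) k l d =
    (if k = i ∧ l = j ∧ d = c then a else 0) - (if k = j ∧ l = i ∧ d = -c then D.σ (-c) (D.bar a) else 0) := by
  unfold S2
  rw [D.co2_sub, D.co2_Bl, D.Fz_M, D.co2_Bl]

private theorem Adj2_Bl_smul (i j : Fin 2) (t : F) (Y : Module.End F E) :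
    Bl i j (t • Y) = t • Bl i j Y := by
  unfold Bl
  rw [LinearMap.smul_comp, LinearMap.comp_smul]

theorem S2_add (i j : Fin 2) (c : ZMod (2 * D.r)) (a b : E) :
    D.S2 i j c (a + b) = D.S2 i j c a + D.S2 i j c b := by
  unfold S2
  rw [M_add, map_add D.bar, M_add, add_mul, mul_add, Bl_add, Bl_add]
  abel

theorem S2_smul (i j : Fin 2) (c : ZMod (2 * D.r)) (t : F) (a : E) :
    D.S2 i j c (t • a) = t • D.S2 i j c a := by
  unfold S2
  rw [M_smul, map_smul D.bar, M_smul, smul_mul_assoc, mul_smul_comm, Adj2_Bl_smul, Adj2_Bl_smul,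
    smul_sub]

theorem S2_swap (i j : Fin 2) (c : ZMod (2 * D.r)) (a : E) :
    D.S2 j i (-c) a = -D.S2 i j c (D.σ c (D.bar a)) := by
  unfold S2
  rw [neg_neg, D.bar_σ, D.bar_bar, D.Fz_M, D.Fz_M, D.σ_neg_apply, neg_sub]

theorem S2_diag0 (i : Fin 2) (a : E) : D.S2 i i 0 a = M2 F (Pi.single i (a - D.bar a)) := by
  apply D.ext_co2
  intro k l d
  rw [D.co2_S2, D.co2_M2, neg_zero, D.σ_zero_apply]
  by_cases h1 : k = i
  · subst h1
    rw [Pi.single_eq_same]
    by_cases h2 : l = k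
    · subst h2
      by_cases h3 : d = 0
      · rw [if_pos ⟨rfl, rfl, h3⟩, if_pos ⟨rfl, rfl, h3⟩, if_pos ⟨rfl, h3⟩]
      · rw [if_neg (fun h => h3 h.2.2), if_neg (fun h => h3 h.2.2), if_neg (fun h => h3 h.2), sub_zero]
    · rw [if_neg (fun h => h2 h.2.1), if_neg (fun h => h2 h.2.1), if_neg (fun h => h2 h.1.symm), sub_zero]
  · rw [if_neg (fun h => h1 h.1), if_neg (fun h => h1 h.1), Pi.single_eq_of_ne h1, ite_self, sub_zero]

private theorem Adj2_σ_r_bar (a : E) : D.σ (D.r : ZMod (2 * D.r)) (D.bar a) = a := D.bar_bar a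

theorem S2_diag_r (i : Fin 2) (a : E) : D.S2 i i (D.r : ZMod (2 * D.r)) a = 0 := by
  unfold S2
  rw [D.neg_r, D.Fz_M, D.Adj2_σ_r_bar, sub_self]

theorem decomp2 {X : Module.End F (Fin 2 → E)} (hX : X ∈ D.𝔤2) :
    (2 : F) • X = (2 : F) • M2 F (fun i => D.co2 X i i 0) +
      ∑ t ∈ Finset.univ.filter (fun t : Fin 2 × Fin 2 × ZMod (2 * D.r) => ¬ (t.1 = t.2.1 ∧ t.2.2 = 0)),
        D.S2 t.1 t.2.1 t.2.2 (D.co2 X t.1 t.2.1 t.2.2) := by
  have hm := (D.mem_iff2 X).1 hX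
  apply D.ext_co2
  intro k l d
  have hs : ∀ t : Fin 2 × Fin 2 × ZMod (2 * D.r),
      D.co2 (D.S2 t.1 t.2.1 t.2.2 (D.co2 X t.1 t.2.1 t.2.2)) k l d =
      (if t = (k, l, d) then D.co2 X k l d else 0) + (if t = (l, k, -d) then D.co2 X k l d else 0) := by
    rintro ⟨i, j, c⟩
    rw [D.co2_S2]
    have e1 : (if k = i ∧ l = j ∧ d = c then D.co2 X i j c else 0) =
        (if (i, j, c) = (k, l, d) then D.co2 X k l d else 0) := by
      by_cases h : k = i ∧ l = j ∧ d = c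
      · obtain ⟨h1, h2, h3⟩ := h
        subst h1 h2 h3
        rw [if_pos ⟨rfl, rfl, rfl⟩, if_pos rfl]
      · rw [if_neg h, if_neg]
        intro h'
        rw [Prod.mk.injEq, Prod.mk.injEq] at h'
        exact h ⟨h'.1.symm, h'.2.1.symm, h'.2.2.symm⟩
    have e2 : (if k = j ∧ l = i ∧ d = -c then D.σ (-c) (D.bar (D.co2 X i j c)) else 0) =
        -(if (i, j, c) = (l, k, -d) then D.co2 X k l d else 0) := by
      by_cases h : k = j ∧ l = i ∧ d = -c
      · obtain ⟨h1, h2, h3⟩ := h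
        subst h1 h2 h3
        rw [if_pos ⟨rfl, rfl, rfl⟩, neg_neg, if_pos rfl, hm, neg_neg]
      · rw [if_neg h, if_neg, neg_zero]
        intro h'
        rw [Prod.mk.injEq, Prod.mk.injEq] at h'
        exact h ⟨h'.2.1.symm, h'.1.symm, by rw [h'.2.2, neg_neg]⟩
    show (if k = i ∧ l = j ∧ d = c then D.co2 X i j c else 0) -
      (if k = j ∧ l = i ∧ d = -c then D.σ (-c) (D.bar (D.co2 X i j c)) else 0) = _
    rw [e1, e2, sub_neg_eq_add]
  rw [D.co2_add, D.co2_smul, D.co2_smul, D.co2_M2, D.co2_sum, Finset.sum_congr rfl fun t _ => hs t,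
    Finset.sum_add_distrib, Finset.sum_ite_eq', Finset.sum_ite_eq']
  by_cases hd : k = l ∧ d = 0
  · obtain ⟨h1, h2⟩ := hd
    subst h1 h2
    simp [Finset.mem_filter]
  · have hd' : ¬ (l = k ∧ -d = 0) := fun h => hd ⟨h.1.symm, neg_eq_zero.1 h.2⟩
    have m1 : ((k, l, d) : Fin 2 × Fin 2 × ZMod (2 * D.r)) ∈ Finset.univ.filter
        (fun t : Fin 2 × Fin 2 × ZMod (2 * D.r) => ¬ (t.1 = t.2.1 ∧ t.2.2 = 0)) :=
      Finset.mem_filter.2 ⟨Finset.mem_univ _, hd⟩
    have m2 : ((l, k, -d) : Fin 2 × Fin 2 × ZMod (2 * D.r)) ∈ Finset.univ.filter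
        (fun t : Fin 2 × Fin 2 × ZMod (2 * D.r) => ¬ (t.1 = t.2.1 ∧ t.2.2 = 0)) :=
      Finset.mem_filter.2 ⟨Finset.mem_univ _, hd'⟩
    rw [if_neg hd, if_pos m1, if_pos m2, smul_zero, zero_add, two_smul]

theorem bar_co2_zero {X : Module.End F (Fin 2 → E)} (hX : X ∈ D.𝔤2) (i : Fin 2) :
    D.bar (D.co2 X i i 0) = -D.co2 X i i 0 := by
  have h := (D.mem_iff2 X).1 hX i i 0
  rw [neg_zero, D.σ_zero_apply] at h
  rw [eq_neg_iff_add_eq_zero]
  linear_combination h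

theorem co2_r {X : Module.End F (Fin 2 → E)} (hX : X ∈ D.𝔤2) (i : Fin 2) :
    D.co2 X i i (D.r : ZMod (2 * D.r)) = 0 := by
  have h1 := (D.mem_iff2 X).1 hX i i (D.r : ZMod (2 * D.r))
  rw [D.neg_r, D.Adj2_σ_r_bar] at h1
  have h2 : (2 : F) • D.co2 X i i (D.r : ZMod (2 * D.r)) = 0 := by
    rw [two_smul]
    linear_combination h1
  exact (smul_eq_zero.1 h2).resolve_left D.two_ne

end Da

end Pool.Agent.H32.UP
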