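import Pool.Agent.H32.UP.Bas2

/-!
# UP.Alg : normalisers of subalgebras of `E × E`

PROOF. Let `A ≠ ⊥`. Case 1: some `z ∈ A`, `z ≠ 0`, has a zero coordinate, say `z 1 = 0` (`z 0 = 0` is symmetric). Then `z ^ (card E - 1) = ![1, 0] ∈ A` (`FiniteField.pow_card_sub_one_eq_one`), so `J = ![1, -1] = 2 ![1,0] - 1 ∈ A`. If `h M2 J = M2 w h` then `M2 w = h M2 J h⁻¹`, `w ^ 2 = 1` (`M2_pow`, `M2_inj`),
`w i = ± 1`, and `w ≠ ± 1` (otherwise `M2 J = ± 1`), so `w = ± J`: `NorJ h`. Case 2: every `z ∈ A`, `z ≠ 0`, has nonzero coordinates. Then `z ↦ z 0` is injective on `A`; its image `K` is a subring of the finite field `E` containing `F`, hence a subfield (`IntermediateField` or: closed under inverses because finite), and `z 1 = ψ (z 0)` for an `F`-algebra homomorphism `ψ : K → E`.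
`K ≠ F` as `A ≠ ⊥`. `ψ` is the restriction of some `fr ^ j` (extend `ψ` to `E`: `AlgHom.liftNormal` (`E/F` is normal, algebraic over `K`), or primitive element; every automorphism of `E/F` is a power of `fr`: `aut_σ` in UD/Grd.lean). So `A = {![k, (fr ^ j) k] | k ∈ K}`. Let `d = [K : F] > 1`, `d ∣ 2 r` (`finrank_mul_finrank`), `K = {k | (fr ^ d) k = k}` (cardinality `q ^ d`;
`⊆`: `k ^ (q ^ d) = k`; the right side is the fixed field of `fr ^ d`, it has at most `q ^ d` elements as roots of `X ^ (q ^ d) - X`), `p` a prime divisor of `d`. If `(fr ^ p) a = a` then `(fr ^ d) a = a`, `a ∈ K`, `z = ![a, (fr ^ j) a] ∈ A`. If `h M2 z = M2 w h`, `w ∈ A`, then `z ^ (q ^ p) = z` gives `w ^ (q ^ p) = w` (`M2 w = h M2 z h⁻¹`), `w = ![b, (fr ^ j) b]` with `(fr ^ p) b = b`.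
-/

set_option autoImplicit false
set_option linter.unusedSectionVars false

namespace Pool.Agent.H32.UP

open Module Pool.Agent.H32.UD

namespace Da

variable {F E : Type} [Field F] [Field E] [Algebra F E] (D : Da F E) [Finite F] [Finite E]

/-- `h` normalises `A` -/
def NorA (A : Subalgebra F (Fin 2 → E)) (h : (Fin 2 → E) ≃ₗ[F] (Fin 2 → E)) : Prop :=
  ∀ z ∈ A, ∃ w ∈ A, (h : Module.End F (Fin 2 → E)) * M2 F z = M2 F w * (h : Module.End F (Fin 2 → E))

private theorem alg_cancel_right {X Y : Module.End F (Fin 2 → E)} (h : (Fin 2 → E) ≃ₗ[F] (Fin 2 → E))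
    (e : X * (h : Module.End F (Fin 2 → E)) = Y * (h : Module.End F (Fin 2 → E))) : X = Y := by
  apply LinearMap.ext
  intro x
  have h1 := LinearMap.congr_fun e (h.symm x)
  simpa using h1

private theorem alg_cancel_left {X Y : Module.End F (Fin 2 → E)} (h : (Fin 2 → E) ≃ₗ[F] (Fin 2 → E))
    (e : (h : Module.End F (Fin 2 → E)) * X = (h : Module.End F (Fin 2 → E)) * Y) : X = Y := by
  apply LinearMap.ext
  intro x
  have h1 := LinearMap.congr_fun e x
  exact h.injective h1

private theorem alg_aut (g : E ≃ₐ[F] E) : ∃ i, g = D.σ i := by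
  have hf : FiniteDimensional F E := inferInstance
  have hi : Function.Injective D.σ := fun c d h => D.σ_inj h
  have hcard : Nat.card (ZMod (2 * D.r)) = Nat.card (E ≃ₐ[F] E) := by
    rw [IsGalois.card_aut_eq_finrank, D.fin, Nat.card_zmod]
  have hb : Function.Bijective D.σ := (Nat.bijective_iff_injective_and_card D.σ).2 ⟨hi, hcard⟩
  obtain ⟨i, hi⟩ := hb.2 g
  exact ⟨i, hi.symm⟩

private theorem alg_frpow_apply (n : ℕ) (x : E) : (fr F E ^ n) x = x ^ (Nat.card F ^ n) := by
  induction n with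
  | zero => simp
  | succ n ih =>
    rw [pow_succ']
    show fr F E ((fr F E ^ n) x) = _
    rw [ih, fr_apply, ← pow_mul, pow_succ]

private theorem alg_pow_fix {g : E ≃ₐ[F] E} {a : E} (h : g a = a) (n : ℕ) : (g ^ n) a = a := by
  induction n with
  | zero => rfl
  | succ n ih =>
    rw [pow_succ']
    show g ((g ^ n) a) = a
    rw [ih, h]

private theorem alg_two (D : Da F E) : (2 : E) ≠ 0 := by
  intro h
  apply D.two_ne
  have h1 : algebraMap F E 2 = 0 := by
    rw [map_ofNat]
    exact h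
  exact (map_eq_zero (algebraMap F E)).1 h1

private theorem alg_J {A : Subalgebra F (Fin 2 → E)} {z : Fin 2 → E} (hz : z ∈ A) (hz0 : z ≠ 0)
    {i : Fin 2} (hi : z i = 0) : (![1, -1] : Fin 2 → E) ∈ A := by
  let _ := Fintype.ofFinite E
  obtain ⟨n, hn⟩ : ∃ n, n = Fintype.card E - 1 := ⟨_, rfl⟩
  have hn0 : n ≠ 0 := by
    have := Fintype.one_lt_card (α := E)
    omega
  have hp : ∀ a : E, a ≠ 0 → a ^ n = 1 := by
    intro a ha
    rw [hn]
    exact FiniteField.pow_card_sub_one_eq_one a ha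
  fin_cases i
  · have hi' : z 0 = 0 := hi
    have h1 : z 1 ≠ 0 := by
      intro h1
      apply hz0
      funext i
      fin_cases i
      · exact hi'
      · exact h1
    have h2 : (![1, -1] : Fin 2 → E) = 1 - (z ^ n + z ^ n) := by
      funext i
      fin_cases i
      · simp [hi', hn0]
      · simp [hp _ h1]
    rw [h2]
    exact A.sub_mem A.one_mem (A.add_mem (A.pow_mem hz n) (A.pow_mem hz n))
  · have hi' : z 1 = 0 := hi
    have h1 : z 0 ≠ 0 := by
      intro h1
      apply hz0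
      funext i
      fin_cases i
      · exact h1
      · exact hi'
    have h2 : (![1, -1] : Fin 2 → E) = (z ^ n + z ^ n) - 1 := by
      funext i
      fin_cases i
      · simp [hp _ h1]
      · simp [hi', hn0]
    rw [h2]
    exact A.sub_mem (A.add_mem (A.pow_mem hz n) (A.pow_mem hz n)) A.one_mem

private theorem alg_norJ (D : Da F E) {A : Subalgebra F (Fin 2 → E)} (hJ : (![1, -1] : Fin 2 → E) ∈ A)
    (h : (Fin 2 → E) ≃ₗ[F] (Fin 2 → E)) (hh : NorA A h) : NorJ F h := by
  have h2 := alg_two D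
  obtain ⟨w, hw, e⟩ := hh _ hJ
  have hs : SemiconjBy (h : Module.End F (Fin 2 → E)) (M2 F ![1, -1]) (M2 F w) := e
  have hs2 := hs.pow_right 2
  have hJ2 : (![1, -1] : Fin 2 → E) ^ 2 = 1 := by
    funext i
    fin_cases i <;> simp
  rw [← M2_pow, ← M2_pow, hJ2, M2_one] at hs2
  have hw2 : w ^ 2 = 1 := by
    apply M2_inj (F := F)
    rw [M2_one]
    apply alg_cancel_right h
    have h3 : (h : Module.End F (Fin 2 → E)) * 1 = M2 F (w ^ 2) * (h : Module.End F (Fin 2 → E)) := hs2
    rw [← h3, one_mul, mul_one]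
  have hwi : ∀ i, w i = 1 ∨ w i = -1 := by
    intro i
    have h3 := congrFun hw2 i
    rw [Pi.pow_apply, Pi.one_apply, sq] at h3
    exact mul_self_eq_one_iff.1 h3
  have hne : (-1 : E) ≠ 1 := by
    intro h3
    apply h2
    linear_combination -h3
  rcases hwi 0 with h0 | h0 <;> rcases hwi 1 with h1 | h1
  · exfalso
    have hw1 : w = 1 := by
      funext i
      fin_cases i
      · exact h0
      · exact h1
    rw [hw1, M2_one, one_mul] at e
    have h3 : M2 F (![1, -1] : Fin 2 → E) = M2 F (1 : Fin 2 → E) := by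
      rw [M2_one]
      apply alg_cancel_left h
      rw [mul_one]
      exact e
    have h4 := congrFun (M2_inj h3) 1
    exact hne (by simpa using h4)
  · left
    have hw1 : w = ![1, -1] := by
      funext i
      fin_cases i
      · exact h0
      · exact h1
    rw [← hw1]
    rw [← hw1] at e
    exact e
  · right
    have hw1 : w = -![1, -1] := by
      funext i
      fin_cases i
      · simpa using h0
      · simpa using h1
    rw [hw1, M2_neg] at e
    refine e.trans ?_
    apply LinearMap.ext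
    intro x
    rfl
  · exfalso
    have hw1 : w = -1 := by
      funext i
      fin_cases i
      · exact h0
      · exact h1
    rw [hw1, M2_neg, M2_one] at e
    have h3 : M2 F (![1, -1] : Fin 2 → E) = M2 F (-1 : Fin 2 → E) := by
      rw [M2_neg, M2_one]
      apply alg_cancel_left h
      refine e.trans ?_
      apply LinearMap.ext
      intro x
      show -(h x) = h (-x)
      rw [map_neg]
    have h4 := congrFun (M2_inj h3) 0
    exact hne (by simpa using h4.symm)

/-- a generator of a subalgebra without zero divisors -/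
private theorem alg_gen {A : Subalgebra F (Fin 2 → E)} (hz : ∀ z ∈ A, ∀ i, z i = 0 → z = 0) :
    ∃ z ∈ A, ∀ w ∈ A, w ≠ 0 → ∃ k : ℕ, w = z ^ k := by
  have hnzd : NoZeroDivisors A := ⟨by
    rintro ⟨x, hx⟩ ⟨y, hy⟩ hxy
    have h1 : x * y = 0 := congrArg Subtype.val hxy
    have h2 := congrFun h1 0
    rw [Pi.mul_apply, Pi.zero_apply, mul_eq_zero] at h2
    rcases h2 with h2 | h2
    · exact Or.inl (Subtype.ext (hz x hx 0 h2))
    · exact Or.inr (Subtype.ext (hz y hy 0 h2))⟩
  have hdom : IsDomain A := NoZeroDivisors.to_isDomain A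
  have hfin : Finite A := inferInstance
  obtain ⟨g, hg⟩ := IsCyclic.exists_generator (α := Aˣ)
  refine ⟨((g : A) : Fin 2 → E), (g : A).2, ?_⟩
  intro w hw hw0
  have hne : (⟨w, hw⟩ : A) ≠ 0 := by
    intro h
    exact hw0 (congrArg Subtype.val h)
  obtain ⟨b, hb⟩ := (Finite.isField_of_domain A).mul_inv_cancel hne
  obtain ⟨v, hv⟩ := IsUnit.of_mul_eq_one b hb
  have hv2 := hg v
  rw [← mem_powers_iff_mem_zpowers] at hv2
  obtain ⟨k, hk⟩ := hv2
  refine ⟨k, ?_⟩
  have h3 : ((g ^ k : Aˣ) : A) = ⟨w, hw⟩ := by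
    rw [← hv]
    exact congrArg Units.val hk
  have h4 := congrArg Subtype.val h3
  rw [Units.val_pow_eq_pow_val] at h4
  exact h4.symm

private theorem alg_aeval_apply (z : Fin 2 → E) (Q : Polynomial F) (i : Fin 2) :
    (Polynomial.aeval z Q) i = Polynomial.aeval (z i) Q :=
  (Polynomial.aeval_algHom_apply (Pi.evalAlgHom F (fun _ : Fin 2 => E) i) z Q).symm

private theorem alg_aeval_mem {A : Subalgebra F (Fin 2 → E)} {z : Fin 2 → E} (hz : z ∈ A)
    (Q : Polynomial F) : Polynomial.aeval z Q ∈ A := by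
  have h1 : Algebra.adjoin F {z} ≤ A := Algebra.adjoin_le (Set.singleton_subset_iff.2 hz)
  exact h1 (Polynomial.aeval_mem_adjoin_singleton F z)

theorem alg_class (A : Subalgebra F (Fin 2 → E)) (hA : A ≠ ⊥) :
    (∀ h, NorA A h → NorJ F h) ∨
    ∃ p j : ℕ, p.Prime ∧ p ∣ 2 * D.r ∧ ∀ h, NorA A h → NorK F p j h := by
  by_cases hc : ∃ z ∈ A, z ≠ 0 ∧ ∃ i, z i = 0
  · left
    obtain ⟨z, hz, hz0, i, hi⟩ := hc
    exact fun h hh => alg_norJ D (alg_J hz hz0 hi) h hh
  right
  have hz : ∀ z ∈ A, ∀ i, z i = 0 → z = 0 := by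
    intro z hzA i hi
    by_contra hne
    exact hc ⟨z, hzA, hne, i, hi⟩
  obtain ⟨z, hzA, hgen⟩ := alg_gen hz
  have hroot : Polynomial.aeval (z 1) (minpoly F (z 0)) = 0 := by
    have h1 := hz _ (alg_aeval_mem hzA (minpoly F (z 0))) 0 (by
      rw [alg_aeval_apply, minpoly.aeval])
    rw [← alg_aeval_apply, h1]
    rfl
  obtain ⟨g, hg⟩ : ∃ g : E ≃ₐ[F] E, g (z 0) = z 1 := by
    obtain ⟨g, hg⟩ := minpoly.exists_algEquiv_of_root (Algebra.IsAlgebraic.isAlgebraic (R := F) (z 0)) hroot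
    refine ⟨g.symm, ?_⟩
    rw [← hg]
    exact g.symm_apply_apply _
  obtain ⟨i, rfl⟩ := D.alg_aut g
  obtain ⟨j, hj⟩ : ∃ j, j = i.val := ⟨_, rfl⟩
  have hσ : D.σ i = fr F E ^ j := by
    rw [hj]
    rfl
  rw [hσ] at hg
  have hw1 : ∀ w ∈ A, w 1 = (fr F E ^ j) (w 0) := by
    intro w hw
    by_cases hw0 : w = 0
    · rw [hw0]
      simp
    · obtain ⟨k, rfl⟩ := hgen w hw hw0
      rw [Pi.pow_apply, Pi.pow_apply, map_pow, hg]
  obtain ⟨K, hK⟩ : ∃ K : IntermediateField F E, K = IntermediateField.adjoin F {z 0} := ⟨_, rfl⟩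
  have hK1 : ∀ a ∈ K, (![a, (fr F E ^ j) a] : Fin 2 → E) ∈ A := by
    intro a ha
    have h1 : a ∈ (IntermediateField.adjoin F {z 0}).toSubalgebra := by
      rw [← hK]
      exact ha
    rw [IntermediateField.adjoin_simple_toSubalgebra_of_isAlgebraic (Algebra.IsAlgebraic.isAlgebraic (z 0)),
      Algebra.adjoin_singleton_eq_range_aeval] at h1
    obtain ⟨Q, hQ⟩ := h1
    have hQ' : Polynomial.aeval (z 0) Q = a := hQ
    have h2 := alg_aeval_mem hzA Q
    have h3 : Polynomial.aeval z Q = ![a, (fr F E ^ j) a] := by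
      funext i
      fin_cases i
      · show (Polynomial.aeval z Q) 0 = a
        rw [alg_aeval_apply, hQ']
      · show (Polynomial.aeval z Q) 1 = (fr F E ^ j) a
        rw [hw1 _ h2, alg_aeval_apply, hQ']
    rw [← h3]
    exact h2
  have hK2 : ∀ w ∈ A, w 0 ∈ K := by
    intro w hw
    by_cases hw0 : w = 0
    · rw [hw0]
      exact K.zero_mem
    · obtain ⟨k, rfl⟩ := hgen w hw hw0
      rw [Pi.pow_apply]
      refine pow_mem ?_ k
      rw [hK]
      exact IntermediateField.mem_adjoin_simple_self F (z 0)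
  have hfr : ¬ ∀ a ∈ K, (fr F E) a = a := by
    intro hall
    apply hA
    rw [eq_bot_iff]
    intro w hw
    have h0 := hK2 w hw
    have h1 : w 0 ∈ (⊥ : IntermediateField F E) := by
      rw [IsGalois.mem_bot_iff_fixed]
      intro f
      obtain ⟨i', rfl⟩ := D.alg_aut f
      exact alg_pow_fix (hall _ h0) _
    rw [IntermediateField.mem_bot] at h1
    obtain ⟨c, hcc⟩ := h1
    rw [Algebra.mem_bot]
    refine ⟨c, ?_⟩
    funext i
    fin_cases i
    · exact hcc
    · show algebraMap F E c = w 1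
      rw [hw1 w hw, ← hcc]
      exact ((fr F E ^ j).commutes c).symm
  have hex : ∃ k, 0 < k ∧ ∀ a ∈ K, (fr F E ^ k) a = a := by
    refine ⟨2 * D.r, ?_, ?_⟩
    · have := D.two_le
      omega
    · intro a _
      rw [D.fr_pow]
      rfl
  classical
  obtain ⟨d, hd⟩ : ∃ d, d = Nat.find hex := ⟨_, rfl⟩
  have hd1 : 0 < d ∧ ∀ a ∈ K, (fr F E ^ d) a = a := by
    rw [hd]
    exact Nat.find_spec hex
  have hdvd : ∀ k, (∀ a ∈ K, (fr F E ^ k) a = a) → d ∣ k := by
    intro k hk
    rw [Nat.dvd_iff_mod_eq_zero]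
    by_contra hne
    have hlt : k % d < d := Nat.mod_lt _ hd1.1
    have h1 : ¬ (0 < k % d ∧ ∀ a ∈ K, (fr F E ^ (k % d)) a = a) := by
      apply Nat.find_min hex
      rw [← hd]
      exact hlt
    apply h1
    refine ⟨Nat.pos_of_ne_zero hne, ?_⟩
    intro a ha
    have h2 := hk a ha
    rw [← Nat.mod_add_div k d, pow_add, pow_mul] at h2
    have h3 : (fr F E ^ (k % d)) (((fr F E ^ d) ^ (k / d)) a) = a := h2
    rw [alg_pow_fix (hd1.2 a ha)] at h3
    exact h3
  have hd2 : d ∣ 2 * D.r := hdvd _ (by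
    intro a _
    rw [D.fr_pow]
    rfl)
  have hdne : d ≠ 1 := by
    intro h
    apply hfr
    intro a ha
    have h1 := hd1.2 a ha
    rw [h, pow_one] at h1
    exact h1
  have hp := Nat.minFac_prime hdne
  have hpd : d.minFac ∣ d := Nat.minFac_dvd d
  refine ⟨d.minFac, j, hp, hpd.trans hd2, ?_⟩
  have hKp : ∀ a : E, (fr F E ^ d.minFac) a = a → a ∈ K := by
    intro a ha
    rw [← IsGalois.fixedField_fixingSubgroup K, IntermediateField.mem_fixedField_iff]
    intro f hf
    obtain ⟨i', rfl⟩ := D.alg_aut f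
    have h1 : d ∣ i'.val := by
      apply hdvd
      intro b hb
      exact (IntermediateField.mem_fixingSubgroup_iff K _).1 hf b hb
    obtain ⟨m, hm⟩ := hpd.trans h1
    show (fr F E ^ i'.val) a = a
    rw [hm, pow_mul]
    exact alg_pow_fix ha m
  intro h hh a ha
  obtain ⟨w, hw, e⟩ := hh _ (hK1 a (hKp a ha))
  have hwe : w = ![w 0, (fr F E ^ j) (w 0)] := by
    funext i
    fin_cases i
    · rfl
    · exact hw1 w hw
  refine ⟨w 0, ?_, ?_⟩
  · have hs : SemiconjBy (h : Module.End F (Fin 2 → E)) (M2 F ![a, (fr F E ^ j) a]) (M2 F w) := e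
    have hs2 := hs.pow_right (Nat.card F ^ d.minFac)
    have ha2 : (![a, (fr F E ^ j) a] : Fin 2 → E) ^ (Nat.card F ^ d.minFac) = ![a, (fr F E ^ j) a] := by
      have ha3 := ha
      rw [alg_frpow_apply] at ha3
      funext i
      fin_cases i
      · exact ha3
      · show ((fr F E ^ j) a) ^ (Nat.card F ^ d.minFac) = (fr F E ^ j) a
        rw [← map_pow, ha3]
    rw [← M2_pow, ← M2_pow, ha2] at hs2
    have h5 : w ^ (Nat.card F ^ d.minFac) = w := by
      apply M2_inj (F := F)
      apply alg_cancel_right h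
      have h6 : (h : Module.End F (Fin 2 → E)) * M2 F ![a, (fr F E ^ j) a] =
        M2 F (w ^ (Nat.card F ^ d.minFac)) * (h : Module.End F (Fin 2 → E)) := hs2
      rw [← h6, ← e]
    rw [alg_frpow_apply]
    exact congrFun h5 0
  · rw [← hwe]
    exact e

end Da

end Pool.Agent.H32.UP
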