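import Pool.Agent.H32.UP.Defs

/-!
# UP.Bas : first facts on the field model
-/

set_option autoImplicit false
set_option linter.unusedSectionVars false

namespace Pool.Agent.H32.UP

open Module Pool.Agent.H32.UD


namespace Da

variable {F E : Type} [Field F] [Field E] [Algebra F E] (D : Da F E) [Finite F] [Finite E]

theorem fr_pow : fr F E ^ (2 * D.r) = 1 := by
  rw [← D.fin, ← orderOf_fr, pow_orderOf_eq_one]

theorem σ_natCast (n : ℕ) : D.σ (n : ZMod (2 * D.r)) = fr F E ^ n := by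
  unfold σ
  rw [ZMod.val_natCast]
  conv_rhs => rw [← Nat.div_add_mod n (2 * D.r), pow_add, pow_mul, D.fr_pow, one_pow, one_mul]

theorem σ_zero : D.σ 0 = 1 := by
  have := D.σ_natCast 0
  simpa using this

theorem σ_add (c d : ZMod (2 * D.r)) : D.σ (c + d) = D.σ c * D.σ d := by
  have h1 : c = ((c.val : ℕ) : ZMod (2 * D.r)) := (ZMod.natCast_zmod_val c).symm
  have h2 : d = ((d.val : ℕ) : ZMod (2 * D.r)) := (ZMod.natCast_zmod_val d).symm
  rw [h1, h2, ← Nat.cast_add, σ_natCast, σ_natCast, σ_natCast, pow_add]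

theorem σ_one : D.σ 1 = fr F E := by
  have := D.σ_natCast 1
  simpa using this

theorem σ_add_apply (c d : ZMod (2 * D.r)) (x : E) : D.σ (c + d) x = D.σ c (D.σ d x) := by
  rw [σ_add]; rfl

theorem σ_zero_apply (x : E) : D.σ 0 x = x := by
  rw [σ_zero]; rfl

theorem σ_comm (c d : ZMod (2 * D.r)) (x : E) : D.σ c (D.σ d x) = D.σ d (D.σ c x) := by
  rw [← σ_add_apply, ← σ_add_apply, add_comm]

theorem σ_neg_apply (c : ZMod (2 * D.r)) (x : E) : D.σ (-c) (D.σ c x) = x := by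
  rw [← σ_add_apply, neg_add_cancel, σ_zero_apply]

theorem σ_apply_neg (c : ZMod (2 * D.r)) (x : E) : D.σ c (D.σ (-c) x) = x := by
  rw [← σ_add_apply, add_neg_cancel, σ_zero_apply]

theorem σ_inj {c d : ZMod (2 * D.r)} (h : D.σ c = D.σ d) : c = d := by
  unfold σ at h
  have h1 : ∀ n, n < 2 * D.r → ∀ m, m < 2 * D.r → fr F E ^ n = fr F E ^ m → n = m := by
    intro n hn m hm hnm
    have ho := orderOf_fr F E
    rw [D.fin] at ho
    exact (pow_injOn_Iio_orderOf (x := fr F E)) (by simpa [ho] using hn) (by simpa [ho] using hm) hnm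
  exact ZMod.val_injective _ (h1 _ (ZMod.val_lt c) _ (ZMod.val_lt d) h)

theorem two_r : ((D.r : ℕ) : ZMod (2 * D.r)) + (D.r : ZMod (2 * D.r)) = 0 := by
  rw [← Nat.cast_add, ← two_mul]
  exact ZMod.natCast_self _

theorem neg_r : -((D.r : ℕ) : ZMod (2 * D.r)) = (D.r : ZMod (2 * D.r)) := by
  rw [neg_eq_iff_add_eq_zero]
  exact D.two_r

theorem r_ne_zero : ((D.r : ℕ) : ZMod (2 * D.r)) ≠ 0 := by
  rw [Ne, ZMod.natCast_eq_zero_iff]
  intro h
  have := Nat.le_of_dvd (by have := D.two_le; omega) h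
  have := D.two_le
  omega

theorem bar_eq : D.bar = D.σ (D.r : ZMod (2 * D.r)) := rfl

theorem bar_bar (x : E) : D.bar (D.bar x) = x := by
  rw [bar_eq, ← σ_add_apply, two_r, σ_zero_apply]

theorem bar_σ (c : ZMod (2 * D.r)) (x : E) : D.bar (D.σ c x) = D.σ c (D.bar x) := by
  rw [bar_eq, σ_comm]

theorem Fz_apply (c : ZMod (2 * D.r)) (x : E) : D.Fz c x = D.σ c x := rfl

theorem Fz_zero : D.Fz 0 = 1 := by
  ext x
  rw [Fz_apply, σ_zero_apply]; rfl

theorem Fz_add (c d : ZMod (2 * D.r)) : D.Fz (c + d) = D.Fz c * D.Fz d := by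
  ext x
  rw [Fz_apply, σ_add_apply]; rfl

theorem Fz_M (c : ZMod (2 * D.r)) (a : E) : D.Fz c * M F a = M F (D.σ c a) * D.Fz c := by
  ext x
  show D.σ c (a * x) = D.σ c a * D.σ c x
  rw [map_mul]

theorem trace_σ (c : ZMod (2 * D.r)) (x : E) : Algebra.trace F E (D.σ c x) = Algebra.trace F E x :=
  Algebra.trace_eq_of_algEquiv (D.σ c) x

theorem trace_bar (x : E) : Algebra.trace F E (D.bar x) = Algebra.trace F E x := D.trace_σ _ x

end Da

end Pool.Agent.H32.UP
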