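import Pool.Agent.H32.UP.Bk

/-!
# UP.Bas2 : first facts on the two-block model

PROOF. Copy the proofs of UD/Bas.lean (end of the file) with a sum over the two coordinates: `B2_symm`: `trace_bar`, `bar_bar`. `B2_nondeg`: for `x i ≠ 0` test `y = Pi.single i (bar (t (x i)⁻¹))`, `Tr t = 1`. `mu2_mem_G2`: `u i * bar (u i) = 1`. `M2_mem_𝔤2`, `conj_mem_𝔤2` as there. `dl_bar`: `bar (fr e) = fr (bar e)` (`bar_σ`, `σ_one`).
`Wsp2_le`: span, `conj_mem_𝔤2`, `M2_mem_𝔤2`, `dl_bar`.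
-/

set_option autoImplicit false
set_option linter.unusedSectionVars false

namespace Pool.Agent.H32.UP

open Module Pool.Agent.H32.UD

namespace Da

variable {F E : Type} [Field F] [Field E] [Algebra F E] (D : Da F E) [Finite F] [Finite E]

theorem B2_symm (x y : Fin 2 → E) : D.B2 y x = D.B2 x y := by
  rw [B2_apply, B2_apply]
  refine Finset.sum_congr rfl fun i _ => ?_
  rw [← D.trace_bar (y i * D.bar (x i)), map_mul D.bar, D.bar_bar, mul_comm]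

theorem B2_nondeg {x : Fin 2 → E} (h : ∀ y, D.B2 x y = 0) : x = 0 := by
  funext i
  rw [Pi.zero_apply]
  by_contra hx
  obtain ⟨t, ht⟩ := Algebra.trace_surjective F E 1
  have h1 := h (Pi.single i (D.bar (t * (x i)⁻¹)))
  rw [B2_apply, Finset.sum_eq_single i] at h1
  · rw [Pi.single_eq_same, D.bar_bar, mul_comm t, ← mul_assoc, mul_inv_cancel₀ hx, one_mul, ht] at h1
    exact one_ne_zero h1
  · intro j _ hj
    rw [Pi.single_eq_of_ne hj, map_zero, mul_zero, map_zero]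
  · intro hi
    exact absurd (Finset.mem_univ i) hi

theorem B2_nondeg' {x : Fin 2 → E} (h : ∀ y, D.B2 y x = 0) : x = 0 := by
  apply D.B2_nondeg
  intro y
  rw [B2_symm, h]

theorem mu2_mem_G2 {u : Fin 2 → Eˣ} (hu : ∀ i, (u i : E) * D.bar (u i) = 1) : mu2 F u ∈ D.G2 := by
  intro x y
  rw [B2_apply, B2_apply]
  refine Finset.sum_congr rfl fun i _ => ?_
  rw [mu2_apply, mu2_apply, map_mul D.bar]
  congr 1
  linear_combination x i * D.bar (y i) * hu i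

theorem M2_mem_𝔤2 {e : Fin 2 → E} (he : ∀ i, D.bar (e i) = -e i) : M2 F e ∈ D.𝔤2 := by
  intro x y
  rw [B2_apply, B2_apply, ← Finset.sum_add_distrib]
  refine Finset.sum_eq_zero fun i _ => ?_
  rw [M2_apply, M2_apply, map_mul D.bar, he i, ← map_add]
  have : e i * x i * D.bar (y i) + x i * (-e i * D.bar (y i)) = 0 := by ring
  rw [this, map_zero]

theorem dl_bar {e : E} (he : D.bar e = -e) (i : Fin 2) : D.bar (dl F e i) = -dl F e i := by
  have h0 : D.bar (fr F E e) = -fr F E e := by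
    rw [← D.σ_one, D.bar_σ, he, map_neg]
  fin_cases i
  · exact he
  · change D.bar (4 * e + 2 * fr F E e) = -(4 * e + 2 * fr F E e)
    rw [map_add, map_mul, map_mul, map_ofNat, map_ofNat, he, h0]
    ring

theorem conj_mem_𝔤2 {h : (Fin 2 → E) ≃ₗ[F] (Fin 2 → E)} (hh : h ∈ D.G2) {X : Module.End F (Fin 2 → E)}
    (hX : X ∈ D.𝔤2) : (h : Module.End F (Fin 2 → E)) * X *
      ((h⁻¹ : (Fin 2 → E) ≃ₗ[F] (Fin 2 → E)) : Module.End F (Fin 2 → E)) ∈ D.𝔤2 := by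
  intro x y
  have h1 : ∀ z, h ((h⁻¹ : (Fin 2 → E) ≃ₗ[F] (Fin 2 → E)) z) = z := fun z => by
    rw [← LinearEquiv.mul_apply, mul_inv_cancel]; rfl
  have e1 : D.B2 (((h : Module.End F (Fin 2 → E)) * X *
      ((h⁻¹ : (Fin 2 → E) ≃ₗ[F] (Fin 2 → E)) : Module.End F (Fin 2 → E))) x) y =
      D.B2 (X ((h⁻¹ : (Fin 2 → E) ≃ₗ[F] (Fin 2 → E)) x))
        ((h⁻¹ : (Fin 2 → E) ≃ₗ[F] (Fin 2 → E)) y) := by
    rw [← hh (X ((h⁻¹ : (Fin 2 → E) ≃ₗ[F] (Fin 2 → E)) x)), h1]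
    rfl
  have e2 : D.B2 x (((h : Module.End F (Fin 2 → E)) * X *
      ((h⁻¹ : (Fin 2 → E) ≃ₗ[F] (Fin 2 → E)) : Module.End F (Fin 2 → E))) y) =
      D.B2 ((h⁻¹ : (Fin 2 → E) ≃ₗ[F] (Fin 2 → E)) x)
        (X ((h⁻¹ : (Fin 2 → E) ≃ₗ[F] (Fin 2 → E)) y)) := by
    rw [← hh ((h⁻¹ : (Fin 2 → E) ≃ₗ[F] (Fin 2 → E)) x), h1]
    rfl
  rw [e1, e2]
  exact hX _ _

theorem Wsp2_le (H : Subgroup ((Fin 2 → E) ≃ₗ[F] (Fin 2 → E))) (hH : H ≤ D.G2) : D.Wsp2 H ≤ D.𝔤2 := by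
  unfold Wsp2
  rw [Submodule.span_le]
  rintro Y ⟨h, hh, e, he, rfl⟩
  exact D.conj_mem_𝔤2 (hH hh) (D.M2_mem_𝔤2 (D.dl_bar he))

theorem bracket_mem2 {X Y : Module.End F (Fin 2 → E)} (hX : X ∈ D.𝔤2) (hY : Y ∈ D.𝔤2) :
    X * Y - Y * X ∈ D.𝔤2 := by
  intro x y
  have h1 := hX (Y x) y
  have h2 := hY (X x) y
  have h3 := hX x (Y y)
  have h4 := hY x (X y)
  rw [LinearMap.sub_apply, LinearMap.sub_apply, Module.End.mul_apply, Module.End.mul_apply,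
    Module.End.mul_apply, Module.End.mul_apply, map_sub, map_sub, LinearMap.sub_apply]
  linear_combination h1 - h2 + h3 - h4

end Da

end Pool.Agent.H32.UP
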