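import Pool.Agent.H32.UP.Dec

/-!
# UP.Bk : the algebra of two by two blocks

`co2 X i j c` = the coefficient at `Fz c` of the block `(i, j)` of `X`.

PROOF. `bl_*`: evaluate at a vector (`bl_apply`, `Bl_apply`, `Pi.single_apply`); `bl_mul`: `Y (Pi.single j x) = ∑ k, Pi.single k (bl Y k j x)` (`Finset.univ_sum_single`), `X` is linear. `ext_bl`: `x = ∑ j, Pi.single j (x j)`. The `co2` lemmas follow from the `co` lemmas of UP.Dec.
-/

set_option autoImplicit false
set_option linter.unusedSectionVars false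

namespace Pool.Agent.H32.UP

open Module Pool.Agent.H32.UD

section gen

variable {F E : Type} [Field F] [Field E] [Algebra F E]

theorem bl_add (X Y : Module.End F (Fin 2 → E)) (i j : Fin 2) : bl (X + Y) i j = bl X i j + bl Y i j := by
  rfl

theorem bl_sub (X Y : Module.End F (Fin 2 → E)) (i j : Fin 2) : bl (X - Y) i j = bl X i j - bl Y i j := by
  rfl

theorem bl_neg (X : Module.End F (Fin 2 → E)) (i j : Fin 2) : bl (-X) i j = -bl X i j := by
  rfl

theorem bl_smul (a : F) (X : Module.End F (Fin 2 → E)) (i j : Fin 2) : bl (a • X) i j = a • bl X i j := by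
  rfl

theorem bl_zero (i j : Fin 2) : bl (0 : Module.End F (Fin 2 → E)) i j = 0 := by
  rfl

theorem bl_one (i j : Fin 2) : bl (1 : Module.End F (Fin 2 → E)) i j = if i = j then 1 else 0 := by
  refine LinearMap.ext fun x => ?_
  rw [bl_apply, Module.End.one_apply, Pi.single_apply]
  split_ifs
  · rfl
  · rfl

theorem bl_mul (X Y : Module.End F (Fin 2 → E)) (i j : Fin 2) : bl (X * Y) i j = ∑ k, bl X i k * bl Y k j := by
  refine LinearMap.ext fun x => ?_
  rw [bl_apply, Module.End.mul_apply, LinearMap.sum_apply]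
  have h1 : Y (Pi.single j x) = ∑ k, Pi.single k (Y (Pi.single j x) k) :=
    (Finset.univ_sum_single _).symm
  rw [h1, map_sum, Finset.sum_apply]
  refine Finset.sum_congr rfl fun k _ => ?_
  rw [Module.End.mul_apply, bl_apply, bl_apply]

theorem bl_Bl (i j k l : Fin 2) (Y : Module.End F E) : bl (Bl i j Y) k l = if k = i ∧ l = j then Y else 0 := by
  refine LinearMap.ext fun x => ?_
  rw [bl_apply, Bl_apply, Pi.single_apply, Pi.single_apply]
  by_cases h1 : k = i
  · by_cases h2 : l = j
    · rw [if_pos h1, if_pos h2.symm, if_pos ⟨h1, h2⟩]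
    · rw [if_pos h1, if_neg (fun h => h2 h.symm), if_neg (fun h => h2 h.2), map_zero]
      rfl
  · rw [if_neg h1, if_neg (fun h => h1 h.1)]
    rfl

theorem bl_M2 (a : Fin 2 → E) (i j : Fin 2) : bl (M2 F a) i j = if i = j then M F (a i) else 0 := by
  refine LinearMap.ext fun x => ?_
  rw [bl_apply, M2_apply, Pi.single_apply]
  split_ifs
  · rfl
  · rw [mul_zero]
    rfl

theorem ext_bl {X Y : Module.End F (Fin 2 → E)} (h : ∀ i j, bl X i j = bl Y i j) : X = Y := by
  refine LinearMap.ext fun x => ?_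
  funext i
  have h1 : x = ∑ k, Pi.single k (x k) := (Finset.univ_sum_single _).symm
  rw [h1, map_sum, map_sum, Finset.sum_apply, Finset.sum_apply]
  exact Finset.sum_congr rfl fun k _ => LinearMap.congr_fun (h i k) (x k)

theorem Bl_mul_Bl (i j k l : Fin 2) (Y Z : Module.End F E) :
    Bl i j Y * Bl k l Z = if j = k then Bl i l (Y * Z) else 0 := by
  refine LinearMap.ext fun x => ?_
  rw [Module.End.mul_apply, Bl_apply, Bl_apply, Pi.single_apply]
  by_cases h : j = k
  · rw [if_pos h, if_pos h]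
    rfl
  · rw [if_neg h, if_neg h, map_zero, Pi.single_zero]
    rfl

theorem Bl_add (i j : Fin 2) (Y Z : Module.End F E) : Bl i j (Y + Z) = Bl i j Y + Bl i j Z := by
  refine LinearMap.ext fun x => ?_
  rw [LinearMap.add_apply, Bl_apply, Bl_apply, Bl_apply, LinearMap.add_apply, Pi.single_add]

theorem Bl_neg (i j : Fin 2) (Y : Module.End F E) : Bl i j (-Y) = -Bl i j Y := by
  refine LinearMap.ext fun x => ?_
  rw [LinearMap.neg_apply, Bl_apply, Bl_apply, LinearMap.neg_apply, Pi.single_neg]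

theorem M2_mul (a b : Fin 2 → E) : M2 F (a * b) = M2 F a * M2 F b := by
  refine LinearMap.ext fun x => ?_
  funext i
  rw [Module.End.mul_apply, M2_apply, M2_apply, M2_apply, Pi.mul_apply, mul_assoc]

theorem M2_one : M2 F (1 : Fin 2 → E) = 1 := by
  refine LinearMap.ext fun x => ?_
  funext i
  rw [M2_apply, Pi.one_apply, one_mul]
  rfl

theorem M2_add (a b : Fin 2 → E) : M2 F (a + b) = M2 F a + M2 F b := by
  refine LinearMap.ext fun x => ?_
  funext i
  rw [LinearMap.add_apply, Pi.add_apply, M2_apply, M2_apply, M2_apply, Pi.add_apply, add_mul]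

theorem M2_sub (a b : Fin 2 → E) : M2 F (a - b) = M2 F a - M2 F b := by
  refine LinearMap.ext fun x => ?_
  funext i
  rw [LinearMap.sub_apply, Pi.sub_apply, M2_apply, M2_apply, M2_apply, Pi.sub_apply, sub_mul]

theorem M2_neg (a : Fin 2 → E) : M2 F (-a) = -M2 F a := by
  refine LinearMap.ext fun x => ?_
  funext i
  rw [LinearMap.neg_apply, Pi.neg_apply, M2_apply, M2_apply, Pi.neg_apply, neg_mul]

theorem M2_smul (c : F) (a : Fin 2 → E) : M2 F (c • a) = c • M2 F a := by
  refine LinearMap.ext fun x => ?_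
  funext i
  rw [LinearMap.smul_apply, Pi.smul_apply, M2_apply, M2_apply, Pi.smul_apply, smul_mul_assoc]

theorem M2_zero : M2 F (0 : Fin 2 → E) = 0 := by
  refine LinearMap.ext fun x => ?_
  funext i
  rw [M2_apply, Pi.zero_apply, zero_mul]
  rfl

theorem M2_pow (a : Fin 2 → E) (n : ℕ) : M2 F (a ^ n) = M2 F a ^ n := by
  induction n with
  | zero => rw [pow_zero, pow_zero, M2_one]
  | succ n ih => rw [pow_succ, pow_succ, M2_mul, ih]

theorem M2_inj {a b : Fin 2 → E} (h : M2 F a = M2 F b) : a = b := by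
  have h1 := LinearMap.congr_fun h 1
  funext i
  have h2 := congrFun h1 i
  rw [M2_apply, M2_apply, Pi.one_apply, mul_one, mul_one] at h2
  exact h2

end gen

namespace Da

variable {F E : Type} [Field F] [Field E] [Algebra F E] (D : Da F E) [Finite F] [Finite E]

/-- the coefficients of an endomorphism -/
noncomputable def co2 (X : Module.End F (Fin 2 → E)) (i j : Fin 2) (c : ZMod (2 * D.r)) : E := D.co (bl X i j) c

theorem ext_co2 {X Y : Module.End F (Fin 2 → E)} (h : ∀ i j c, D.co2 X i j c = D.co2 Y i j c) : X = Y := by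
  exact ext_bl fun i j => D.ext_co fun c => h i j c

theorem co2_add (X Y : Module.End F (Fin 2 → E)) (i j : Fin 2) (c : ZMod (2 * D.r)) :
    D.co2 (X + Y) i j c = D.co2 X i j c + D.co2 Y i j c := by
  unfold co2
  rw [bl_add, co_add]

theorem co2_sub (X Y : Module.End F (Fin 2 → E)) (i j : Fin 2) (c : ZMod (2 * D.r)) :
    D.co2 (X - Y) i j c = D.co2 X i j c - D.co2 Y i j c := by
  unfold co2
  rw [bl_sub, co_sub]

private theorem Bk_co_neg (X : Module.End F E) (c : ZMod (2 * D.r)) :
    D.co (-X) c = -D.co X c := by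
  have h := D.co_sub 0 X c
  rw [zero_sub, co_zero, zero_sub] at h
  exact h

theorem co2_neg (X : Module.End F (Fin 2 → E)) (i j : Fin 2) (c : ZMod (2 * D.r)) :
    D.co2 (-X) i j c = -D.co2 X i j c := by
  unfold co2
  rw [bl_neg, Bk_co_neg]

theorem co2_smul (a : F) (X : Module.End F (Fin 2 → E)) (i j : Fin 2) (c : ZMod (2 * D.r)) :
    D.co2 (a • X) i j c = a • D.co2 X i j c := by
  unfold co2
  rw [bl_smul, co_smul]

theorem co2_zero (i j : Fin 2) (c : ZMod (2 * D.r)) : D.co2 (0 : Module.End F (Fin 2 → E)) i j c = 0 := by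
  unfold co2
  rw [bl_zero, co_zero]

theorem co2_sum {ι : Type} (s : Finset ι) (X : ι → Module.End F (Fin 2 → E)) (i j : Fin 2) (c : ZMod (2 * D.r)) :
    D.co2 (∑ k ∈ s, X k) i j c = ∑ k ∈ s, D.co2 (X k) i j c := by
  classical
  induction s using Finset.induction_on with
  | empty => rw [Finset.sum_empty, Finset.sum_empty, co2_zero]
  | insert a s ha ih => rw [Finset.sum_insert ha, Finset.sum_insert ha, co2_add, ih]

theorem co2_M2 (a : Fin 2 → E) (i j : Fin 2) (c : ZMod (2 * D.r)) :
    D.co2 (M2 F a) i j c = if i = j ∧ c = 0 then a i else 0 := by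
  unfold co2
  rw [bl_M2]
  by_cases h : i = j
  · rw [if_pos h, co_M]
    by_cases h2 : c = 0
    · rw [if_pos h2, if_pos ⟨h, h2⟩]
    · rw [if_neg h2, if_neg (fun h' => h2 h'.2)]
  · rw [if_neg h, co_zero, if_neg (fun h' => h h'.1)]

theorem co2_Bl (i j k l : Fin 2) (a : E) (c d : ZMod (2 * D.r)) :
    D.co2 (Bl i j (M F a * D.Fz c)) k l d = if k = i ∧ l = j ∧ d = c then a else 0 := by
  unfold co2
  rw [bl_Bl]
  by_cases h : k = i ∧ l = j
  · rw [if_pos h, co_single]
    by_cases h2 : d = c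
    · rw [if_pos h2, if_pos ⟨h.1, h.2, h2⟩]
    · rw [if_neg h2, if_neg (fun h' => h2 h'.2.2)]
  · rw [if_neg h, co_zero, if_neg (fun h' => h ⟨h'.1, h'.2.1⟩)]

theorem co2_M2_mul (a : Fin 2 → E) (X : Module.End F (Fin 2 → E)) (i j : Fin 2) (c : ZMod (2 * D.r)) :
    D.co2 (M2 F a * X) i j c = a i * D.co2 X i j c := by
  unfold co2
  rw [bl_mul, Finset.sum_eq_single i]
  · rw [bl_M2, if_pos rfl, co_M_mul]
  · intro k _ hk
    rw [bl_M2, if_neg (fun h => hk h.symm), zero_mul]
  · intro h
    exact absurd (Finset.mem_univ i) h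

theorem co2_mul_M2 (a : Fin 2 → E) (X : Module.End F (Fin 2 → E)) (i j : Fin 2) (c : ZMod (2 * D.r)) :
    D.co2 (X * M2 F a) i j c = D.co2 X i j c * D.σ c (a j) := by
  unfold co2
  rw [bl_mul, Finset.sum_eq_single j]
  · rw [bl_M2, if_pos rfl, co_mul_M]
  · intro k _ hk
    rw [bl_M2, if_neg hk, mul_zero]
  · intro h
    exact absurd (Finset.mem_univ j) h

/-- product of two elementary terms -/
theorem Bl_term (i j k l : Fin 2) (a b : E) (c d : ZMod (2 * D.r)) :
    Bl i j (M F a * D.Fz c) * Bl k l (M F b * D.Fz d) =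
      if j = k then Bl i l (M F (a * D.σ c b) * D.Fz (c + d)) else 0 := by
  rw [Bl_mul_Bl]
  by_cases h : j = k
  · rw [if_pos h, if_pos h]
    congr 1
    rw [M_mul, Fz_add, mul_assoc, ← mul_assoc (D.Fz c), Fz_M, mul_assoc, mul_assoc]
  · rw [if_neg h, if_neg h]

end Da

end Pool.Agent.H32.UP
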