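import Pool.Agent.H32.UD.Cls

/-!
# UP.Cls2 : closure of the set of types

PROOF. Let `B ≠ ∅`, `b₀ ∈ B`, `B' = {x | x + b₀ ∈ B}`, `0 ∈ B'`. By `h2` every `x ∈ B'` with `x ≠ 0, n` lies in `A0` and in `A1`; by `h0` and `h1` `A0 ⊆ B'` and `A1 ⊆ B'`, and `a + B' ⊆ B'` for `a ∈ A0`, hence `a + B' = B'` (finite), i.e. `A0 ∪ {0}` is contained in the stabiliser `K = {x | x + B' = B'}`, a subgroup contained in `B'` (`0 ∈ B'`). So `A0 ∪ {0} ⊆ K ⊆ B' ⊆ A0 ∪ {0, n}`.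
`B'` is a subgroup: if `B' = K` clear. Otherwise `n ∈ B'`, `n ∉ K`, `K = A0 ∪ {0}`, `B' = K ∪ {n}` is a union of cosets of `K`, so `K = {0}` and `B' = {0, n}`, a subgroup as `2 n = 0` (concretely: if `k ∈ K`, `k ≠ 0` then `n + k ∈ B'`, `n + k ≠ n`, so `n + k ∈ K` or `= 0 ∈ K`, `n ∈ K`, contradiction). If `B' = ⊤` then `B = univ`. Otherwise `exists_prime` (UD.Cls) gives `p` dividing all `x.val`, `x ∈ B'`;
`A0, A1 ⊆ B'`, and `b - b₀ ∈ B'` for `b ∈ B`.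
-/

set_option autoImplicit false

namespace Pool.Agent.H32.UP

open Pool.Agent.H32.UD

theorem types (n : ℕ) (hn : 2 ≤ n) [NeZero (2 * n)] (A0 A1 B : Set (ZMod (2 * n)))
    (n0 : ∀ a ∈ A0, a ≠ 0 ∧ a ≠ n) (n1 : ∀ a ∈ A1, a ≠ 0 ∧ a ≠ n)
    (h0 : ∀ a ∈ A0, ∀ b ∈ B, a + b ∈ B) (h1 : ∀ a ∈ A1, ∀ b ∈ B, b + a ∈ B)
    (h2 : ∀ b ∈ B, ∀ b' ∈ B, b - b' ≠ 0 → b - b' ≠ n → b - b' ∈ A0 ∧ b - b' ∈ A1) :
    B = ∅ ∨ B = Set.univ ∨ ∃ p : ℕ, p.Prime ∧ p ∣ 2 * n ∧ ∃ b₀ : ZMod (2 * n),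
      (∀ a ∈ A0, p ∣ a.val) ∧ (∀ a ∈ A1, p ∣ a.val) ∧ ∀ b ∈ B, p ∣ (b - b₀).val := by
  rcases Set.eq_empty_or_nonempty B with hB | ⟨b₀, hb₀⟩
  · exact Or.inl hB
  right
  have hnn : (n : ZMod (2 * n)) + n = 0 := by
    have h : (((2 * n : ℕ) : ℕ) : ZMod (2 * n)) = 0 := ZMod.natCast_self _
    rw [← h]
    push_cast
    ring
  have hz : (0 : ZMod (2 * n)) + b₀ ∈ B := by rwa [zero_add]
  have hA0 : ∀ a ∈ A0, a + b₀ ∈ B := fun a ha => h0 a ha b₀ hb₀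
  have hA1 : ∀ a ∈ A1, a + b₀ ∈ B := fun a ha => by
    rw [add_comm]
    exact h1 a ha b₀ hb₀
  have hin : ∀ x : ZMod (2 * n), x + b₀ ∈ B → x ≠ 0 → x ≠ n → x ∈ A0 := by
    intro x hx hx0 hxn
    have h := (h2 (x + b₀) hx b₀ hb₀ (by rwa [add_sub_cancel_right]) (by rwa [add_sub_cancel_right])).1
    rwa [add_sub_cancel_right] at h
  have hadd : ∀ x y : ZMod (2 * n), x + b₀ ∈ B → y + b₀ ∈ B → x + y + b₀ ∈ B := by
    intro x y hx hy
    by_cases hx0 : x = 0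
    · rwa [hx0, zero_add]
    by_cases hy0 : y = 0
    · rwa [hy0, add_zero]
    by_cases hxn : x = n
    · by_cases hyn : y = n
      · rw [hxn, hyn, hnn]
        exact hz
      · have h := h0 y (hin y hy hy0 hyn) (x + b₀) hx
        rwa [← add_assoc, add_comm y x] at h
    · have h := h0 x (hin x hx hx0 hxn) (y + b₀) hy
      rwa [← add_assoc] at h
  let S : AddSubmonoid (ZMod (2 * n)) :=
    { carrier := {x | x + b₀ ∈ B}
      add_mem' := fun {x y} hx hy => hadd x y hx hy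
      zero_mem' := hz }
  have hneg : ∀ x ∈ S, -x ∈ S := by
    intro x hx
    have e : -x = (2 * n - 1) • x := by
      have h3 : (2 * n) • x = 0 := by
        rw [nsmul_eq_mul, ZMod.natCast_self, zero_mul]
      have h4 : (2 * n - 1) • x + x = 0 := by
        rw [← succ_nsmul, show 2 * n - 1 + 1 = 2 * n by omega, h3]
      exact (eq_neg_of_add_eq_zero_left h4).symm
    rw [e]
    exact S.nsmul_mem hx _
  let K : AddSubgroup (ZMod (2 * n)) := { S with neg_mem' := fun {x} hx => hneg x hx }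
  have hK : ∀ x : ZMod (2 * n), x ∈ K ↔ x + b₀ ∈ B := fun x => Iff.rfl
  by_cases htop : K = ⊤
  · left
    rw [Set.eq_univ_iff_forall]
    intro b
    have h : b - b₀ ∈ K := by rw [htop]; trivial
    rw [hK, sub_add_cancel] at h
    exact h
  · right
    obtain ⟨p, hp, hpn, hpK⟩ := exists_prime (2 * n) K htop
    refine ⟨p, hp, hpn, b₀, fun a ha => hpK a ((hK a).2 (hA0 a ha)),
      fun a ha => hpK a ((hK a).2 (hA1 a ha)), fun b hb => hpK _ ((hK _).2 ?_)⟩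
    rwa [sub_add_cancel]

end Pool.Agent.H32.UP
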