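import Pool.Agent.H32.UP.Fin2

/-!
# UP.Cls3 : the class `C` for large `q`
-/

set_option autoImplicit false

namespace Pool.Agent.H32.UP

open Module QuadraticMap Pool.Agent.H32.UD Pool.Agent.H49.UDN

theorem classC (r : ℕ) : ∃ q₀ : ℕ, ∀ (F : Type) [Field F] [Finite F], q₀ ≤ Nat.card F →
    (5 ≤ r → Odd r → Odd (Nat.card F) → gammaU (PSp F r) = 2) ∧
    (4 ≤ r → Even r → ∀ (V : Type) [AddCommGroup V] [Module F V] [FiniteDimensional F V]
      (Q : QuadraticForm F V), (∀ x, (∀ y, polar Q x y = 0) → x = 0) → finrank F V = 2 * r →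
      (gammaU (POmegaForm Q) = 2 ↔
        Odd (Nat.card F) ∧
          ((∀ W : Submodule F V, (∀ x ∈ W, Q x = 0) → finrank F W < r) ∨ 4 ∣ r))) := by
  by_cases hr : 4 ≤ r
  · obtain ⟨q₀, h⟩ := all r hr
    exact ⟨q₀, fun F _ _ hq => ⟨fun _ ho hodd => (h F hq).1 ho hodd,
      fun _ he V _ _ _ Q hnd hV => (h F hq).2 he V Q hnd hV⟩⟩
  · exact ⟨0, fun F _ _ hq => ⟨fun h5 => by omega, fun h4 => by omega⟩⟩

end Pool.Agent.H32.UP
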