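import Pool.Agent.H32.UD.Bas

/-!
# UP.Defs : the two-block model for the orthogonal groups of plus type

`F` a finite field with `q` elements, `q` odd, `E` the extension of degree `2 n` (`n = D.r ≥ 2`), `fr x = x ^ q`, `bar = fr ^ n`, `V = Fin 2 → E`
(dimension `4 n`), `B2 (x, y) = ∑ i, Tr (x i bar (y i))`. This is a symmetric form of plus type. `End_F V` = `2 × 2` matrices over
`End_F E = ⨁ E Fz c`, `c ∈ ZMod (2 n)`. The torus is `{(u, u ^ (4 + 2 q)) | u bar u = 1}`, its Lie algebra `{(e, 4 e + 2 fr e) | bar e = - e}`.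
-/

set_option autoImplicit false

namespace Pool.Agent.H32.UP

open Module Pool.Agent.H32.UD

/-- the data -/
structure Da (F E : Type) [Field F] [Field E] [Algebra F E] where
  /-- half the degree -/
  r : ℕ
  two_le : 2 ≤ r
  fin : finrank F E = 2 * r
  two_ne : (2 : F) ≠ 0

section gen

variable (F : Type) {E : Type} [Field F] [Field E] [Algebra F E]

/-- multiplication by a pair -/
noncomputable def M2 (a : Fin 2 → E) : Module.End F (Fin 2 → E) := LinearMap.mulLeft F a

/-- multiplication by a pair of units -/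
noncomputable def mu2 : (Fin 2 → Eˣ) →* ((Fin 2 → E) ≃ₗ[F] (Fin 2 → E)) where
  toFun u := LinearEquiv.ofLinearMap (M2 F fun i => (u i : E)) (M2 F fun i => (((u i)⁻¹ : Eˣ) : E))
    (by ext i x j; simp [M2]) (by ext i x j; simp [M2])
  map_one' := by ext x i; simp [M2]
  map_mul' u v := by ext x i; simp [M2, mul_assoc]

@[simp] theorem M2_apply (a x : Fin 2 → E) (i : Fin 2) : M2 F a x i = a i * x i := rfl

@[simp] theorem mu2_apply (u : Fin 2 → Eˣ) (x : Fin 2 → E) (i : Fin 2) : mu2 F u x i = u i * x i := rfl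

theorem mu2_coe (u : Fin 2 → Eˣ) :
    (mu2 F u : (Fin 2 → E) →ₗ[F] (Fin 2 → E)) = M2 F fun i => (u i : E) := rfl

variable {F}

/-- the block `(i, j)` of a linear map -/
noncomputable def bl (X : Module.End F (Fin 2 → E)) (i j : Fin 2) : Module.End F E :=
  (LinearMap.proj i : (Fin 2 → E) →ₗ[F] E) ∘ₗ X ∘ₗ LinearMap.single F (fun _ : Fin 2 => E) j

/-- the linear map with the only block `Y` at `(i, j)` -/
noncomputable def Bl (i j : Fin 2) (Y : Module.End F E) : Module.End F (Fin 2 → E) :=
  LinearMap.single F (fun _ : Fin 2 => E) i ∘ₗ Y ∘ₗ (LinearMap.proj j : (Fin 2 → E) →ₗ[F] E)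

theorem bl_apply (X : Module.End F (Fin 2 → E)) (i j : Fin 2) (x : E) : bl X i j x = X (Pi.single j x) i := rfl

theorem Bl_apply (i j : Fin 2) (Y : Module.End F E) (x : Fin 2 → E) : Bl i j Y x = Pi.single i (Y (x j)) := rfl

end gen

namespace Da

variable {F E : Type} [Field F] [Field E] [Algebra F E] (D : Da F E)

instance : NeZero (2 * D.r) := ⟨by have := D.two_le; omega⟩

variable [Finite F] [Finite E]

/-- the power of the Frobenius automorphism -/
noncomputable def σ (c : ZMod (2 * D.r)) : E ≃ₐ[F] E := fr F E ^ c.val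

/-- the power of the Frobenius automorphism as a linear map -/
noncomputable def Fz (c : ZMod (2 * D.r)) : Module.End F E := (D.σ c).toLinearMap

/-- the automorphism of order two -/
noncomputable def bar : E ≃ₐ[F] E := D.σ (D.r : ZMod (2 * D.r))

/-- the form -/
noncomputable def B2 : LinearMap.BilinForm F (Fin 2 → E) :=
  LinearMap.mk₂ F (fun x y => ∑ i, Algebra.trace F E (x i * D.bar (y i)))
    (by
      intro x y z
      rw [← Finset.sum_add_distrib]
      exact Finset.sum_congr rfl fun i _ => by rw [Pi.add_apply, add_mul, map_add])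
    (by
      intro c x y
      rw [Finset.smul_sum]
      exact Finset.sum_congr rfl fun i _ => by rw [Pi.smul_apply, smul_mul_assoc, map_smul])
    (by
      intro x y z
      rw [← Finset.sum_add_distrib]
      exact Finset.sum_congr rfl fun i _ => by rw [Pi.add_apply, map_add, mul_add, map_add])
    (by
      intro c x y
      rw [Finset.smul_sum]
      exact Finset.sum_congr rfl fun i _ => by rw [Pi.smul_apply, map_smul, mul_smul_comm, map_smul])

theorem B2_apply (x y : Fin 2 → E) : D.B2 x y = ∑ i, Algebra.trace F E (x i * D.bar (y i)) := rfl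

/-- the isometry group -/
noncomputable def G2 : Subgroup ((Fin 2 → E) ≃ₗ[F] (Fin 2 → E)) where
  carrier := {g | ∀ x y, D.B2 (g x) (g y) = D.B2 x y}
  mul_mem' := by
    intro a b ha hb x y
    rw [LinearEquiv.mul_apply, LinearEquiv.mul_apply, ha, hb]
  one_mem' := by
    intro x y
    rfl
  inv_mem' := by
    intro a ha x y
    have h := ha (a⁻¹ x) (a⁻¹ y)
    rw [← h, ← LinearEquiv.mul_apply, ← LinearEquiv.mul_apply, mul_inv_cancel]
    rfl

theorem mem_G2 {g : (Fin 2 → E) ≃ₗ[F] (Fin 2 → E)} : g ∈ D.G2 ↔ ∀ x y, D.B2 (g x) (g y) = D.B2 x y := Iff.rfl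

/-- the Lie algebra -/
noncomputable def 𝔤2 : Submodule F (Module.End F (Fin 2 → E)) where
  carrier := {X | ∀ x y, D.B2 (X x) y + D.B2 x (X y) = 0}
  add_mem' := by
    intro a b ha hb x y
    simp only [LinearMap.add_apply, map_add]
    have h1 := ha x y
    have h2 := hb x y
    linear_combination h1 + h2
  zero_mem' := by
    intro x y
    simp
  smul_mem' := by
    intro c a ha x y
    simp only [LinearMap.smul_apply, map_smul, smul_eq_mul]
    have h1 := ha x y
    linear_combination c * h1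

theorem mem_𝔤2 {X : Module.End F (Fin 2 → E)} : X ∈ D.𝔤2 ↔ ∀ x y, D.B2 (X x) y + D.B2 x (X y) = 0 := Iff.rfl

/-- the typical element of the Lie algebra: `a Fz c` in the block `(i, j)` minus the adjoint -/
noncomputable def S2 (i j : Fin 2) (c : ZMod (2 * D.r)) (a : E) : Module.End F (Fin 2 → E) :=
  Bl i j (M F a * D.Fz c) - Bl j i (D.Fz (-c) * M F (D.bar a))

end Da

section tor

variable (F : Type) {E : Type} [Field F] [Finite F] [Field E] [Finite E] [Algebra F E]

/-- the point `(u, u ^ (4 + 2 q))` -/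
noncomputable def ss (u : E) : Fin 2 → E := ![u, u ^ 4 * fr F E u ^ 2]

/-- the same for units -/
noncomputable def su : Eˣ →* (Fin 2 → Eˣ) where
  toFun u := ![u, u ^ 4 * Units.map (fr F E : E →* E) u ^ 2]
  map_one' := by ext i; fin_cases i <;> simp
  map_mul' u v := by
    ext i
    fin_cases i
    · simp
    · simp only [Fin.mk_one, Matrix.cons_val_one, Pi.mul_apply, map_mul]
      push_cast
      ring

/-- the tangent vector `(e, 4 e + 2 fr e)` -/
noncomputable def dl (e : E) : Fin 2 → E := ![e, 4 * e + 2 * fr F E e]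

/-- `g` normalises the algebra of `(1, -1)` -/
def NorJ (g : (Fin 2 → E) ≃ₗ[F] (Fin 2 → E)) : Prop :=
  (g : Module.End F (Fin 2 → E)) * M2 F ![1, -1] = M2 F ![1, -1] * (g : Module.End F (Fin 2 → E)) ∨
  (g : Module.End F (Fin 2 → E)) * M2 F ![1, -1] = -(M2 F ![1, -1] * (g : Module.End F (Fin 2 → E)))

/-- `g` normalises the field of the pairs `(a, fr^j a)`, `a` in the subfield with `q ^ p` elements -/
def NorK (p j : ℕ) (g : (Fin 2 → E) ≃ₗ[F] (Fin 2 → E)) : Prop :=
  ∀ a : E, (fr F E ^ p) a = a → ∃ b : E, (fr F E ^ p) b = b ∧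
    (g : Module.End F (Fin 2 → E)) * M2 F ![a, (fr F E ^ j) a] =
      M2 F ![b, (fr F E ^ j) b] * (g : Module.End F (Fin 2 → E))

end tor

namespace Da

variable {F E : Type} [Field F] [Field E] [Algebra F E] (D : Da F E) [Finite F] [Finite E]

/-- `H` contains the torus elements `ss (u ^ 2)`, `u` of norm one -/
def HasT2 (H : Subgroup ((Fin 2 → E) ≃ₗ[F] (Fin 2 → E))) : Prop :=
  ∀ u : Eˣ, (u : E) * D.bar u = 1 → mu2 F (su F (u ^ 2)) ∈ H

/-- the span of the conjugates of the Lie algebra of the torus -/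
noncomputable def Wsp2 (H : Subgroup ((Fin 2 → E) ≃ₗ[F] (Fin 2 → E))) : Submodule F (Module.End F (Fin 2 → E)) :=
  Submodule.span F {Y | ∃ h ∈ H, ∃ e : E, D.bar e = -e ∧
    Y = (h : Module.End F (Fin 2 → E)) * M2 F (dl F e) *
      ((h⁻¹ : (Fin 2 → E) ≃ₗ[F] (Fin 2 → E)) : Module.End F (Fin 2 → E))}

/-- the normaliser conditions -/
def NN : Set (((Fin 2 → E) ≃ₗ[F] (Fin 2 → E)) → Prop) :=
  {P | P = NorJ F ∨ ∃ p j : ℕ, p.Prime ∧ p ∣ 2 * D.r ∧ P = NorK F p j}

end Da

/-- the dimension of the Lie algebra -/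
def dd (n : ℕ) : ℕ := 2 * n * (4 * n - 1)

end Pool.Agent.H32.UP
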