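import Pool.Agent.H32.UP.LieC2
import Pool.Agent.H32.UP.Cls2

/-!
# UP.DichB : a good subspace is everything or centralised by a nontrivial diagonal element

PROOF. Let `A0 = {c ∈ Ty2 W 0 0 | c ≠ 0, r}`, `A1 = {c ∈ Ty2 W 1 1 | c ≠ 0, r}`, `B = Ty2 W 0 1`; `br0, br1, br2` are the hypotheses of `types` (UP.Cls2, `n = D.r`).
(i) `B = univ`: `Ty2 W 0 1` and `Ty2 W 1 0` (`swap_ty`) are everything, `Ty2 W i i ∋ c` for `c ≠ 0, r` (`br2`: `c = c - 0`), `S2 i i r = 0` (`S2_diag_r`), and `M2 x ∈ W` for all `x` with `bar (x i) = - x i`: `tor_ty` for `b` and `b + r` gives by subtraction `M2 ![0, 2 σ (-b) w] ∈ W` (`σ (-b - r) w = bar (σ (-b) w) = - σ (-b) w`), so all `M2 ![0, y]` (`b = 0`, `w = y / 2`) and then all `M2 ![w, 0]`.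
So `𝔤2 ≤ W` by `decomp2`, `bar_co2_zero` and `2 ≠ 0`.
(ii) `B = ∅`: `z = ![1, -1]` commutes with all `X ∈ W`: `co2 X 0 1 c = 0` (`ty_of`), `co2 X 1 0 c = 0` (`ty_of`, `swap_ty`); compare coefficients (`ext_co2`, `co2_M2_mul`, `co2_mul_M2`). `z ∉ ⊥` (`Algebra.mem_bot`: `z 0 = z 1`, `2 ≠ 0`).
(iii) `p, b₀`: for `a` with `(fr ^ p) a = a` the pair `z = ![a, σ (-b₀) a]` commutes with all `X ∈ W`: `co2 X 0 0 c ≠ 0` implies `c = 0` or `c ∈ A0` (`ty_of`, `co2_r`), `σ c a = a`; `co2 X 0 1 c ≠ 0` implies `p ∣ (c - b₀).val`, `σ c (σ (-b₀) a) = σ (c - b₀) a = a`;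
`co2 X 1 0 c ≠ 0` implies `-c ∈ B`, `σ c a = σ (-b₀) a` (`σ (-c - b₀) a = a`, apply `σ c`); `co2 X 1 1 c ≠ 0`: `c = 0` or `c ∈ A1`, `σ c` fixes `σ (-b₀) a`. (`σ x a = a` if `p ∣ x.val`: `fixC` in UD/Dich.lean.) There is such an `a` with `fr a ≠ a`: otherwise, as `T x = ∑ i ∈ range (2r/p), (fr ^ (p * i)) x` is fixed by `fr ^ p` (`p ∣ 2 r`, `fr_pow`),
`fr (T x) = T x` for all `x`: `∑ i, Fz (p i + 1) = ∑ i, Fz (p i)`, contradiction to uniqueness of coefficients at `0` (`co_sum`; `1` is not a multiple of `p` modulo `2r` since `p ∣ 2 r`, `p > 1`). Then `z ∉ ⊥`: elements of `⊥` have coordinates in `F`, fixed by `fr`.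
-/

set_option autoImplicit false
set_option linter.unusedSectionVars false

namespace Pool.Agent.H32.UP

open Module Pool.Agent.H32.UD

namespace Da

variable {F E : Type} [Field F] [Field E] [Algebra F E] (D : Da F E) [Finite F] [Finite E]

private theorem dichb_sum_co (s : Finset ℕ) (f : ℕ → Module.End F E) (c : ZMod (2 * D.r)) :
    D.co (∑ i ∈ s, f i) c = ∑ i ∈ s, D.co (f i) c := by
  classical
  induction s using Finset.induction_on with
  | empty => rw [Finset.sum_empty, Finset.sum_empty, D.co_zero]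
  | insert a s ha ih => rw [Finset.sum_insert ha, Finset.sum_insert ha, D.co_add, ih]

/-- there are elements in the fixed field of `fr ^ p` outside of `F` -/
theorem exists_sub (p : ℕ) (hp : p.Prime) (hpr : p ∣ 2 * D.r) : ∃ a : E, (fr F E ^ p) a = a ∧ fr F E a ≠ a := by
  by_contra hcon
  push Not at hcon
  obtain ⟨m, hm⟩ := hpr
  have hr := D.two_le
  have hm0 : 0 < m := by
    rcases Nat.eq_zero_or_pos m with h | h
    · rw [h, mul_zero] at hm
      omega
    · exact h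
  have h1 : ∀ x : E, (fr F E ^ p) (∑ i ∈ Finset.range m, (fr F E ^ (p * i)) x) =
      ∑ i ∈ Finset.range m, (fr F E ^ (p * i)) x := by
    intro x
    rw [map_sum]
    have e1 : ∀ i, (fr F E ^ p) ((fr F E ^ (p * i)) x) = (fr F E ^ (p * (i + 1))) x := by
      intro i
      rw [← AlgEquiv.mul_apply, ← pow_add, Nat.mul_succ, add_comm]
    rw [Finset.sum_congr rfl fun i _ => e1 i]
    have e2 := Finset.sum_range_succ (fun i => (fr F E ^ (p * i)) x) m
    have e3 := Finset.sum_range_succ' (fun i => (fr F E ^ (p * i)) x) m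
    rw [e2] at e3
    have e4 : (fr F E ^ (p * m)) x = (fr F E ^ (p * 0)) x := by
      rw [← hm, D.fr_pow, mul_zero, pow_zero]
    rw [e4] at e3
    exact (add_right_cancel e3).symm
  have h2 : ∀ x : E, ∑ i ∈ Finset.range m, (fr F E ^ (p * i + 1)) x =
      ∑ i ∈ Finset.range m, (fr F E ^ (p * i)) x := by
    intro x
    have h3 := hcon _ (h1 x)
    rw [map_sum] at h3
    rw [← h3]
    refine Finset.sum_congr rfl fun i _ => ?_
    rw [pow_succ', AlgEquiv.mul_apply]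
  have h3 : ∑ i ∈ Finset.range m, M F (1 : E) * D.Fz ((p * i + 1 : ℕ) : ZMod (2 * D.r)) =
      ∑ i ∈ Finset.range m, M F (1 : E) * D.Fz ((p * i : ℕ) : ZMod (2 * D.r)) := by
    refine LinearMap.ext fun x => ?_
    rw [LinearMap.sum_apply, LinearMap.sum_apply]
    have e : ∀ n : ℕ, (M F (1 : E) * D.Fz ((n : ℕ) : ZMod (2 * D.r))) x = (fr F E ^ n) x := by
      intro n
      rw [Module.End.mul_apply, M_apply, one_mul, Fz_apply, σ_natCast]
    rw [Finset.sum_congr rfl fun i _ => e (p * i + 1), Finset.sum_congr rfl fun i _ => e (p * i)]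
    exact h2 x
  have h4 := congrArg (fun Z => D.co Z 0) h3
  simp only [dichb_sum_co, co_single] at h4
  have h5 : ∑ i ∈ Finset.range m, (if (0 : ZMod (2 * D.r)) = ((p * i + 1 : ℕ) : ZMod (2 * D.r))
      then (1 : E) else 0) = 0 := by
    refine Finset.sum_eq_zero fun i _ => ?_
    rw [if_neg]
    intro h
    have h6 := (ZMod.natCast_eq_zero_iff (p * i + 1) (2 * D.r)).1 h.symm
    have h7 : p ∣ p * i + 1 := (Dvd.intro m hm.symm).trans h6
    have h8 : p ∣ 1 := (Nat.dvd_add_right (Dvd.intro i rfl)).1 h7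
    exact hp.one_lt.ne' (Nat.dvd_one.1 h8)
  have h6 : ∑ i ∈ Finset.range m, (if (0 : ZMod (2 * D.r)) = ((p * i : ℕ) : ZMod (2 * D.r))
      then (1 : E) else 0) = 1 := by
    rw [Finset.sum_eq_single 0]
    · rw [if_pos (by simp)]
    · intro i hi hi0
      rw [if_neg]
      intro h
      have h7 := (ZMod.natCast_eq_zero_iff (p * i) (2 * D.r)).1 h.symm
      have h8 := Finset.mem_range.1 hi
      have h9 : p * i < 2 * D.r := by
        rw [hm]
        exact Nat.mul_lt_mul_of_pos_left h8 hp.pos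
      have h10 := Nat.eq_zero_of_dvd_of_lt h7 h9
      rcases Nat.mul_eq_zero.1 h10 with h | h
      · exact hp.pos.ne' h
      · exact hi0 h
    · intro h
      exact absurd (Finset.mem_range.2 hm0) h
  rw [h5, h6] at h4
  exact zero_ne_one h4

private theorem dichb_fix {p : ℕ} {a : E} (ha : (fr F E ^ p) a = a) {c : ZMod (2 * D.r)}
    (hc : p ∣ c.val) : D.σ c a = a := by
  obtain ⟨k, hk⟩ := hc
  unfold σ
  rw [hk, pow_mul]
  clear hk
  induction k with
  | zero => simp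
  | succ k ih => rw [pow_succ, AlgEquiv.mul_apply, ha, ih]

include D in
omit [Finite F] [Finite E] in
private theorem dichb_two : (2 : E) ≠ 0 := by
  intro h
  apply D.two_ne
  apply (algebraMap F E).injective
  rw [map_zero, map_ofNat, h]

include D in
omit [Finite F] [Finite E] in
private theorem dichb_half (W : Submodule F (Module.End F (Fin 2 → E)))
    (X : Module.End F (Fin 2 → E)) (h : (2 : F) • X ∈ W) : X ∈ W := by
  have h2 := W.smul_mem (2 : F)⁻¹ h
  rwa [smul_smul, inv_mul_cancel₀ D.two_ne, one_smul] at h2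

variable {D}

private theorem dichb_univ {W : Submodule F (Module.End F (Fin 2 → E))} {u : Eˣ} (h : D.Good2 W u)
    (hB : D.Ty2 W 0 1 = Set.univ) : W = D.𝔤2 := by
  have h01 : ∀ c, c ∈ D.Ty2 W 0 1 := fun c => by rw [hB]; trivial
  have h10 : ∀ c, c ∈ D.Ty2 W 1 0 := fun c => by
    have := h.swap_ty (h01 (-c))
    rwa [neg_neg] at this
  have hd : ∀ c, c ≠ 0 → c ≠ (D.r : ZMod (2 * D.r)) → c ∈ D.Ty2 W 0 0 ∧ c ∈ D.Ty2 W 1 1 := by
    intro c hc hr
    have := h.br2 (h01 c) (h01 0) (by rwa [sub_zero]) (by rwa [sub_zero])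
    rwa [sub_zero] at this
  have hdd : ∀ (i : Fin 2) c, c ≠ 0 → ∀ a, D.S2 i i c a ∈ W := by
    intro i c hc a
    by_cases hr : c = (D.r : ZMod (2 * D.r))
    · rw [hr, D.S2_diag_r]
      exact W.zero_mem
    · fin_cases i
      · exact (hd c hc hr).1 a
      · exact (hd c hc hr).2 a
  have h2E : (2 : E) ≠ 0 := D.dichb_two
  have hh : ∀ y : E, y = y / 2 + y / 2 := by
    intro y
    field_simp
    ring
  have key : ∀ w : E, D.bar w = -w → M2 F ![-w, w] ∈ W ∧ M2 F ![-w, -w] ∈ W := by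
    intro w hw
    have e1 := h.tor_ty (h01 0) w hw
    have e2 := h.tor_ty (h01 (D.r : ZMod (2 * D.r))) w hw
    rw [neg_zero, D.σ_zero_apply] at e1
    rw [D.neg_r, ← D.bar_eq, hw] at e2
    exact ⟨e1, e2⟩
  have half : ∀ w : E, D.bar w = -w → D.bar (w / 2) = -(w / 2) := by
    intro w hw
    rw [map_div₀, hw, map_ofNat, neg_div]
  have hM : ∀ x : Fin 2 → E, (∀ i, D.bar (x i) = -x i) → M2 F x ∈ W := by
    intro x hx
    obtain ⟨a1, a2⟩ := key _ (half _ (hx 0))
    obtain ⟨b1, b2⟩ := key _ (half _ (hx 1))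
    have e : M2 F x = -(M2 F ![-(x 0 / 2), x 0 / 2] + M2 F ![-(x 0 / 2), -(x 0 / 2)]) +
        (M2 F ![-(x 1 / 2), x 1 / 2] - M2 F ![-(x 1 / 2), -(x 1 / 2)]) := by
      rw [← M2_add, ← M2_neg, ← M2_sub, ← M2_add]
      congr 1
      funext i
      fin_cases i
      · simp
        exact hh _
      · simp
        exact hh _
    rw [e]
    exact W.add_mem (W.neg_mem (W.add_mem a1 a2)) (W.sub_mem b1 b2)
  refine le_antisymm h.le fun X hX => ?_
  apply D.dichb_half
  rw [D.decomp2 hX]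
  refine W.add_mem (W.smul_mem _ (hM _ fun i => D.bar_co2_zero hX i)) (W.sum_mem ?_)
  rintro ⟨i, j, c⟩ ht
  have ht' := (Finset.mem_filter.1 ht).2
  simp only at ht' ⊢
  fin_cases i <;> fin_cases j
  · exact hdd 0 c (fun hc => ht' ⟨rfl, hc⟩) _
  · exact h01 c _
  · exact h10 c _
  · exact hdd 1 c (fun hc => ht' ⟨rfl, hc⟩) _

private theorem dichb_empty {W : Submodule F (Module.End F (Fin 2 → E))} {u : Eˣ} (h : D.Good2 W u)
    (hB : D.Ty2 W 0 1 = ∅) : ∃ z : Fin 2 → E, z ∉ (⊥ : Subalgebra F (Fin 2 → E)) ∧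
      ∀ X ∈ W, M2 F z * X = X * M2 F z := by
  have h2E : (2 : E) ≠ 0 := D.dichb_two
  refine ⟨![1, -1], ?_, fun X hX => D.ext_co2 fun i j c => ?_⟩
  · intro hz
    obtain ⟨c, hc⟩ := Algebra.mem_bot.1 hz
    have h0 := congrFun hc 0
    have h1 := congrFun hc 1
    rw [Pi.algebraMap_apply] at h0 h1
    rw [h0] at h1
    simp only [Matrix.cons_val_zero, Matrix.cons_val_one] at h1
    apply h2E
    linear_combination h1
  · have h01 : ∀ c, D.co2 X 0 1 c = 0 := by
      intro c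
      by_contra hne
      have := h.ty_of hX (by simp) hne
      rw [hB] at this
      exact this
    have h10 : ∀ c, D.co2 X 1 0 c = 0 := by
      intro c
      by_contra hne
      have := h.swap_ty (h.ty_of hX (by simp) hne)
      rw [hB] at this
      exact this
    rw [D.co2_M2_mul, D.co2_mul_M2]
    fin_cases i <;> fin_cases j
    · simp
    · simp [h01 c]
    · simp [h10 c]
    · simp

private theorem dichb_prime {W : Submodule F (Module.End F (Fin 2 → E))} {u : Eˣ} (h : D.Good2 W u)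
    (p : ℕ) (hp : p.Prime) (hpr : p ∣ 2 * D.r) (b₀ : ZMod (2 * D.r))
    (hA0 : ∀ c ∈ D.Ty2 W 0 0, c ≠ 0 → c ≠ (D.r : ZMod (2 * D.r)) → p ∣ c.val)
    (hA1 : ∀ c ∈ D.Ty2 W 1 1, c ≠ 0 → c ≠ (D.r : ZMod (2 * D.r)) → p ∣ c.val)
    (hB : ∀ b ∈ D.Ty2 W 0 1, p ∣ (b - b₀).val) :
    ∃ z : Fin 2 → E, z ∉ (⊥ : Subalgebra F (Fin 2 → E)) ∧ ∀ X ∈ W, M2 F z * X = X * M2 F z := by
  obtain ⟨a, ha, hne⟩ := D.exists_sub p hp hpr
  refine ⟨![a, D.σ (-b₀) a], ?_, fun X hX => D.ext_co2 fun i j c => ?_⟩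
  · intro hz
    obtain ⟨c, hc⟩ := Algebra.mem_bot.1 hz
    have h0 := congrFun hc 0
    rw [Pi.algebraMap_apply] at h0
    simp only [Matrix.cons_val_zero] at h0
    apply hne
    rw [← h0, AlgEquiv.commutes]
  · rw [D.co2_M2_mul, D.co2_mul_M2]
    by_cases h0 : D.co2 X i j c = 0
    · rw [h0, mul_zero, zero_mul]
    · fin_cases i <;> fin_cases j
      · show a * D.co2 X 0 0 c = D.co2 X 0 0 c * D.σ c a
        replace h0 : D.co2 X 0 0 c ≠ 0 := h0
        by_cases hc : c = 0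
        · rw [hc, D.σ_zero_apply, mul_comm]
        · have hr : c ≠ (D.r : ZMod (2 * D.r)) := by
            intro hcr
            apply h0
            rw [hcr]
            exact D.co2_r (h.le hX) 0
          have h1 := hA0 c (h.ty_of hX (fun hh => hc hh.2) h0) hc hr
          rw [D.dichb_fix ha h1, mul_comm]
      · show a * D.co2 X 0 1 c = D.co2 X 0 1 c * D.σ c (D.σ (-b₀) a)
        replace h0 : D.co2 X 0 1 c ≠ 0 := h0
        have h1 := hB c (h.ty_of hX (by simp) h0)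
        rw [← D.σ_add_apply, ← sub_eq_add_neg, D.dichb_fix ha h1, mul_comm]
      · show D.σ (-b₀) a * D.co2 X 1 0 c = D.co2 X 1 0 c * D.σ c a
        replace h0 : D.co2 X 1 0 c ≠ 0 := h0
        have h1 := hB (-c) (h.swap_ty (h.ty_of hX (by simp) h0))
        have h2 := D.dichb_fix ha h1
        have h3 : D.σ (-b₀) a = D.σ c a := by
          conv_rhs => rw [← h2, ← D.σ_add_apply]
          congr 1
          congr 1
          ring
        rw [h3, mul_comm]
      · show D.σ (-b₀) a * D.co2 X 1 1 c = D.co2 X 1 1 c * D.σ c (D.σ (-b₀) a)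
        replace h0 : D.co2 X 1 1 c ≠ 0 := h0
        by_cases hc : c = 0
        · rw [hc, D.σ_zero_apply, mul_comm]
        · have hr : c ≠ (D.r : ZMod (2 * D.r)) := by
            intro hcr
            apply h0
            rw [hcr]
            exact D.co2_r (h.le hX) 1
          have h1 := hA1 c (h.ty_of hX (fun hh => hc hh.2) h0) hc hr
          rw [D.σ_comm, D.dichb_fix ha h1, mul_comm]

theorem Good2.tri {W : Submodule F (Module.End F (Fin 2 → E))} {u : Eˣ} (h : D.Good2 W u) :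
    W = D.𝔤2 ∨ ∃ z : Fin 2 → E, z ∉ (⊥ : Subalgebra F (Fin 2 → E)) ∧ ∀ X ∈ W, M2 F z * X = X * M2 F z := by
  rcases types D.r D.two_le {c | c ∈ D.Ty2 W 0 0 ∧ c ≠ 0 ∧ c ≠ (D.r : ZMod (2 * D.r))}
    {c | c ∈ D.Ty2 W 1 1 ∧ c ≠ 0 ∧ c ≠ (D.r : ZMod (2 * D.r))} (D.Ty2 W 0 1)
    (fun a ha => ha.2) (fun a ha => ha.2)
    (fun a ha b hb => h.br0 ha.2.1 ha.2.2 ha.1 hb)
    (fun a ha b hb => h.br1 ha.2.1 ha.2.2 ha.1 hb)
    (fun b hb b' hb' h1 h2 => by
      obtain ⟨h3, h4⟩ := h.br2 hb hb' h1 h2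
      exact ⟨⟨h3, h1, h2⟩, ⟨h4, h1, h2⟩⟩) with hB | hB | ⟨p, hp, hpr, b₀, h0, h1, h2⟩
  · exact Or.inr (dichb_empty h hB)
  · exact Or.inl (dichb_univ h hB)
  · exact Or.inr (dichb_prime h p hp hpr b₀ (fun c hc h3 h4 => h0 c ⟨hc, h3, h4⟩)
      (fun c hc h3 h4 => h1 c ⟨hc, h3, h4⟩) h2)

end Da

end Pool.Agent.H32.UP
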