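import Pool.Agent.H32.UP.Bas2

/-!
# UP.TorC : the centraliser of the Lie algebra of the torus

PROOF. `em_indep`: apply the hypothesis to `e = x - bar x` (`bar e = - e`): `∑ a, y a * σ a x - ∑ a, y a * σ (a + r) x = 0` for all `x`, i.e. `∑ a, M (y a - y (a - r)) * Fz a = 0` (reindex), so all `y a = y (a - r)` (`co_sum`, `co_zero`); put `a + r` for `a` (`two_r`).
`dl_sep`: suppose `dl e i = σ c (dl e j)` for all `e` with `bar e = -e`. Write it as `∑ a, y a * σ a e = 0` and use `em_indep`: `y a = y (a + r)` for all `a`; `r = D.r ≥ 2`, so `0, 1, r, r + 1` are different. (0,0): `y = [0] - [c]` (`c ≠ 0`; `[a]` = the indicator of `a`): `y 0 = 1` and `y r ∈ {0, -1}`: contradiction (`2 ≠ 0`).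
(0,1): `y = [0] - 4 [c] - 2 [c+1]`: the element `y c - y (c + r)` must vanish and `y (c+1) - y (c+1+r)` too: if `c ≠ 0, r` the first is `-4 ≠ 0` (`c ± 1 ≠ c`, and `c + r ≠ c + 1` since `r ≥ 2`); if `c = 0` or `c = r` the second is `-2 ≠ 0`. (1,0): `y = 4 [0] + 2 [1] - [c]`: if `c ≠ 0, r`: `y 0 - y r = 4`; otherwise `y 1 - y (1 + r) = 2` (`c ∈ {0, r}`).
(1,1), `c ≠ 0`: `y = 4 [0] + 2 [1] - 4 [c] - 2 [c+1]`. `d a := y a - y (a + r)` must vanish for all `a`. If `c = r`: `d 1 = 2 + 2 = 4` (`r + 1 ≠ 1`, ..). If `c ≠ 0, r`: `d 0 = 4 - 2 ([c+1 = 0] - [c + 1 = r])`; if `c + 1 ≠ 0, r` this is `4 ≠ 0`. If `c + 1 = r`: `d 0 = 6`, `d 1 = 2 - 4 [c = 1] + ..`: `c = r - 1`; if `r > 2` then `c ≠ 1` and `d 1 = 2 ≠ 0`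
(also `c ≠ 1 + r`); if `r = 2`, `c = 1`, `d 1 = 2 - 4 = -2 ≠ 0`. If `c + 1 = 0`: `c = -1`: `d 0 = 2 ≠ 0`. `comm_dl`: the coefficient of the commutator at `(i, j, c)` is `(dl e i - σ c (dl e j)) * co2 X i j c` (`co2_M2_mul`, `co2_mul_M2`), so `co2 X i j c = 0` unless `i = j`, `c = 0`; `z i = co2 X i i 0` (`ext_co2`, `co2_M2`).
-/

set_option autoImplicit false
set_option linter.unusedSectionVars false

namespace Pool.Agent.H32.UP

open Module Pool.Agent.H32.UD

namespace Da

variable {F E : Type} [Field F] [Field E] [Algebra F E] (D : Da F E) [Finite F] [Finite E]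

theorem em_indep (y : ZMod (2 * D.r) → E) (h : ∀ e : E, D.bar e = -e → ∑ a, y a * D.σ a e = 0)
    (a : ZMod (2 * D.r)) : y a = y (a + (D.r : ZMod (2 * D.r))) := by
  have hD := D.two_r
  have key : ∀ x : E, ∑ a, (y a - y (a + (D.r : ZMod (2 * D.r)))) * D.σ a x = 0 := by
    intro x
    have h1 := h (x - D.bar x) (by rw [map_sub, D.bar_bar]; ring)
    have h2 : ∀ a, y a * D.σ a (x - D.bar x) =
        y a * D.σ a x - y a * D.σ (a + (D.r : ZMod (2 * D.r))) x := by
      intro a
      rw [map_sub, D.bar_eq, ← D.σ_add_apply, mul_sub]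
    rw [Finset.sum_congr rfl fun a _ => h2 a, Finset.sum_sub_distrib] at h1
    have h3 : ∑ a, y a * D.σ (a + (D.r : ZMod (2 * D.r))) x =
        ∑ a, y (a + (D.r : ZMod (2 * D.r))) * D.σ a x := by
      rw [← Equiv.sum_comp (Equiv.addRight (D.r : ZMod (2 * D.r)))
        (fun a => y (a + (D.r : ZMod (2 * D.r))) * D.σ a x)]
      refine Finset.sum_congr rfl fun a _ => ?_
      show _ = y (a + (D.r : ZMod (2 * D.r)) + (D.r : ZMod (2 * D.r))) * _
      rw [add_assoc, hD, add_zero]
      rfl
    rw [h3, ← Finset.sum_sub_distrib] at h1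
    rw [← h1]
    exact Finset.sum_congr rfl fun a _ => by rw [sub_mul]
  have h4 : ∑ a, M F (y a - y (a + (D.r : ZMod (2 * D.r)))) * D.Fz a = 0 := by
    ext x
    rw [LinearMap.sum_apply, LinearMap.zero_apply]
    exact key x
  have h5 := D.co_sum (fun a => y a - y (a + (D.r : ZMod (2 * D.r)))) a
  rw [h4, D.co_zero] at h5
  exact (sub_eq_zero.1 h5.symm)

private theorem dl_aux (p0 p1 q0 q1 : E) (c : ZMod (2 * D.r))
    (h : ∀ e : E, D.bar e = -e → p0 * e + p1 * fr F E e = q0 * D.σ c e + q1 * D.σ (c + 1) e)
    (a b : ZMod (2 * D.r)) (hb : b = a + (D.r : ZMod (2 * D.r))) :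
    (if a = 0 then p0 else 0) + (if a = 1 then p1 else 0) - (if a = c then q0 else 0) -
      (if a = c + 1 then q1 else 0) = (if b = 0 then p0 else 0) + (if b = 1 then p1 else 0) -
      (if b = c then q0 else 0) - (if b = c + 1 then q1 else 0) := by
  subst hb
  refine D.em_indep (fun a => (if a = 0 then p0 else 0) + (if a = 1 then p1 else 0) -
    (if a = c then q0 else 0) - (if a = c + 1 then q1 else 0)) ?_ a
  intro e he
  simp only [sub_mul, add_mul, ite_mul, zero_mul, Finset.sum_sub_distrib, Finset.sum_add_distrib,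
    Finset.sum_ite_eq', Finset.mem_univ, if_true]
  rw [D.σ_zero_apply, D.σ_one, h e he]
  ring

theorem dl_sep (i j : Fin 2) (c : ZMod (2 * D.r)) (hc : ¬ (i = j ∧ c = 0)) :
    ∃ e : E, D.bar e = -e ∧ dl F e i ≠ D.σ c (dl F e j) := by
  by_contra hno
  have hno2 : ∀ e : E, D.bar e = -e → dl F e i = D.σ c (dl F e j) := by
    intro e he
    by_contra hne
    exact hno ⟨e, he, hne⟩
  have hr := D.two_le
  have h2E : (2 : E) ≠ 0 := by
    intro h0
    apply D.two_ne
    apply (algebraMap F E).injective
    rw [map_ofNat, h0, map_zero]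
  have h4E : (4 : E) ≠ 0 := by
    have := mul_ne_zero h2E h2E
    intro h0
    apply this
    rw [← h0]
    norm_num
  have hnat : ∀ n : ℕ, 0 < n → n < 2 * D.r → (n : ZMod (2 * D.r)) ≠ 0 := by
    intro n h0 h1 h2
    rw [ZMod.natCast_eq_zero_iff] at h2
    exact absurd (Nat.le_of_dvd h0 h2) (by omega)
  set R : ZMod (2 * D.r) := (D.r : ZMod (2 * D.r)) with hRdef
  have hRR : R + R = 0 := D.two_r
  have hR0 : R ≠ 0 := hnat _ (by omega) (by omega)
  have h10 : (1 : ZMod (2 * D.r)) ≠ 0 := by
    have := hnat 1 (by omega) (by omega)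
    rwa [Nat.cast_one] at this
  have hR1 : R ≠ 1 := by
    intro h0
    have := hnat (D.r - 1) (by omega) (by omega)
    apply this
    rw [Nat.cast_sub (by omega), Nat.cast_one, ← hRdef, h0, sub_self]
  have h1R : 1 + R ≠ 0 := by
    have := hnat (1 + D.r) (by omega) (by omega)
    rwa [Nat.cast_add, Nat.cast_one] at this
  have h11 : (1 : ZMod (2 * D.r)) + 1 ≠ 0 := by
    have := hnat (1 + 1) (by omega) (by omega)
    rwa [Nat.cast_add, Nat.cast_one] at this
  have hfr : ∀ e : E, D.σ c (fr F E e) = D.σ (c + 1) e := by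
    intro e
    rw [D.σ_add_apply, D.σ_one]
  fin_cases i <;> fin_cases j
  · -- (0, 0)
    have hc0 : c ≠ 0 := fun h => hc ⟨rfl, h⟩
    have h := D.dl_aux (1 : E) 0 1 0 c (fun e he => by
      have := hno2 e he
      simp only [dl, Fin.zero_eta, Matrix.cons_val_zero] at this
      rw [one_mul, one_mul, zero_mul, zero_mul, add_zero, add_zero]
      exact this) 0 R (by rw [zero_add])
    simp only [if_true, ite_self, hR0, if_false, hc0.symm, sub_zero, add_zero, zero_sub] at h
    by_cases h1 : R = c
    · rw [if_pos h1] at h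
      apply h2E
      linear_combination h
    · rw [if_neg h1] at h
      exact one_ne_zero (h.trans neg_zero)
  · -- (0, 1)
    have hh := D.dl_aux (1 : E) 0 4 2 c (fun e he => by
      have := hno2 e he
      simp only [dl, Fin.zero_eta, Fin.mk_one, Matrix.cons_val_zero, Matrix.cons_val_one, map_add,
        map_mul, map_ofNat, hfr] at this
      rw [one_mul, zero_mul, add_zero]
      exact this)
    by_cases h0 : c = 0 ∨ c = R
    · have h := hh (c + 1) (c + 1 + R) rfl
      have e1 : c + 1 ≠ 0 := by
        rcases h0 with h0 | h0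
        · rw [h0, zero_add]
          exact h10
        · rw [h0, add_comm]
          exact h1R
      have e2 : c + 1 ≠ c := by
        intro h3
        exact h10 (add_eq_left.1 h3)
      have e3 : c + 1 + R ≠ 0 := by
        rcases h0 with h0 | h0
        · rw [h0, zero_add]
          exact h1R
        · rw [h0]
          intro h3
          apply h10
          linear_combination h3 - hRR
      have e4 : c + 1 + R ≠ c := by
        intro h3
        apply h1R
        linear_combination h3
      have e5 : c + 1 + R ≠ c + 1 := by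
        intro h3
        exact hR0 (add_eq_left.1 h3)
      simp only [if_neg e1, if_neg e2, if_neg e3, if_neg e4, if_neg e5, ite_self, if_true] at h
      apply h2E
      linear_combination -h
    · rw [not_or] at h0
      have h := hh c (c + R) rfl
      have e1 : c ≠ c + 1 := by
        intro h3
        exact h10 (left_eq_add.1 h3)
      have e2 : c + R ≠ 0 := by
        intro h3
        apply h0.2
        linear_combination h3 - hRR
      have e3 : c + R ≠ c := by
        intro h3
        exact hR0 (add_eq_left.1 h3)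
      have e4 : c + R ≠ c + 1 := by
        intro h3
        exact hR1 (add_left_cancel h3)
      simp only [if_neg e1, if_neg e2, if_neg e3, if_neg e4, if_neg h0.1, ite_self, if_true] at h
      apply h4E
      linear_combination -h
  · -- (1, 0)
    have hh := D.dl_aux (4 : E) 2 1 0 c (fun e he => by
      have := hno2 e he
      simp only [dl, Fin.zero_eta, Fin.mk_one, Matrix.cons_val_zero, Matrix.cons_val_one] at this
      rw [one_mul, zero_mul, add_zero]
      exact this)
    by_cases h0 : c = 0 ∨ c = R
    · have h := hh 1 (1 + R) rfl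
      have e1 : (1 : ZMod (2 * D.r)) ≠ c := by
        rcases h0 with h0 | h0
        · rw [h0]
          exact h10
        · rw [h0]
          exact hR1.symm
      have e2 : 1 + R ≠ 1 := by
        intro h3
        exact hR0 (add_eq_left.1 h3)
      have e3 : 1 + R ≠ c := by
        rcases h0 with h0 | h0
        · rw [h0]
          exact h1R
        · rw [h0]
          intro h3
          exact h10 (add_eq_right.1 h3)
      simp only [if_neg e1, if_neg e2, if_neg e3, if_neg h10, if_neg h1R, ite_self, if_true] at h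
      apply h2E
      linear_combination h
    · rw [not_or] at h0
      have h := hh 0 R (by rw [zero_add])
      simp only [if_neg hR0, if_neg hR1, if_neg h10.symm, if_neg (Ne.symm h0.1), if_neg (Ne.symm h0.2),
        ite_self, if_true] at h
      apply h4E
      linear_combination h
  · -- (1, 1)
    have hc0 : c ≠ 0 := fun h => hc ⟨rfl, h⟩
    have hh := D.dl_aux (4 : E) 2 4 2 c (fun e he => by
      have := hno2 e he
      simp only [dl, Fin.mk_one, Matrix.cons_val_one, Matrix.cons_val_zero, map_add, map_mul, map_ofNat,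
        hfr] at this
      exact this)
    have e2 : 1 + R ≠ 1 := by
      intro h3
      exact hR0 (add_eq_left.1 h3)
    by_cases hcR : c = R
    · have h := hh 1 (1 + R) rfl
      have e1 : (1 : ZMod (2 * D.r)) ≠ R := hR1.symm
      have e3 : (1 : ZMod (2 * D.r)) ≠ R + 1 := by
        intro h3
        exact hR0 (right_eq_add.1 h3)
      have e4 : 1 + R ≠ R := by
        intro h3
        exact h10 (add_eq_right.1 h3)
      rw [hcR] at h
      simp only [if_neg h10, if_neg e1, if_neg e2, if_neg e3, if_neg e4, if_neg h1R, if_true,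
        if_pos (add_comm 1 R)] at h
      apply h4E
      linear_combination h
    · by_cases h1 : c + 1 = R
      · have h := hh 1 (1 + R) rfl
        have e3 : (1 : ZMod (2 * D.r)) ≠ c + 1 := by
          rw [h1]
          exact hR1.symm
        have e4 : 1 + R ≠ c := by
          intro h3
          apply h11
          linear_combination h3 + h1
        have e5 : 1 + R ≠ c + 1 := by
          rw [h1]
          intro h3
          exact h10 (add_eq_right.1 h3)
        simp only [if_neg h10, if_neg e2, if_neg e3, if_neg e4, if_neg e5, if_neg h1R, if_true] at h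
        by_cases h5 : 1 = c
        · rw [if_pos h5] at h
          apply h2E
          linear_combination -h
        · rw [if_neg h5] at h
          apply h2E
          linear_combination h
      · have h := hh 0 R (by rw [zero_add])
        simp only [if_neg hR0, if_neg hR1, if_neg h10.symm, if_neg hc0.symm, if_neg (Ne.symm hcR),
          if_neg (Ne.symm h1), if_true] at h
        by_cases h5 : 0 = c + 1
        · rw [if_pos h5] at h
          apply h2E
          linear_combination h
        · rw [if_neg h5] at h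
          apply h4E
          linear_combination h

theorem comm_dl (X : Module.End F (Fin 2 → E))
    (hX : ∀ e : E, D.bar e = -e → X * M2 F (dl F e) = M2 F (dl F e) * X) : ∃ z : Fin 2 → E, X = M2 F z := by
  refine ⟨fun i => D.co2 X i i 0, D.ext_co2 fun i j c => ?_⟩
  rw [D.co2_M2]
  by_cases h : i = j ∧ c = 0
  · rw [if_pos h, ← h.1, h.2]
  · rw [if_neg h]
    obtain ⟨e, he, hne⟩ := D.dl_sep i j c h
    have h1 := congrArg (fun Y => D.co2 Y i j c) (hX e he)
    simp only [D.co2_mul_M2, D.co2_M2_mul] at h1
    have h2 : D.co2 X i j c * (D.σ c (dl F e j) - dl F e i) = 0 := by linear_combination h1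
    rcases mul_eq_zero.1 h2 with h3 | h3
    · exact h3
    · exact absurd (sub_eq_zero.1 h3).symm hne

end Da

end Pool.Agent.H32.UP
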