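import Pool.Agent.H32.UP.DichA
import Pool.Agent.H32.UP.DichB
import Pool.Agent.H32.UP.TorC
import Pool.Agent.H32.UP.Alg

/-!
# UP.Dich2 : the dichotomy

PROOF. `W = Wsp2 H`, `good_wsp` gives `Good2 W u`; by `Good2.tri` either `W = 𝔤2` or there is `z ∉ ⊥` such that `M2 z` commutes with all elements of `W`. In the second case let `A` = the subalgebra of all `z` such that `M2 z` commutes with all elements of `W` (`M2_mul`, `M2_add`, `M2_smul`, `M2_one`, ..; `algebraMap c = c • 1`); `A ≠ ⊥`.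
For `h ∈ H`, `z ∈ A`: `X = h M2 z h⁻¹` commutes with `W` (`h⁻¹ Y h ∈ W` for `Y ∈ W`, `wsp_stable`), in particular with `M2 (dl e)`, `bar e = - e` (`Good2.tor`), so `X = M2 w` (`comm_dl`) and `w ∈ A`, `h M2 z = M2 w h`: `NorA A h`. By `alg_class` all `h ∈ H` satisfy `NorJ` or all satisfy `NorK p j`, which are elements of `D.NN`.
-/

set_option autoImplicit false
set_option linter.unusedSectionVars false

namespace Pool.Agent.H32.UP

open Module Pool.Agent.H32.UD

namespace Da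

variable {F E : Type} [Field F] [Field E] [Algebra F E] (D : Da F E) [Finite F] [Finite E]

omit [Finite F] [Finite E] in
private theorem dich2_mul_inv (h : (Fin 2 → E) ≃ₗ[F] (Fin 2 → E)) :
    (h : Module.End F (Fin 2 → E)) *
      ((h⁻¹ : (Fin 2 → E) ≃ₗ[F] (Fin 2 → E)) : Module.End F (Fin 2 → E)) = 1 := by
  have h1 : ((h * h⁻¹ : (Fin 2 → E) ≃ₗ[F] (Fin 2 → E)) : Module.End F (Fin 2 → E)) =
      (h : Module.End F (Fin 2 → E)) *
      ((h⁻¹ : (Fin 2 → E) ≃ₗ[F] (Fin 2 → E)) : Module.End F (Fin 2 → E)) := rfl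
  rw [← h1, mul_inv_cancel]
  rfl

omit [Finite F] [Finite E] in
private theorem dich2_inv_mul (h : (Fin 2 → E) ≃ₗ[F] (Fin 2 → E)) :
    ((h⁻¹ : (Fin 2 → E) ≃ₗ[F] (Fin 2 → E)) : Module.End F (Fin 2 → E)) *
      (h : Module.End F (Fin 2 → E)) = 1 := by
  have h1 : ((h⁻¹ * h : (Fin 2 → E) ≃ₗ[F] (Fin 2 → E)) : Module.End F (Fin 2 → E)) =
      ((h⁻¹ : (Fin 2 → E) ≃ₗ[F] (Fin 2 → E)) : Module.End F (Fin 2 → E)) *
      (h : Module.End F (Fin 2 → E)) := rfl
  rw [← h1, inv_mul_cancel]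
  rfl

/-- the subalgebra of the pairs which commute with `W` -/
private noncomputable def dich2_A (W : Submodule F (Module.End F (Fin 2 → E))) :
    Subalgebra F (Fin 2 → E) where
  carrier := {z | ∀ X ∈ W, M2 F z * X = X * M2 F z}
  mul_mem' := by
    intro a b ha hb X hX
    rw [M2_mul, mul_assoc, hb X hX, ← mul_assoc, ha X hX, mul_assoc]
  add_mem' := by
    intro a b ha hb X hX
    rw [M2_add, add_mul, mul_add, ha X hX, hb X hX]
  algebraMap_mem' := by
    intro c X hX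
    rw [Algebra.algebraMap_eq_smul_one, M2_smul, M2_one, smul_one_mul, mul_smul_one]

theorem dichotomy2 (hq : 48 ≤ Nat.card F) (H : Subgroup ((Fin 2 → E) ≃ₗ[F] (Fin 2 → E))) (hH : H ≤ D.G2)
    (hT : D.HasT2 H) : D.Wsp2 H = D.𝔤2 ∨ ∃ P ∈ D.NN, ∀ h ∈ H, P h := by
  obtain ⟨u, hu⟩ := D.good_wsp hq H hH hT
  rcases hu.tri with h | ⟨z, hz, hzW⟩
  · exact Or.inl h
  · right
    have hA : dich2_A (D.Wsp2 H) ≠ ⊥ := by
      intro h0
      apply hz
      rw [← h0]
      exact hzW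
    have hN : ∀ h ∈ H, NorA (dich2_A (D.Wsp2 H)) h := by
      intro h hh z hz
      have hcom : ∀ Y ∈ D.Wsp2 H, ((h : Module.End F (Fin 2 → E)) * M2 F z *
          ((h⁻¹ : (Fin 2 → E) ≃ₗ[F] (Fin 2 → E)) : Module.End F (Fin 2 → E))) * Y =
          Y * ((h : Module.End F (Fin 2 → E)) * M2 F z *
          ((h⁻¹ : (Fin 2 → E) ≃ₗ[F] (Fin 2 → E)) : Module.End F (Fin 2 → E))) := by
        intro Y hY
        have h1 := D.wsp_stable H (H.inv_mem hh) hY
        rw [inv_inv] at h1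
        have h2 := hz _ h1
        have e1 := dich2_mul_inv h
        generalize (h : Module.End F (Fin 2 → E)) = a at *
        generalize ((h⁻¹ : (Fin 2 → E) ≃ₗ[F] (Fin 2 → E)) : Module.End F (Fin 2 → E)) = b at *
        calc a * M2 F z * b * Y = a * (M2 F z * (b * Y * a)) * b := by
              have : Y = Y * (a * b) := by rw [e1, mul_one]
              nth_rewrite 1 [this]
              simp only [mul_assoc]
          _ = a * (b * Y * a * M2 F z) * b := by rw [h2]
          _ = (a * b) * Y * (a * M2 F z * b) := by simp only [mul_assoc]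
          _ = _ := by rw [e1, one_mul]
      obtain ⟨w, hw⟩ := D.comm_dl _ (fun e he => hcom _ (hu.tor e he))
      refine ⟨w, ?_, ?_⟩
      · intro Y hY
        rw [← hw]
        exact hcom Y hY
      · rw [← hw, mul_assoc, dich2_inv_mul, mul_one]
    rcases D.alg_class (dich2_A (D.Wsp2 H)) hA with h | ⟨p, j, hp, hpr, h⟩
    · exact ⟨NorJ F, Or.inl rfl, fun g hg => h g (hN g hg)⟩
    · exact ⟨NorK F p j, Or.inr ⟨p, j, hp, hpr, rfl⟩, fun g hg => h g (hN g hg)⟩

end Da

end Pool.Agent.H32.UP
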