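import Pool.Agent.H32.UP.LieC2

/-!
# UP.DichA : the span of the conjugates of the Lie algebra of the torus satisfies `Good2`

PROOF. Scheme of the first half of UD/Dich.lean (helper lemmas `dich_coe_mul`, `dich_mul_inv`, `dich_inv_mul`, `dich_stable`, `dich_tor`, `dich_half`, `dich_lieM`, `dich_lie`, `dich_good` can be adapted; `W = Wsp2 H`). `wsp_stable`: `Ad h` permutes the generators. `good_wsp`: `u = θ ^ 2`, `θ` from `exists_sep2`; `ad`: `mu2 (su u) ∈ H` (`hT θ`), `mu2_coe`, `map_inv`;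
`tor`: `h = 1`; `lie`: for a generator `Y = h M2 (dl e) h⁻¹` and `X ∈ W`, `[Y, X] = h [M2 (dl e), h⁻¹ X h] h⁻¹`, so it is enough that `Z = [M2 (dl e), X] ∈ W` for `X ∈ W`, `bar e = - e`. `Z ∈ 𝔤2` (`bracket_mem2`, `M2_mem_𝔤2`, `dl_bar`) has coefficients `(dl e i - σ c (dl e j)) * co2 X i j c` (`co2_M2_mul`, `co2_mul_M2`), in particular `0` at `(i, i, 0)`, so by `decomp2`
`2 Z` is a sum of elements `S2 i j c (e' * co2 X i j c) ∈ W` (`grade2`). Then `Submodule.span_induction`.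
-/

set_option autoImplicit false
set_option linter.unusedSectionVars false

namespace Pool.Agent.H32.UP

open Module Pool.Agent.H32.UD

namespace Da

variable {F E : Type} [Field F] [Field E] [Algebra F E] (D : Da F E) [Finite F] [Finite E]

omit [Finite F] [Finite E] in
private theorem dichA_coe_mul (g h : (Fin 2 → E) ≃ₗ[F] (Fin 2 → E)) :
    ((g * h : (Fin 2 → E) ≃ₗ[F] (Fin 2 → E)) : Module.End F (Fin 2 → E)) =
      (g : Module.End F (Fin 2 → E)) * (h : Module.End F (Fin 2 → E)) := rfl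

omit [Finite F] [Finite E] in
private theorem dichA_mul_inv (h : (Fin 2 → E) ≃ₗ[F] (Fin 2 → E)) :
    (h : Module.End F (Fin 2 → E)) *
      ((h⁻¹ : (Fin 2 → E) ≃ₗ[F] (Fin 2 → E)) : Module.End F (Fin 2 → E)) = 1 := by
  rw [← dichA_coe_mul, mul_inv_cancel]
  rfl

theorem wsp_stable (H : Subgroup ((Fin 2 → E) ≃ₗ[F] (Fin 2 → E))) {h : (Fin 2 → E) ≃ₗ[F] (Fin 2 → E)}
    (hh : h ∈ H) {X : Module.End F (Fin 2 → E)} (hX : X ∈ D.Wsp2 H) :
    (h : Module.End F (Fin 2 → E)) * X * ((h⁻¹ : (Fin 2 → E) ≃ₗ[F] (Fin 2 → E)) : Module.End F (Fin 2 → E)) ∈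
      D.Wsp2 H := by
  unfold Wsp2 at hX ⊢
  induction hX using Submodule.span_induction with
  | mem Y hY =>
    obtain ⟨g, hg, e, he, rfl⟩ := hY
    refine Submodule.subset_span ⟨h * g, H.mul_mem hh hg, e, he, ?_⟩
    rw [dichA_coe_mul, mul_inv_rev, dichA_coe_mul]
    simp only [mul_assoc]
  | zero => simp
  | add Y Z _ _ ihY ihZ =>
    rw [mul_add, add_mul]
    exact Submodule.add_mem _ ihY ihZ
  | smul a Y _ ih =>
    rw [mul_smul_comm, smul_mul_assoc]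
    exact Submodule.smul_mem _ _ ih

private theorem dichA_stable' (H : Subgroup ((Fin 2 → E) ≃ₗ[F] (Fin 2 → E)))
    {h : (Fin 2 → E) ≃ₗ[F] (Fin 2 → E)} (hh : h ∈ H) {X : Module.End F (Fin 2 → E)} (hX : X ∈ D.Wsp2 H) :
    ((h⁻¹ : (Fin 2 → E) ≃ₗ[F] (Fin 2 → E)) : Module.End F (Fin 2 → E)) * X *
      (h : Module.End F (Fin 2 → E)) ∈ D.Wsp2 H := by
  have := D.wsp_stable H (H.inv_mem hh) hX
  rwa [inv_inv] at this

private theorem dichA_tor (H : Subgroup ((Fin 2 → E) ≃ₗ[F] (Fin 2 → E))) (e : E) (he : D.bar e = -e) :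
    M2 F (dl F e) ∈ D.Wsp2 H := by
  unfold Wsp2
  refine Submodule.subset_span ⟨1, H.one_mem, e, he, ?_⟩
  rw [inv_one]
  rfl

private theorem dichA_lieM (H : Subgroup ((Fin 2 → E) ≃ₗ[F] (Fin 2 → E))) (hH : H ≤ D.G2) (u : Eˣ)
    (hu : (u : E) * D.bar u = 1) (hs : D.Sep2 (u : E))
    (had : ∀ X ∈ D.Wsp2 H, M2 F (fun i => ((su F u i : Eˣ) : E)) * X *
      M2 F (fun i => (((su F u i)⁻¹ : Eˣ) : E)) ∈ D.Wsp2 H)
    (e : E) (he : D.bar e = -e) {X : Module.End F (Fin 2 → E)} (hX : X ∈ D.Wsp2 H) :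
    M2 F (dl F e) * X - X * M2 F (dl F e) ∈ D.Wsp2 H := by
  have hXg := D.Wsp2_le H hH hX
  have hZ := D.bracket_mem2 (D.M2_mem_𝔤2 (fun i => D.dl_bar he i)) hXg
  have hco : ∀ i j c, D.co2 (M2 F (dl F e) * X - X * M2 F (dl F e)) i j c =
      (dl F e i - D.σ c (dl F e j)) * D.co2 X i j c := by
    intro i j c
    rw [co2_sub, co2_M2_mul, co2_mul_M2]
    ring
  have h0 : (fun i => D.co2 (M2 F (dl F e) * X - X * M2 F (dl F e)) i i 0) = (0 : Fin 2 → E) := by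
    funext i
    rw [hco, σ_zero_apply, sub_self, zero_mul]
    rfl
  have h2 : (2 : F) • (M2 F (dl F e) * X - X * M2 F (dl F e)) ∈ D.Wsp2 H := by
    rw [D.decomp2 hZ, h0, M2_zero, smul_zero, zero_add]
    refine Submodule.sum_mem _ fun t ht => ?_
    rw [hco]
    exact D.grade2 u hu hs (D.Wsp2 H) had X hX hXg t.1 t.2.1 t.2.2 (Finset.mem_filter.1 ht).2 _
  have h3 := (D.Wsp2 H).smul_mem (2 : F)⁻¹ h2
  rwa [smul_smul, inv_mul_cancel₀ D.two_ne, one_smul] at h3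

private theorem dichA_lie (H : Subgroup ((Fin 2 → E) ≃ₗ[F] (Fin 2 → E))) (hH : H ≤ D.G2) (u : Eˣ)
    (hu : (u : E) * D.bar u = 1) (hs : D.Sep2 (u : E))
    (had : ∀ X ∈ D.Wsp2 H, M2 F (fun i => ((su F u i : Eˣ) : E)) * X *
      M2 F (fun i => (((su F u i)⁻¹ : Eˣ) : E)) ∈ D.Wsp2 H)
    {Y X : Module.End F (Fin 2 → E)} (hY : Y ∈ D.Wsp2 H) (hX : X ∈ D.Wsp2 H) :
    Y * X - X * Y ∈ D.Wsp2 H := by
  unfold Wsp2 at hY
  induction hY using Submodule.span_induction with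
  | mem Y hY =>
    obtain ⟨h, hh, e, he, rfl⟩ := hY
    have h1 := D.dichA_lieM H hH u hu hs had e he (D.dichA_stable' H hh hX)
    have h2 := D.wsp_stable H hh h1
    have h3 : (h : Module.End F (Fin 2 → E)) * (M2 F (dl F e) *
        (((h⁻¹ : (Fin 2 → E) ≃ₗ[F] (Fin 2 → E)) : Module.End F (Fin 2 → E)) * X *
        (h : Module.End F (Fin 2 → E))) -
        ((h⁻¹ : (Fin 2 → E) ≃ₗ[F] (Fin 2 → E)) : Module.End F (Fin 2 → E)) * X *
        (h : Module.End F (Fin 2 → E)) * M2 F (dl F e)) *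
        ((h⁻¹ : (Fin 2 → E) ≃ₗ[F] (Fin 2 → E)) : Module.End F (Fin 2 → E)) =
        (h : Module.End F (Fin 2 → E)) * M2 F (dl F e) *
          ((h⁻¹ : (Fin 2 → E) ≃ₗ[F] (Fin 2 → E)) : Module.End F (Fin 2 → E)) * X *
          ((h : Module.End F (Fin 2 → E)) *
            ((h⁻¹ : (Fin 2 → E) ≃ₗ[F] (Fin 2 → E)) : Module.End F (Fin 2 → E))) -
        ((h : Module.End F (Fin 2 → E)) *
            ((h⁻¹ : (Fin 2 → E) ≃ₗ[F] (Fin 2 → E)) : Module.End F (Fin 2 → E))) * X *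
          ((h : Module.End F (Fin 2 → E)) * M2 F (dl F e) *
            ((h⁻¹ : (Fin 2 → E) ≃ₗ[F] (Fin 2 → E)) : Module.End F (Fin 2 → E))) := by
      simp only [mul_sub, sub_mul, mul_assoc]
    rw [h3, dichA_mul_inv, mul_one, one_mul] at h2
    exact h2
  | zero => simp
  | add Y Z _ _ ihY ihZ =>
    have h3 : (Y + Z) * X - X * (Y + Z) = (Y * X - X * Y) + (Z * X - X * Z) := by
      rw [add_mul, mul_add]
      abel
    rw [h3]
    exact Submodule.add_mem _ ihY ihZ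
  | smul a Y _ ih =>
    have h3 : (a • Y) * X - X * (a • Y) = a • (Y * X - X * Y) := by
      rw [smul_mul_assoc, mul_smul_comm, smul_sub]
    rw [h3]
    exact Submodule.smul_mem _ _ ih

theorem good_wsp (hq : 48 ≤ Nat.card F) (H : Subgroup ((Fin 2 → E) ≃ₗ[F] (Fin 2 → E))) (hH : H ≤ D.G2)
    (hT : D.HasT2 H) : ∃ u : Eˣ, D.Good2 (D.Wsp2 H) u := by
  obtain ⟨θ, h1, h2, -, -⟩ := D.exists_sep2 hq
  have hu : ((θ ^ 2 : Eˣ) : E) * D.bar ((θ ^ 2 : Eˣ) : E) = 1 := by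
    rw [Units.val_pow_eq_pow_val, map_pow, ← mul_pow, h1, one_pow]
  have hs : D.Sep2 ((θ ^ 2 : Eˣ) : E) := by
    rw [Units.val_pow_eq_pow_val]
    exact h2
  have had : ∀ X ∈ D.Wsp2 H, M2 F (fun i => ((su F (θ ^ 2) i : Eˣ) : E)) * X *
      M2 F (fun i => (((su F (θ ^ 2) i)⁻¹ : Eˣ) : E)) ∈ D.Wsp2 H := by
    intro X hX
    have h3 := D.wsp_stable H (hT θ h1) hX
    have h4 : (mu2 F (su F (θ ^ 2)))⁻¹ = mu2 F ((su F (θ ^ 2))⁻¹) :=
      (map_inv (mu2 F) (su F (θ ^ 2))).symm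
    rw [h4, mu2_coe, mu2_coe] at h3
    exact h3
  exact ⟨θ ^ 2, D.Wsp2_le H hH, hu, hs, had, fun e he => D.dichA_tor H e he,
    fun X hX Y hY => D.dichA_lie H hH (θ ^ 2) hu hs had hX hY⟩

end Da

end Pool.Agent.H32.UP
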