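import Pool.Agent.H32.UP.Bas0

/-!
# UP.Dim0 : the eigenspaces of `bar`

PROOF. Multiplication by a nonzero `e₀` with `bar e₀ = - e₀` (exists: `bar ≠ 1` by `σ_inj`, take `e₀ = x - bar x`) is a bijection from `Ep` onto `Em`, and `E = Ep ⊕ Em` (`x = (x + bar x)/2 + (x - bar x)/2`, `Ep ⊓ Em = 0` as `2 ≠ 0`), `finrank E = 2 r`.
-/

set_option autoImplicit false
set_option linter.unusedSectionVars false

namespace Pool.Agent.H32.UP

open Module Pool.Agent.H32.UD

namespace Da

variable {F E : Type} [Field F] [Field E] [Algebra F E] (D : Da F E) [Finite F] [Finite E]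

/-- the fixed field of `bar` -/
noncomputable def Ep : Submodule F E where
  carrier := {e | D.bar e = e}
  add_mem' := by
    intro a b ha hb
    show D.bar (a + b) = a + b
    rw [map_add, show D.bar a = a from ha, show D.bar b = b from hb]
  zero_mem' := map_zero _
  smul_mem' := by
    intro c a ha
    show D.bar (c • a) = c • a
    rw [map_smul, show D.bar a = a from ha]

/-- the Lie algebra of the torus -/
noncomputable def Em : Submodule F E where
  carrier := {e | D.bar e = -e}
  add_mem' := by
    intro a b ha hb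
    show D.bar (a + b) = -(a + b)
    rw [map_add, show D.bar a = -a from ha, show D.bar b = -b from hb]; ring
  zero_mem' := by show D.bar 0 = -0; simp
  smul_mem' := by
    intro c a ha
    show D.bar (c • a) = -(c • a)
    rw [map_smul, show D.bar a = -a from ha, smul_neg]

include D in
private theorem two_ne_E : (2 : E) ≠ 0 := by
  have h : algebraMap F E 2 ≠ 0 := by
    rw [Ne, map_eq_zero]
    exact D.two_ne
  rwa [map_ofNat] at h

private theorem mem_Ep {e : E} : e ∈ D.Ep ↔ D.bar e = e := Iff.rfl

private theorem mem_Em {e : E} : e ∈ D.Em ↔ D.bar e = -e := Iff.rfl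

private theorem exists_e0 : ∃ e0 : E, e0 ≠ 0 ∧ D.bar e0 = -e0 := by
  by_contra hc
  push Not at hc
  have h1 : ∀ x : E, D.bar x = x := by
    intro x
    by_contra hx
    refine hc (x - D.bar x) ?_ ?_
    · intro h
      exact hx (sub_eq_zero.mp h).symm
    · rw [map_sub, bar_bar]; ring
  have h2 : D.σ (D.r : ZMod (2 * D.r)) = D.σ 0 := by
    apply AlgEquiv.ext
    intro x
    rw [σ_zero_apply, ← bar_eq]
    exact h1 x
  exact D.r_ne_zero (D.σ_inj h2)

private theorem finrank_le {P Q : Submodule F E} (e0 : E) (h0 : e0 ≠ 0) (h : ∀ x ∈ P, e0 * x ∈ Q) :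
    finrank F P ≤ finrank F Q := by
  have : FiniteDimensional F E := Module.Finite.of_finite
  let f : P →ₗ[F] Q := (((M F e0).comp P.subtype)).codRestrict Q (fun x => h x.1 x.2)
  have hf : Function.Injective f := by
    intro x y hxy
    have h1 : e0 * (x : E) = e0 * (y : E) := congrArg Subtype.val hxy
    exact Subtype.ext (mul_left_cancel₀ h0 h1)
  exact LinearMap.finrank_le_finrank_of_injective hf

private theorem dim_eq : finrank F D.Ep = finrank F D.Em := by
  obtain ⟨e0, h0, h1⟩ := D.exists_e0
  apply le_antisymm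
  · apply finrank_le e0 h0
    intro x hx
    rw [mem_Em, map_mul, h1, D.mem_Ep.mp hx]; ring
  · apply finrank_le e0 h0
    intro x hx
    rw [mem_Ep, map_mul, h1, D.mem_Em.mp hx]; ring

private theorem sup_eq : D.Ep ⊔ D.Em = ⊤ := by
  rw [eq_top_iff]
  intro x _
  rw [Submodule.mem_sup]
  have hF : (2 : F) ≠ 0 := D.two_ne
  refine ⟨(2 : F)⁻¹ • (x + D.bar x), ?_, (2 : F)⁻¹ • (x - D.bar x), ?_, ?_⟩
  · rw [mem_Ep, map_smul, map_add, bar_bar, add_comm]
  · rw [mem_Em, map_smul, map_sub, bar_bar, ← smul_neg]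
    congr 1; ring
  · rw [← smul_add, inv_smul_eq_iff₀ hF, two_smul]
    ring

private theorem inf_eq : D.Ep ⊓ D.Em = ⊥ := by
  rw [eq_bot_iff]
  intro x hx
  have h1 : D.bar x = x := hx.1
  have h3 : D.bar x = -x := hx.2
  have h4 : (2 : E) * x = 0 := by
    rw [two_mul]
    nth_rw 1 [← h1]
    rw [h3]; ring
  rcases mul_eq_zero.mp h4 with h | h
  · exact absurd h D.two_ne_E
  · exact (Submodule.mem_bot F).mpr h

private theorem sum_eq : finrank F D.Ep + finrank F D.Em = 2 * D.r := by
  have : FiniteDimensional F E := Module.Finite.of_finite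
  have h := Submodule.finrank_sup_add_finrank_inf_eq D.Ep D.Em
  rw [D.sup_eq, D.inf_eq, finrank_top, finrank_bot, D.fin, add_zero] at h
  exact h.symm

theorem dim_Ep : finrank F D.Ep = D.r := by
  have h1 := D.dim_eq
  have h2 := D.sum_eq
  omega

theorem dim_Em : finrank F D.Em = D.r := by
  have h1 := D.dim_eq
  have h2 := D.sum_eq
  omega

end Da

end Pool.Agent.H32.UP
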