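import Pool.Agent.H32.UP.TrK
import Pool.Agent.H42.PL.Fin

/-!
# UP.Exg2 : the conjugating element (from the intersection side, H42/PL)

For even `r` and large `q` there is `g` in the commutator subgroup of the isometry group such that an element `x` of the commutator subgroup satisfying one condition of `D.NN`, and `g⁻¹ x g` another one, is `± 1`.
-/

set_option autoImplicit false
set_option linter.unusedSectionVars false

namespace Pool.Agent.H32.UP

open Module Pool.Agent.H32.UD Pool.Agent.H42.PL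

namespace Da

variable {F E : Type} [Field F] [Field E] [Algebra F E] (D : Da F E) [Finite F] [Finite E]

/-- conjugation by the isomorphism -/
private noncomputable def exg2C (e : (Fin 4 → D.K0) ≃ₗ[F] (Fin 2 → E)) :
    ((Fin 4 → D.K0) ≃ₗ[F] (Fin 4 → D.K0)) →* ((Fin 2 → E) ≃ₗ[F] (Fin 2 → E)) where
  toFun h := (e.symm.trans h).trans e
  map_one' := by
    ext x i
    show e (e.symm x) i = x i
    rw [e.apply_symm_apply]
  map_mul' a b := by
    ext x i
    show e (a (b (e.symm x))) i = e (a (e.symm (e (b (e.symm x))))) i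
    rw [e.symm_apply_apply]

private theorem exg2C_apply (e : (Fin 4 → D.K0) ≃ₗ[F] (Fin 2 → E)) (h : (Fin 4 → D.K0) ≃ₗ[F] (Fin 4 → D.K0))
    (v : Fin 4 → D.K0) : D.exg2C e h (e v) = e (h v) := by
  show e (h (e.symm (e v))) = e (h v)
  rw [e.symm_apply_apply]

private theorem exg2_map {u : E} (hu0 : u ≠ 0) (hu : D.bar u = -u) :
    (OG F (D.et u hu)).map (D.exg2C (D.pse u hu0 hu)) = D.G2 := by
  have hB : ∀ x y : Fin 2 → E, D.B2 x y =
      2 * Bf F (D.et u hu) ((D.pse u hu0 hu).symm x) ((D.pse u hu0 hu).symm y) := by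
    intro x y
    rw [← D.form_tr hu, ← pse_apply D u hu0 hu, ← pse_apply D u hu0 hu, LinearEquiv.apply_symm_apply,
      LinearEquiv.apply_symm_apply]
  ext g
  constructor
  · rintro ⟨h, hh, rfl⟩
    intro x y
    rw [hB, hB]
    show 2 * Bf F (D.et u hu) ((D.pse u hu0 hu).symm (D.pse u hu0 hu (h ((D.pse u hu0 hu).symm x))))
      ((D.pse u hu0 hu).symm (D.pse u hu0 hu (h ((D.pse u hu0 hu).symm y)))) = _
    rw [LinearEquiv.symm_apply_apply, LinearEquiv.symm_apply_apply, hh]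
  · intro hg
    refine ⟨((D.pse u hu0 hu).trans g).trans (D.pse u hu0 hu).symm, ?_, ?_⟩
    · intro x y
      have h := hg (D.pse u hu0 hu x) (D.pse u hu0 hu y)
      rw [hB, hB, LinearEquiv.symm_apply_apply, LinearEquiv.symm_apply_apply] at h
      exact mul_left_cancel₀ D.two_ne h
    · ext x i
      show D.pse u hu0 hu ((D.pse u hu0 hu).symm (g (D.pse u hu0 hu ((D.pse u hu0 hu).symm x)))) i = g x i
      rw [LinearEquiv.apply_symm_apply, LinearEquiv.apply_symm_apply]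

private theorem exg2_fix (p : ℕ) (hpr : p ∣ D.r) {b : E} (hb : (fr F E ^ p) b = b) : b ∈ D.K0 := by
  rw [mem_K0, bar_eq, σ_natCast]
  obtain ⟨k, hk⟩ := hpr
  rw [hk, pow_mul]
  clear hk
  induction k with
  | zero => rfl
  | succ k ih => rw [pow_succ, AlgEquiv.mul_apply, hb, ih]

private theorem exg2_nrm {u : E} (hu0 : u ≠ 0) (hu : D.bar u = -u) (hev : Even D.r)
    {P : ((Fin 2 → E) ≃ₗ[F] (Fin 2 → E)) → Prop} (hP : P ∈ D.NN)
    (y : (Fin 4 → D.K0) ≃ₗ[F] (Fin 4 → D.K0)) (h : P (D.exg2C (D.pse u hu0 hu) y)) : Nrm F y := by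
  have hinj : Function.Injective (D.ps u) := D.ps_inj hu0 hu
  have hy : ∀ v, D.exg2C (D.pse u hu0 hu) y (D.ps u v) = D.ps u (y v) := fun v =>
    D.exg2C_apply (D.pse u hu0 hu) y v
  rcases hP with rfl | ⟨p, j, hp, hpr, rfl⟩
  · left
    rcases h with h | h
    · left
      intro x
      apply hinj
      have h1 := LinearMap.congr_fun h (D.ps u x)
      have h2 : D.exg2C (D.pse u hu0 hu) y (M2 F ![(1 : E), -1] (D.ps u x)) =
          M2 F ![(1 : E), -1] (D.exg2C (D.pse u hu0 hu) y (D.ps u x)) := h1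
      rw [← ps_Jd, hy, hy, ← ps_Jd] at h2
      exact h2
    · right
      intro x
      apply hinj
      have h1 := LinearMap.congr_fun h (D.ps u x)
      have h2 : D.exg2C (D.pse u hu0 hu) y (M2 F ![(1 : E), -1] (D.ps u x)) =
          -(M2 F ![(1 : E), -1] (D.exg2C (D.pse u hu0 hu) y (D.ps u x))) := h1
      rw [← ps_Jd, hy, hy, ← ps_Jd] at h2
      rw [h2, map_neg]
  · right
    have hpr' : p ∣ D.r := by
      rcases (Nat.Prime.dvd_mul hp).1 hpr with h2 | h2
      · rw [(Nat.prime_dvd_prime_iff_eq hp Nat.prime_two).1 h2]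
        exact hev.two_dvd
      · exact h2
    refine ⟨p, j, hp, by rw [finrank_K0]; exact hpr', ?_⟩
    intro k hk
    have hk' : (fr F E ^ p) (k : E) = (k : E) := by rw [← fr_pow_K0, hk]
    obtain ⟨b, hb, hbb⟩ := h (k : E) hk'
    refine ⟨⟨b, D.exg2_fix p hpr' hb⟩, ?_, ?_⟩
    · apply Subtype.ext
      rw [fr_pow_K0]
      exact hb
    · intro x
      apply hinj
      have h1 := LinearMap.congr_fun hbb (D.ps u x)
      have h2 : D.exg2C (D.pse u hu0 hu) y (M2 F ![(k : E), (fr F E ^ j) (k : E)] (D.ps u x)) =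
          M2 F ![b, (fr F E ^ j) b] (D.exg2C (D.pse u hu0 hu) y (D.ps u x)) := h1
      rw [← ps_dg, hy, hy] at h2
      rw [h2, ps_dg]

end Da

theorem exists_good2 (r : ℕ) (hr : 2 ≤ r) (hev : Even r) : ∃ q0 : ℕ, ∀ (F E : Type) [Field F] [Field E]
    [Algebra F E] [Finite F] [Finite E] (D : Da F E), D.r = r → q0 ≤ Nat.card F →
    ∃ g ∈ (⁅D.G2, D.G2⁆ : Subgroup ((Fin 2 → E) ≃ₗ[F] (Fin 2 → E))), ∀ P ∈ D.NN, ∀ Q ∈ D.NN,
      ∀ x ∈ (⁅D.G2, D.G2⁆ : Subgroup ((Fin 2 → E) ≃ₗ[F] (Fin 2 → E))), P x → Q (g⁻¹ * x * g) →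
      (∀ v, x v = v) ∨ ∀ v, x v = -v := by
  obtain ⟨q0, h0⟩ := exists_g r
  refine ⟨q0, ?_⟩
  intro F E _ _ _ _ _ D hD hq
  subst hD
  obtain ⟨u, hu0, hu⟩ := D.exists_u
  have hodd : Odd (Nat.card F) := by
    rw [← Nat.not_even_iff_odd]
    intro h
    apply D.two_ne
    let _ := Fintype.ofFinite F
    rw [Nat.card_eq_fintype_card] at h
    have h2 : ringChar F = 2 := FiniteField.even_card_iff_char_two.2 (Nat.even_iff.1 h)
    have h3 := ringChar.Nat.cast_ringChar (R := F)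
    rw [h2] at h3
    exact_mod_cast h3
  obtain ⟨g, hg, hgg⟩ := h0 F D.K0 D.finrank_K0 hev (by omega) hodd hq (D.et u hu) (D.et_nonsq hu0 hu hev)
  have hmap : (⁅OG F (D.et u hu), OG F (D.et u hu)⁆ : Subgroup _).map (D.exg2C (D.pse u hu0 hu)) =
      ⁅D.G2, D.G2⁆ := by
    rw [Subgroup.map_commutator, D.exg2_map hu0 hu]
  refine ⟨D.exg2C (D.pse u hu0 hu) g, ?_, ?_⟩
  · rw [← hmap]
    exact ⟨g, hg, rfl⟩
  · intro P hP Q hQ x hx hPx hQx
    rw [← hmap] at hx
    obtain ⟨y, hy, rfl⟩ := hx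
    have h1 := D.exg2_nrm hu0 hu hev hP y hPx
    have h2 := D.exg2_nrm hu0 hu hev hQ (g⁻¹ * y * g) (by
      rw [map_mul, map_mul, map_inv]
      exact hQx)
    rcases hgg y hy h1 h2 with h | h
    · left
      intro v
      show D.pse u hu0 hu (y ((D.pse u hu0 hu).symm v)) = v
      rw [h, LinearEquiv.apply_symm_apply]
    · right
      intro v
      show D.pse u hu0 hu (y ((D.pse u hu0 hu).symm v)) = -v
      rw [h, map_neg, LinearEquiv.apply_symm_apply]

end Pool.Agent.H32.UP
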