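import Pool.Agent.H32.UP.Nd2
import Pool.Agent.H32.UP.Dim0
import Pool.Agent.H32.UD.Ct

/-!
# UP.Fib2 : the fibres of the product map

PROOF. Adapt UD/Fib.lean. `pmap_card` with `V = Fin n → E` (dimension `2 r n`), `W = (Fin n → E) × End_F (Fin 2 → E)` (dimension `2 r n + (4 r)^2`), `P t = ((t i * bar (t i) - 1)_i, ∏ fac2 (h i) (t i) - g)`, degree `6 n + 2`: the map `t ↦ ss t = ![t, t ^ 4 * fr t ^ 2]` is a `PMap` of degree `6` (`PMap.pi`, `PMap.mul`, `PMap.lin`, `PMap.mono`) with derivative
`v ↦ ![v, 4 t ^ 3 v * fr t ^ 2 + t ^ 4 * (2 fr t fr v)]` (written as produced by `PMap.mul`; for `v = t * e` it is `ss t * dl e`), then `PMap.map` with `y ↦ h M2 y h⁻¹`, `PMap.listProd`. Let `t` be a point of the fibre with independent `dfac2`. For `v = (t i * w i)` the first component of the derivative is `(w i + bar (w i))`. With `w = e i` at the place `i`, zero elsewhere: `(0, dfac2 h e t i)`.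
As in UD/Fib.lean (`fib_dim`, `fib_pi`, `dim_Ep`) the span has dimension `≥ r n + n`, `ρ = r n + n`, and the number of points is `≤ C q^(2 r n - (r n + n)) = C q^(r n - n)`.
-/

set_option autoImplicit false
set_option linter.unusedSectionVars false

namespace Pool.Agent.H32.UP

open Module Pool.Agent.H32.UD

private theorem fib2_dim {F V W : Type} [Field F] [AddCommGroup V] [Module F V] [FiniteDimensional F V]
    [AddCommGroup W] [Module F W] [FiniteDimensional F W] (S : Submodule F (V × W)) (T : Submodule F V)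
    (hT : ∀ x ∈ T, ∃ y : W, (x, y) ∈ S) {n : ℕ} (z : Fin n → W) (hz : LinearIndependent F z)
    (hzS : ∀ i, ((0 : V), z i) ∈ S) : finrank F T + n ≤ finrank F S := by
  let f : S →ₗ[F] V := (LinearMap.fst F V W) ∘ₗ S.subtype
  have hrk := LinearMap.finrank_range_add_finrank_ker f
  have h1 : finrank F T ≤ finrank F (LinearMap.range f) := by
    refine Submodule.finrank_mono ?_
    intro x hx
    obtain ⟨y, hy⟩ := hT x hx
    exact ⟨⟨(x, y), hy⟩, rfl⟩
  have h2 : n ≤ finrank F (LinearMap.ker f) := by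
    let w : Fin n → LinearMap.ker f := fun i => ⟨⟨(0, z i), hzS i⟩, by
      rw [LinearMap.mem_ker]
      rfl⟩
    have hw : LinearIndependent F w := by
      refine LinearIndependent.of_comp ((LinearMap.snd F V W) ∘ₗ S.subtype ∘ₗ (LinearMap.ker f).subtype) ?_
      exact hz
    have h4 := hw.fintype_card_le_finrank
    rwa [Fintype.card_fin] at h4
  rw [← hrk]
  exact add_le_add h1 h2

private theorem fib2_pi {F V : Type} [Field F] [AddCommGroup V] [Module F V] [FiniteDimensional F V]
    (T : Submodule F V) {n : ℕ} :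
    finrank F (Fin n → T) ≤ finrank F (Submodule.pi Set.univ fun _ : Fin n => T) := by
  refine LinearMap.finrank_le_finrank_of_injective
    (f := LinearMap.codRestrict (Submodule.pi Set.univ fun _ : Fin n => T)
      (LinearMap.pi fun i => T.subtype ∘ₗ LinearMap.proj i : (Fin n → T) →ₗ[F] (Fin n → V))
      (fun x i _ => (x i).2)) ?_
  intro x y hxy
  have h4 := congrArg Subtype.val hxy
  funext i
  exact Subtype.ext (congrFun h4 i)

section

variable {F E : Type} [Field F] [Field E] [Algebra F E]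

private theorem fib2_M2_add (a b : Fin 2 → E) : M2 F (a + b) = M2 F a + M2 F b := by
  apply LinearMap.ext
  intro x
  funext i
  rw [LinearMap.add_apply, Pi.add_apply, M2_apply, M2_apply, M2_apply, Pi.add_apply, add_mul]

private theorem fib2_M2_smul (c : F) (a : Fin 2 → E) : M2 F (c • a) = c • M2 F a := by
  apply LinearMap.ext
  intro x
  funext i
  rw [LinearMap.smul_apply, Pi.smul_apply, M2_apply, M2_apply, Pi.smul_apply, smul_mul_assoc]

/-- conjugation of a multiplication as a linear map -/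
private noncomputable def fib2C (h : (Fin 2 → E) ≃ₗ[F] (Fin 2 → E)) :
    (Fin 2 → E) →ₗ[F] Module.End F (Fin 2 → E) where
  toFun y := (h : Module.End F (Fin 2 → E)) * M2 F y *
    ((h⁻¹ : (Fin 2 → E) ≃ₗ[F] (Fin 2 → E)) : Module.End F (Fin 2 → E))
  map_add' a b := by rw [fib2_M2_add, mul_add, add_mul]
  map_smul' c a := by
    rw [fib2_M2_smul, mul_smul_comm, smul_mul_assoc]
    rfl

private theorem fib2C_apply (h : (Fin 2 → E) ≃ₗ[F] (Fin 2 → E)) (y : Fin 2 → E) :
    fib2C h y = (h : Module.End F (Fin 2 → E)) * M2 F y *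
      ((h⁻¹ : (Fin 2 → E) ≃ₗ[F] (Fin 2 → E)) : Module.End F (Fin 2 → E)) := rfl

private theorem fib2_list_zero {n : ℕ} (f : Fin n → Module.End F (Fin 2 → E)) (k : Fin n) :
    (List.ofFn (Function.update f k 0)).prod = 0 := by
  apply List.prod_eq_zero
  rw [List.mem_ofFn]
  exact ⟨k, Function.update_self k 0 f⟩

variable [Finite F] [Finite E]

/-- the derivative of `ss` -/
private noncomputable def fib2S (F : Type) {E : Type} [Field F] [Finite F] [Field E] [Finite E] [Algebra F E]
    (t v : E) : Fin 2 → E :=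
  ![v, ((v * t + t * v) * (t * t) + t * t * (v * t + t * v)) * (fr F E t * fr F E t) +
    t * t * (t * t) * (fr F E v * fr F E t + fr F E t * fr F E v)]

private theorem fib2S_mul (t e : E) : fib2S F t (t * e) = ss F t * dl F e := by
  funext i
  fin_cases i
  · show t * e = t * e
    rfl
  · show ((t * e * t + t * (t * e)) * (t * t) + t * t * (t * e * t + t * (t * e))) *
      (fr F E t * fr F E t) + t * t * (t * t) * (fr F E (t * e) * fr F E t + fr F E t * fr F E (t * e)) =
      t ^ 4 * fr F E t ^ 2 * (4 * e + 2 * fr F E e)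
    rw [map_mul]
    ring

private theorem fib2S_zero (t : E) : fib2S F t 0 = 0 := by
  funext i
  fin_cases i
  · show (0 : E) = 0
    rfl
  · show ((0 * t + t * 0) * (t * t) + t * t * (0 * t + t * 0)) *
      (fr F E t * fr F E t) + t * t * (t * t) * (fr F E 0 * fr F E t + fr F E t * fr F E 0) = (0 : E)
    rw [map_zero]
    ring

private theorem fib2_ss [FiniteDimensional F E] {n : ℕ} (i : Fin n) :
    PMap F 6 (fun x : Fin n → E => ss F (x i)) (fun x v => fib2S F (x i) (v i)) := by
  have a1 := PMap.lin (F := F) (LinearMap.proj i : (Fin n → E) →ₗ[F] E)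
  have a2 := PMap.lin (F := F) ((fr F E).toLinearMap ∘ₗ (LinearMap.proj i : (Fin n → E) →ₗ[F] E))
  have a3 := PMap.mul a1 a1
  have a4 := PMap.mul a3 a3
  have a5 := PMap.mul a2 a2
  have a6 := PMap.mul a4 a5
  have a7 := a1.mono (show 1 ≤ 6 by omega)
  have a8 : PMap F 6 (fun (x : Fin n → E) (j : Fin 2) => ss F (x i) j)
      (fun x v j => fib2S F (x i) (v i) j) := by
    refine PMap.pi ?_
    intro j
    fin_cases j
    · exact a7
    · have e1 : (fun x : Fin n → E => ss F (x i) 1) = fun x : Fin n → E =>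
          x i * x i * (x i * x i) * (fr F E (x i) * fr F E (x i)) := by
        funext x
        show x i ^ 4 * fr F E (x i) ^ 2 = _
        ring
      show PMap F 6 (fun x : Fin n → E => ss F (x i) 1) (fun x v => fib2S F (x i) (v i) 1)
      rw [e1]
      exact a6
  exact a8

private theorem fib2_fac [FiniteDimensional F E] {n : ℕ} (h : (Fin 2 → E) ≃ₗ[F] (Fin 2 → E)) (i : Fin n) :
    PMap F 6 (fun x : Fin n → E => fac2 h (x i)) (fun x v => fib2C h (fib2S F (x i) (v i))) :=
  (fib2_ss i).map (fib2C h)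

variable (D : Da F E)

/-- the map -/
private noncomputable def fib2P {n : ℕ} (h : Fin n → ((Fin 2 → E) ≃ₗ[F] (Fin 2 → E)))
    (g : Module.End F (Fin 2 → E)) (x : Fin n → E) : (Fin n → E) × Module.End F (Fin 2 → E) :=
  (fun i => x i * D.bar (x i) - 1, (List.ofFn fun i => fac2 (h i) (x i)).prod - g)

/-- its derivative -/
private noncomputable def fib2P' {n : ℕ} (h : Fin n → ((Fin 2 → E) ≃ₗ[F] (Fin 2 → E))) (x v : Fin n → E) :
    (Fin n → E) × Module.End F (Fin 2 → E) :=
  (fun i => v i * D.bar (x i) + x i * D.bar (v i),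
    ∑ i, (List.ofFn (Function.update (fun j => fac2 (h j) (x j)) i
      (fib2C (h i) (fib2S F (x i) (v i))))).prod)

private theorem fib2_pmap [FiniteDimensional F E] {n : ℕ} (h : Fin n → ((Fin 2 → E) ≃ₗ[F] (Fin 2 → E)))
    (g : Module.End F (Fin 2 → E)) : PMap F (n * 6 + 2) (fib2P D h g) (fib2P' D h) := by
  have h1 : ∀ i : Fin n, PMap F (n * 6 + 2) (fun x : Fin n → E => x i * D.bar (x i) - 1)
      (fun x v => v i * D.bar (x i) + x i * D.bar (v i)) := by
    intro i
    have a1 := PMap.lin (F := F) (LinearMap.proj i : (Fin n → E) →ₗ[F] E)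
    have a2 := PMap.lin (F := F) (D.bar.toLinearMap ∘ₗ (LinearMap.proj i : (Fin n → E) →ₗ[F] E))
    have a3 := (PMap.mul a1 a2).mono (show 1 + 1 ≤ n * 6 + 2 by omega)
    have a4 := (PMap.const (F := F) (V := Fin n → E) (1 : E)).mono (show 0 ≤ n * 6 + 2 by omega)
    have a5 := a3.sub a4
    simpa using a5
  have h2 : PMap F (n * 6 + 2) (fun x : Fin n → E => (List.ofFn fun i => fac2 (h i) (x i)).prod - g)
      (fun x v => ∑ i, (List.ofFn (Function.update (fun j => fac2 (h j) (x j)) i
        (fib2C (h i) (fib2S F (x i) (v i))))).prod) := by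
    have a1 := PMap.listProd (F := F) (V := Fin n → E) (A := Module.End F (Fin 2 → E)) n 6
      (fun i x => fac2 (h i) (x i)) (fun i x v => fib2C (h i) (fib2S F (x i) (v i)))
      (fun i => fib2_fac (h i) i)
    have a3 := a1.mono (show n * 6 ≤ n * 6 + 2 by omega)
    have a4 := (PMap.const (F := F) (V := Fin n → E) g).mono (show 0 ≤ n * 6 + 2 by omega)
    have a5 := a3.sub a4
    simpa using a5
  exact (PMap.pi h1).prod h2

private theorem fib2_rank [FiniteDimensional F E] {n : ℕ} (h : Fin n → ((Fin 2 → E) ≃ₗ[F] (Fin 2 → E)))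
    (e : Fin n → E) (he : ∀ i, D.bar (e i) = -e i) (t : Fin n → E) (ht : ∀ i, t i * D.bar (t i) = 1)
    (hli : LinearIndependent F (fun i => dfac2 h e t i)) :
    D.r * n + n ≤ finrank F (Submodule.span F (Set.range (fib2P' D h t))) := by
  have h2 : (2 : F) ≠ 0 := D.two_ne
  have hr : n * D.r ≤ finrank F (Submodule.pi Set.univ fun _ : Fin n => D.Ep) := by
    have h5 : finrank F (Fin n → D.Ep) = n * D.r := by
      rw [Module.finrank_pi_fintype]
      simp [D.dim_Ep]
    rw [← h5]
    exact fib2_pi D.Ep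
  have h3 := fib2_dim (Submodule.span F (Set.range (fib2P' D h t)))
    (Submodule.pi Set.univ fun _ : Fin n => D.Ep) (fun x hx => ?_) (fun i => dfac2 h e t i) hli
    (fun i => ?_)
  · rw [mul_comm D.r n]
    exact (Nat.add_le_add_right hr n).trans h3
  · refine ⟨(fib2P' D h t (fun i => t i * ((2 : F)⁻¹ • x i))).2, ?_⟩
    have h4 : fib2P' D h t (fun i => t i * ((2 : F)⁻¹ • x i)) =
        (x, (fib2P' D h t (fun i => t i * ((2 : F)⁻¹ • x i))).2) := by
      refine Prod.ext ?_ rfl
      funext i
      show t i * ((2 : F)⁻¹ • x i) * D.bar (t i) + t i * D.bar (t i * ((2 : F)⁻¹ • x i)) = x i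
      have hx : D.bar (x i) = x i := hx i (Set.mem_univ i)
      rw [map_mul, map_smul, hx]
      have e1 : t i * ((2 : F)⁻¹ • x i) * D.bar (t i) + t i * (D.bar (t i) * ((2 : F)⁻¹ • x i)) =
          (t i * D.bar (t i)) * ((2 : F)⁻¹ • x i + (2 : F)⁻¹ • x i) := by ring
      rw [e1, ht, one_mul, ← add_smul]
      have e2 : (2 : F)⁻¹ + (2 : F)⁻¹ = 1 := by
        rw [← two_mul, mul_inv_cancel₀ h2]
      rw [e2, one_smul]
    rw [← h4]
    exact Submodule.subset_span ⟨_, rfl⟩
  · have hv : fib2P' D h t (Pi.single i (t i * e i)) = (0, dfac2 h e t i) := by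
      unfold fib2P'
      refine Prod.ext ?_ ?_
      · funext j
        show (Pi.single i (t i * e i) : Fin n → E) j * D.bar (t j) +
          t j * D.bar ((Pi.single i (t i * e i) : Fin n → E) j) = 0
        by_cases hij : j = i
        · subst hij
          rw [Pi.single_eq_same, map_mul, he]
          ring
        · rw [Pi.single_eq_of_ne hij, map_zero, zero_mul, mul_zero, add_zero]
      · show ∑ k, (List.ofFn (Function.update (fun j => fac2 (h j) (t j)) k
          (fib2C (h k) (fib2S F (t k) ((Pi.single i (t i * e i) : Fin n → E) k))))).prod = dfac2 h e t i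
        rw [Finset.sum_eq_single i]
        · rw [Pi.single_eq_same, fib2S_mul]
          rfl
        · intro k _ hk
          rw [Pi.single_eq_of_ne hk, fib2S_zero, map_zero, fib2_list_zero]
        · intro hi
          exact absurd (Finset.mem_univ i) hi
    rw [← hv]
    exact Submodule.subset_span ⟨_, rfl⟩

end

theorem fibre2 (r n : ℕ) : ∃ C : ℕ, ∀ (F E : Type) [Field F] [Field E] [Algebra F E] [Finite F] [Finite E]
    (D : Da F E), D.r = r → ∀ (h : Fin n → ((Fin 2 → E) ≃ₗ[F] (Fin 2 → E))) (e : Fin n → E),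
    (∀ i, D.bar (e i) = -e i) → ∀ g : Module.End F (Fin 2 → E),
    Nat.card {t : Fin n → D.T2 // LinearIndependent F (fun i => dfac2 h e (fun j => ((t j : Eˣ) : E)) i) ∧
      (List.ofFn fun i => fac2 (h i) ((t i : Eˣ) : E)).prod = g} ≤ C * Nat.card F ^ (r * n - n) := by
  obtain ⟨C, hC⟩ := pmap_card (n * (2 * r)) (n * (2 * r) + 2 * (2 * r) * (2 * (2 * r))) (r * n + n)
    (n * 6 + 2)
  refine ⟨C, ?_⟩
  intro F E _ _ _ _ _ D hD h e he g
  have hfin : FiniteDimensional F E := Module.Finite.of_finite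
  have hE : finrank F E = 2 * r := by rw [D.fin, hD]
  have hV : finrank F (Fin n → E) = n * (2 * r) := by
    rw [Module.finrank_pi_fintype]
    simp [hE]
  have hV2 : finrank F (Fin 2 → E) = 2 * (2 * r) := by
    rw [Module.finrank_pi_fintype]
    simp [hE]
  have hW : finrank F ((Fin n → E) × Module.End F (Fin 2 → E)) =
      n * (2 * r) + 2 * (2 * r) * (2 * (2 * r)) := by
    rw [Module.finrank_prod, hV, Module.finrank_linearMap, hV2]
  have key := hC F (Fin n → E) ((Fin n → E) × Module.End F (Fin 2 → E)) (fib2P D h g) (fib2P' D h) hV hW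
    (fib2_pmap D h g)
  have e1 : n * (2 * r) - (r * n + n) = r * n - n := by
    have : n * (2 * r) = 2 * (r * n) := by ring
    rw [this]
    omega
  rw [e1] at key
  refine le_trans ?_ key
  have hT : ∀ u : D.T2, ((u : Eˣ) : E) * D.bar ((u : Eˣ) : E) = 1 := by
    rintro ⟨u, v, hv, rfl⟩
    show ((v ^ 2 : Eˣ) : E) * D.bar ((v ^ 2 : Eˣ) : E) = 1
    rw [Units.val_pow_eq_pow_val, map_pow, ← mul_pow, hv, one_pow]
  refine Nat.card_le_card_of_injective (fun t : {t : Fin n → D.T2 //
      LinearIndependent F (fun i => dfac2 h e (fun j => ((t j : Eˣ) : E)) i) ∧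
      (List.ofFn fun i => fac2 (h i) ((t i : Eˣ) : E)).prod = g} =>
      (⟨fun i => ((t.1 i : Eˣ) : E), ?_, ?_⟩ : {x : Fin n → E // fib2P D h g x = 0 ∧
        r * n + n ≤ finrank F (Submodule.span F (Set.range (fib2P' D h x)))})) ?_
  · refine Prod.ext ?_ ?_
    · funext i
      show ((t.1 i : Eˣ) : E) * D.bar ((t.1 i : Eˣ) : E) - 1 = 0
      rw [hT, sub_self]
    · show (List.ofFn fun i => fac2 (h i) ((t.1 i : Eˣ) : E)).prod - g = 0
      rw [t.2.2, sub_self]
  · have h3 := fib2_rank D h e he (fun i => ((t.1 i : Eˣ) : E)) (fun i => hT (t.1 i)) t.2.1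
    rw [hD] at h3
    exact h3
  · intro t t' htt
    have h4 := congrArg Subtype.val htt
    apply Subtype.ext
    funext i
    exact Subtype.ext (Units.ext (congrFun h4 i))

end Pool.Agent.H32.UP
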