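import Pool.Agent.H32.UP.SepB
import Pool.Agent.H32.UP.Bas2

/-!
# UP.HasT2 : the commutator subgroup contains the torus; small facts on the torus

PROOF. (Compare UD/HasT.lean.) `w v = (bar (v 0), bar (v 1))` is in `G2` (`trace_bar`), `w mu2 (a) w⁻¹ = mu2 (bar a) = mu2 (a⁻¹)` if all `a i bar (a i) = 1`; so `⁅mu2 a, w⁆ = mu2 (a ^ 2)`; with `a = su u` (`ss_norm`, `su_val`) this is `mu2 (su (u ^ 2))`. `exists_gen_T2`: `θ` from `torus_gen`, `s = θ ^ 2`; every `u ^ 2` is a power of `s`, `mu2` and `su` are homomorphisms.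
`not_pm2`: `mu2 (su (θ ^ 2)) = ± 1` gives `θ ^ 2 = ± 1` (first coordinate), `θ ^ 4 = 1`, but the order of `θ` is `q ^ r + 1 > 4`. `comm_torus2`: `θ` from `exists_sep2`, `x` commutes with `M2 (ss (θ ^ 2))`, `M2_comm_torus` gives `x = M2 z`, which commutes with `M2 ![1, -1]`.
-/

set_option autoImplicit false
set_option linter.unusedSectionVars false

namespace Pool.Agent.H32.UP

open Module Pool.Agent.H32.UD
open scoped commutatorElement

namespace Da

variable {F E : Type} [Field F] [Field E] [Algebra F E] (D : Da F E) [Finite F] [Finite E]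

theorem hasT2_comm : D.HasT2 ⁅D.G2, D.G2⁆ := by
  intro u hu
  set w : (Fin 2 → E) ≃ₗ[F] (Fin 2 → E) :=
    LinearEquiv.piCongrRight fun _ => D.bar.toLinearEquiv with hw
  have hwv : ∀ v i, w v i = D.bar (v i) := fun v i => rfl
  have hwG : w ∈ D.G2 := by
    intro x y
    rw [B2_apply, B2_apply]
    refine Finset.sum_congr rfl fun i _ => ?_
    rw [hwv, hwv, ← map_mul D.bar, trace_bar]
  have hn : ∀ i, (su F u i : E) * D.bar (su F u i) = 1 := by
    intro i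
    rw [su_val]
    exact D.ss_norm hu i
  have huu : mu2 F (su F u) ∈ D.G2 := D.mu2_mem_G2 hn
  have hbar : ∀ i, D.bar (((su F u i)⁻¹ : Eˣ) : E) = su F u i := by
    intro i
    have h1 : D.bar (((su F u i)⁻¹ : Eˣ) : E) * D.bar (su F u i : E) = 1 := by
      rw [← map_mul, Units.inv_mul, map_one]
    have h2 : D.bar (su F u i : E) ≠ 0 := by
      intro h
      rw [h, mul_zero] at h1
      exact zero_ne_one h1
    exact mul_right_cancel₀ h2 (h1.trans (hn i).symm)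
  have hconj : w * (mu2 F (su F u))⁻¹ = mu2 F (su F u) * w := by
    rw [← map_inv]
    apply LinearEquiv.ext
    intro v
    funext i
    change D.bar ((((su F u)⁻¹ : Fin 2 → Eˣ) i : E) * v i) = (su F u i : E) * D.bar (v i)
    rw [map_mul, Pi.inv_apply, hbar]
  have h := Subgroup.commutator_mem_commutator huu hwG
  have e : ⁅mu2 F (su F u), w⁆ = mu2 F (su F (u ^ 2)) := by
    rw [commutatorElement_def, mul_assoc (mu2 F (su F u)) w, hconj, ← mul_assoc,
      mul_inv_cancel_right, ← map_mul, ← map_mul, pow_two]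
  rwa [e] at h

theorem exists_gen_T2 (hq : 48 ≤ Nat.card F) : ∃ s : Eˣ, s ∈ D.T2 ∧
    ∀ H : Subgroup ((Fin 2 → E) ≃ₗ[F] (Fin 2 → E)), mu2 F (su F s) ∈ H → D.HasT2 H := by
  obtain ⟨θ, h1, -, h3⟩ := D.torus_gen
  refine ⟨θ ^ 2, ⟨θ, h1, rfl⟩, fun H hH u hu => ?_⟩
  obtain ⟨n, rfl⟩ := h3 u hu
  have e : (θ ^ n) ^ 2 = (θ ^ 2) ^ n := by
    rw [← pow_mul, ← pow_mul, mul_comm]
  rw [e, map_pow, map_pow]
  exact H.pow_mem hH n

theorem not_pm2 (hq : 48 ≤ Nat.card F) (H : Subgroup ((Fin 2 → E) ≃ₗ[F] (Fin 2 → E))) (hT : D.HasT2 H) :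
    ¬ ∀ x ∈ H, (∀ v, x v = v) ∨ ∀ v, x v = -v := by
  intro h
  obtain ⟨θ, h1, h2, -⟩ := D.torus_gen
  have hval : ∀ v : Fin 2 → E, mu2 F (su F (θ ^ 2)) v 0 = ((θ ^ 2 : Eˣ) : E) * v 0 := fun v => rfl
  have h4 : θ ^ 4 = 1 := by
    have h5 : ((θ ^ 2 : Eˣ) : E) ^ 2 = 1 := by
      rcases h _ (hT θ h1) with h' | h'
      · have := congrFun (h' (fun _ => 1)) 0
        rw [hval, mul_one] at this
        rw [this, one_pow]
      · have := congrFun (h' (fun _ => 1)) 0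
        rw [hval, mul_one, Pi.neg_apply] at this
        rw [this]
        norm_num
    have h6 : (θ ^ 2) ^ 2 = (1 : Eˣ) := by
      ext
      rw [Units.val_pow_eq_pow_val, h5, Units.val_one]
    rw [← h6, ← pow_mul]
  have h7 : orderOf θ ≤ 4 := orderOf_le_of_pow_eq_one (by norm_num) h4
  have h8 : 48 ^ 1 ≤ Nat.card F ^ D.r := by
    calc 48 ^ 1 ≤ Nat.card F ^ 1 := Nat.pow_le_pow_left hq 1
      _ ≤ Nat.card F ^ D.r := Nat.pow_le_pow_right (by omega) (by have := D.two_le; omega)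
  omega

theorem comm_torus2 (hq : 48 ≤ Nat.card F) (x : (Fin 2 → E) ≃ₗ[F] (Fin 2 → E))
    (hx : ∀ u : Eˣ, (u : E) * D.bar u = 1 → x * mu2 F (su F (u ^ 2)) = mu2 F (su F (u ^ 2)) * x) :
    NorJ F x := by
  obtain ⟨θ, h1, hsep, -, -⟩ := D.exists_sep2 hq
  have hn : (θ : E) ^ 2 * D.bar ((θ : E) ^ 2) = 1 := by
    rw [map_pow, ← mul_pow, h1, one_pow]
  have hs : ∀ i, (su F (θ ^ 2) i : E) = ss F ((θ : E) ^ 2) i := by
    intro i
    rw [su_val, Units.val_pow_eq_pow_val]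
  have hm : ((mu2 F (su F (θ ^ 2)) : (Fin 2 → E) ≃ₗ[F] (Fin 2 → E)) : Module.End F (Fin 2 → E)) =
      M2 F (ss F ((θ : E) ^ 2)) := by
    refine (mu2_coe F _).trans ?_
    exact congrArg (M2 F) (funext hs)
  have hx1 : (x : Module.End F (Fin 2 → E)) * M2 F (ss F ((θ : E) ^ 2)) =
      M2 F (ss F ((θ : E) ^ 2)) * (x : Module.End F (Fin 2 → E)) := by
    rw [← hm]
    exact congrArg (fun g : (Fin 2 → E) ≃ₗ[F] (Fin 2 → E) => (g : Module.End F (Fin 2 → E))) (hx θ h1)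
  obtain ⟨z, hz⟩ := D.M2_comm_torus hn hsep _ hx1
  left
  rw [hz, ← M2_mul, ← M2_mul, mul_comm]

end Da

end Pool.Agent.H32.UP
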