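import Pool.Agent.H32.UD.GamL
import Pool.Agent.H32.UP.HasT2

/-!
# UP.Gam2 : the uniform domination number is two

PROOF. Adapt `gamma_eq_two` in UD/Gam.lean (with its private lemmas `gam_proper`, `gam_le`, `gam_mem`): `s = mu2 (su s0)`, `s0 ∈ T2` from `exists_gen_T2`, the conditions `P, Q ∈ D.NN` in place of `Nor p`, `Nor l`. For `≥ 2`: if `Γ / Z` is cyclic then `Γ` is commutative, `comm_torus2` gives `NorJ x` for all `x ∈ Γ`, `NorJ F ∈ D.NN`, so by `hg` every `x ∈ Γ` is `± 1`, contradiction to `not_pm2`.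
-/

set_option autoImplicit false

namespace Pool.Agent.H32.UP

open Module Pool.Agent.H32.UD Pool.Agent.H49.UDN

private theorem gam2_proper {A : Type} [Group A] (Γ : Subgroup A) (C : Subgroup (Γ ⧸ Subgroup.center Γ)) (hC : C ≠ ⊤) :
    (C.comap (QuotientGroup.mk' (Subgroup.center Γ))).map Γ.subtype ≠ Γ := by
  intro h
  apply hC
  rw [eq_top_iff]
  rintro c -
  obtain ⟨y, rfl⟩ := QuotientGroup.mk'_surjective (Subgroup.center Γ) c
  have hy : (y : A) ∈ (C.comap (QuotientGroup.mk' (Subgroup.center Γ))).map Γ.subtype := by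
    rw [h]
    exact y.2
  obtain ⟨z, hz, hzy⟩ := hy
  have hzy' : z = y := Subtype.ext hzy
  rw [← hzy']
  exact hz

private theorem gam2_le {A : Type} [Group A] (Γ : Subgroup A) (K : Subgroup Γ) : K.map Γ.subtype ≤ Γ := by
  rintro _ ⟨y, _, rfl⟩
  exact y.2

private theorem gam2_mem {A : Type} [Group A] (Γ : Subgroup A) (T : Set (Γ ⧸ Subgroup.center Γ)) (x : Γ)
    (hx : (QuotientGroup.mk' (Subgroup.center Γ)) x ∈ T) :
    (x : A) ∈ ((Subgroup.closure T).comap (QuotientGroup.mk' (Subgroup.center Γ))).map Γ.subtype :=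
  ⟨x, Subgroup.subset_closure hx, rfl⟩

theorem gamma_eq_two2 {F E : Type} [Field F] [Field E] [Algebra F E] [Finite F] [Finite E] (D : Da F E)
    (hq : 48 ≤ Nat.card F) (Γ : Subgroup ((Fin 2 → E) ≃ₗ[F] (Fin 2 → E))) (hT : D.HasT2 Γ)
    (hover : ∀ H : Subgroup ((Fin 2 → E) ≃ₗ[F] (Fin 2 → E)), H ≤ Γ → D.HasT2 H →
      (∃ P ∈ D.NN, ∀ h ∈ H, P h) ∨ H = Γ)
    (hex : ∃ g ∈ Γ, ∀ P ∈ D.NN, ∀ Q ∈ D.NN, ∀ x ∈ Γ, P x → Q (g⁻¹ * x * g) →
      (∀ v, x v = v) ∨ ∀ v, x v = -v) :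
    gammaU (ModCenter Γ) = 2 := by
  obtain ⟨g, hgΓ, hg⟩ := hex
  apply le_antisymm
  · obtain ⟨s0, hs0T, hs0⟩ := D.exists_gen_T2 hq
    have hsΓ : mu2 F (su F s0) ∈ Γ := by
      obtain ⟨v, hv, rfl⟩ := hs0T
      exact hT v hv
    have key : ∀ x : Γ ⧸ Subgroup.center Γ, x ≠ 1 →
        Subgroup.closure {x, (QuotientGroup.mk' (Subgroup.center Γ)) ⟨mu2 F (su F s0), hsΓ⟩} = ⊤ ∨
        Subgroup.closure {x, (QuotientGroup.mk' (Subgroup.center Γ)) ⟨g, hgΓ⟩ *
          (QuotientGroup.mk' (Subgroup.center Γ)) ⟨mu2 F (su F s0), hsΓ⟩ *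
          ((QuotientGroup.mk' (Subgroup.center Γ)) ⟨g, hgΓ⟩)⁻¹} = ⊤ := by
      intro x hx
      obtain ⟨y, rfl⟩ := QuotientGroup.mk'_surjective (Subgroup.center Γ) x
      by_contra hcon
      rw [not_or] at hcon
      obtain ⟨h1, h2⟩ := hcon
      -- first closure
      have hH1T : D.HasT2 (((Subgroup.closure {(QuotientGroup.mk' (Subgroup.center Γ)) y,
          (QuotientGroup.mk' (Subgroup.center Γ)) ⟨mu2 F (su F s0), hsΓ⟩}).comap
            (QuotientGroup.mk' (Subgroup.center Γ))).map Γ.subtype) :=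
        hs0 _ (gam2_mem Γ _ ⟨mu2 F (su F s0), hsΓ⟩ (Or.inr rfl))
      have hN1 := (hover _ (gam2_le Γ _) hH1T).resolve_right (gam2_proper Γ _ h1)
      obtain ⟨P, hP, hN1⟩ := hN1
      have hy1 : P (y : (Fin 2 → E) ≃ₗ[F] (Fin 2 → E)) := hN1 _ (gam2_mem Γ _ y (Or.inl rfl))
      -- second closure
      set H2 : Subgroup ((Fin 2 → E) ≃ₗ[F] (Fin 2 → E)) :=
        ((Subgroup.closure {(QuotientGroup.mk' (Subgroup.center Γ)) y,
          (QuotientGroup.mk' (Subgroup.center Γ)) ⟨g, hgΓ⟩ *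
          (QuotientGroup.mk' (Subgroup.center Γ)) ⟨mu2 F (su F s0), hsΓ⟩ *
          ((QuotientGroup.mk' (Subgroup.center Γ)) ⟨g, hgΓ⟩)⁻¹}).comap
            (QuotientGroup.mk' (Subgroup.center Γ))).map Γ.subtype with hH2
      have hH2le : H2 ≤ Γ := gam2_le Γ _
      have hH2ne : H2 ≠ Γ := gam2_proper Γ _ h2
      have hyH2 : (y : (Fin 2 → E) ≃ₗ[F] (Fin 2 → E)) ∈ H2 := gam2_mem Γ _ y (Or.inl rfl)
      have hsH2 : g * mu2 F (su F s0) * g⁻¹ ∈ H2 := by
        have := gam2_mem Γ {(QuotientGroup.mk' (Subgroup.center Γ)) y,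
          (QuotientGroup.mk' (Subgroup.center Γ)) ⟨g, hgΓ⟩ *
          (QuotientGroup.mk' (Subgroup.center Γ)) ⟨mu2 F (su F s0), hsΓ⟩ *
          ((QuotientGroup.mk' (Subgroup.center Γ)) ⟨g, hgΓ⟩)⁻¹}
          (⟨g, hgΓ⟩ * ⟨mu2 F (su F s0), hsΓ⟩ * (⟨g, hgΓ⟩)⁻¹) (Or.inr (by
            rw [map_mul, map_mul, map_inv]; rfl))
        exact this
      have hmem : ∀ z : (Fin 2 → E) ≃ₗ[F] (Fin 2 → E),
          z ∈ H2.map (MulAut.conj g⁻¹).toMonoidHom ↔ g * z * g⁻¹ ∈ H2 := by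
        intro z
        constructor
        · rintro ⟨w, hw, rfl⟩
          have : g * ((MulAut.conj g⁻¹).toMonoidHom w) * g⁻¹ = w := by
            change g * (g⁻¹ * w * (g⁻¹)⁻¹) * g⁻¹ = w
            group
          rw [this]
          exact hw
        · intro hz
          refine ⟨_, hz, ?_⟩
          change g⁻¹ * (g * z * g⁻¹) * (g⁻¹)⁻¹ = z
          group
      have hH2'T : D.HasT2 (H2.map (MulAut.conj g⁻¹).toMonoidHom) := hs0 _ ((hmem _).2 hsH2)
      have hH2'le : H2.map (MulAut.conj g⁻¹).toMonoidHom ≤ Γ := by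
        intro z hz
        have h3 := hH2le ((hmem z).1 hz)
        have h4 : z = g⁻¹ * (g * z * g⁻¹) * g := by group
        rw [h4]
        exact Γ.mul_mem (Γ.mul_mem (Γ.inv_mem hgΓ) h3) hgΓ
      have hH2'ne : H2.map (MulAut.conj g⁻¹).toMonoidHom ≠ Γ := by
        intro h
        apply hH2ne
        apply le_antisymm hH2le
        intro z hz
        have h3 : g⁻¹ * z * g ∈ H2.map (MulAut.conj g⁻¹).toMonoidHom := by
          rw [h]
          exact Γ.mul_mem (Γ.mul_mem (Γ.inv_mem hgΓ) hz) hgΓ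
        have h4 := (hmem _).1 h3
        have h5 : g * (g⁻¹ * z * g) * g⁻¹ = z := by group
        rwa [h5] at h4
      obtain ⟨Q, hQ, hN2⟩ := (hover _ hH2'le hH2'T).resolve_right hH2'ne
      have hy2 : Q (g⁻¹ * (y : (Fin 2 → E) ≃ₗ[F] (Fin 2 → E)) * g) := by
        apply hN2
        rw [hmem]
        have h5 : g * (g⁻¹ * (y : (Fin 2 → E) ≃ₗ[F] (Fin 2 → E)) * g) * g⁻¹ = y := by group
        rw [h5]
        exact hyH2
      have hpm := hg P hP Q hQ y y.2 hy1 hy2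
      apply hx
      rw [QuotientGroup.mk'_apply, QuotientGroup.eq_one_iff, Subgroup.mem_center_iff]
      intro z
      apply Subtype.ext
      apply LinearEquiv.ext
      intro v
      change (z : (Fin 2 → E) ≃ₗ[F] (Fin 2 → E)) ((y : (Fin 2 → E) ≃ₗ[F] (Fin 2 → E)) v) =
        (y : (Fin 2 → E) ≃ₗ[F] (Fin 2 → E)) ((z : (Fin 2 → E) ≃ₗ[F] (Fin 2 → E)) v)
      rcases hpm with hpm | hpm
      · rw [hpm, hpm]
      · rw [hpm, hpm, map_neg]
    exact gammaU_le_two (ModCenter Γ) _ _ key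
  · apply two_le_gammaU
    intro hcyc
    have hcyc' : IsCyclic (Γ ⧸ Subgroup.center Γ) := hcyc
    have hcomm : ∀ a b : Γ, a * b = b * a := by
      intro a b
      exact commutative_of_cyclic_center_quotient (QuotientGroup.mk' (Subgroup.center Γ))
        (by rw [QuotientGroup.ker_mk']) a b
    have hN : ∀ x ∈ Γ, NorJ F x := by
      intro x hx
      apply D.comm_torus2 hq x
      intro u hu
      have h := hcomm ⟨x, hx⟩ ⟨mu2 F (su F (u ^ 2)), hT u hu⟩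
      exact congrArg Subtype.val h
    apply D.not_pm2 hq Γ hT
    intro x hx
    have hJ : NorJ F ∈ D.NN := Or.inl rfl
    exact hg _ hJ _ hJ x hx (hN x hx)
      (hN _ (Γ.mul_mem (Γ.mul_mem (Γ.inv_mem hgΓ) hx) hgΓ))

end Pool.Agent.H32.UP
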