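import Pool.Agent.H32.UP.Ovg2
import Pool.Agent.H32.UP.Gam2
import Pool.Agent.H32.UP.Exg2
import Pool.Agent.H32.UD.Fin

/-!
# UP.Fin2 : the theorem for the groups of plus type, and the class `C` for large `q`

PROOF. `plus_main`: as `model` and `main` in UD/Fin.lean: `overgroups2`, `exists_good2`, `hasT2_comm`, `gamma_eq_two2` with `Γ = ⁅G2, G2⁆`, then `exists_da` (`r = 2 n`, `n` even, `n ≥ 2`), `iso_plus`, `derived_congr`, `derived_sub`, `modCenter_congr`, `gammaU_congr`.
`ge_three`: `r = 2` modulo `4` and `Q` split: `Split.iso`, isomorphism of `OrthGroup`s, `three_le_gammaU_POmegaPlus`. `all`: for even `r`: if `card F` is even, `three_le_gammaU_POmegaForm` (`CharP F 2`: a finite field of even order). If `card F` is odd: if `Q` has no totally singular subspace of dimension `r`: `main` (UD.Fin); otherwise it has one of dimension `≥ r`, hence one of dimension exactly `r` (a subspace of it), so `Split Q`,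
and `gammaU = 2` for `4 ∣ r` by `plus_main`, `≥ 3` otherwise by `ge_three`.
-/

set_option autoImplicit false

namespace Pool.Agent.H32.UP

open Module QuadraticMap Pool.Agent.H32.UD Pool.Agent.H49.UDN

theorem plus_main (n : ℕ) (hn : 2 ≤ n) (hev : Even n) : ∃ q₀ : ℕ, ∀ (F : Type) [Field F] [Finite F],
    Odd (Nat.card F) → q₀ ≤ Nat.card F →
    ∀ (V : Type) [AddCommGroup V] [Module F V] [FiniteDimensional F V] (Q : QuadraticForm F V),
      (∀ x, (∀ y, polar Q x y = 0) → x = 0) → finrank F V = 2 * (2 * n) → Split Q →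
      gammaU (POmegaForm Q) = 2 := by
  obtain ⟨q1, h1⟩ := overgroups2 n
  obtain ⟨q2, h2⟩ := exists_good2 n hn hev
  refine ⟨max 48 (max q1 q2), ?_⟩
  intro F _ _ hodd hq V _ _ _ Q hQ hV hs
  have g0 : 48 ≤ Nat.card F := (le_max_left _ _).trans hq
  have g1 : q1 ≤ Nat.card F := (le_max_left _ _).trans ((le_max_right _ _).trans hq)
  have g2 : q2 ≤ Nat.card F := (le_max_right _ _).trans ((le_max_right _ _).trans hq)
  obtain ⟨E, _, _, _, D, hD⟩ := exists_da F hodd n hn
  have hle : (⁅D.G2, D.G2⁆ : Subgroup ((Fin 2 → E) ≃ₗ[F] (Fin 2 → E))) ≤ D.G2 :=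
    Subgroup.commutator_le_self D.G2
  have hg : gammaU (ModCenter (⁅D.G2, D.G2⁆ : Subgroup ((Fin 2 → E) ≃ₗ[F] (Fin 2 → E)))) = 2 := by
    refine gamma_eq_two2 D g0 ⁅D.G2, D.G2⁆ D.hasT2_comm ?_ (h2 F E D hD g2)
    intro H hH hT
    rcases h1 F E D hD g1 H (hH.trans hle) hT with h | h
    · exact Or.inl h
    · exact Or.inr (le_antisymm hH h)
  subst hD
  obtain ⟨e⟩ := iso_plus D V Q hQ hV hs
  obtain ⟨e1⟩ := derived_congr e
  obtain ⟨e2⟩ := derived_sub D.G2
  obtain ⟨e3⟩ := modCenter_congr (e1.trans e2)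
  have h3 := gammaU_congr e3
  rw [hg] at h3
  exact h3

/-- isometric forms have isomorphic orthogonal groups -/
private theorem fin2_orth {F V W : Type} [Field F] [AddCommGroup V] [Module F V] [AddCommGroup W]
    [Module F W] (Q : QuadraticForm F V) (R : QuadraticForm F W) (e : V ≃ₗ[F] W)
    (he : ∀ x, R (e x) = Q x) : Nonempty (OrthGroup Q ≃* OrthGroup R) := by
  have hes : ∀ x, Q (e.symm x) = R x := by
    intro x
    rw [← he, LinearEquiv.apply_symm_apply]
  refine ⟨?_⟩
  exact
    { toFun := fun g => ⟨(e.symm.trans (g.1 : V ≃ₗ[F] V)).trans e, by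
        intro x
        show R (e (g.1 (e.symm x))) = R x
        rw [he, g.2, hes]⟩
      invFun := fun g => ⟨(e.trans (g.1 : W ≃ₗ[F] W)).trans e.symm, by
        intro x
        show Q (e.symm (g.1 (e x))) = Q x
        rw [hes, g.2, he]⟩
      left_inv := by
        intro g
        apply Subtype.ext
        apply LinearEquiv.ext
        intro x
        show e.symm (e (g.1 (e.symm (e x)))) = g.1 x
        rw [e.symm_apply_apply, e.symm_apply_apply]
      right_inv := by
        intro g
        apply Subtype.ext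
        apply LinearEquiv.ext
        intro x
        show e (e.symm (g.1 (e (e.symm x)))) = g.1 x
        rw [e.apply_symm_apply, e.apply_symm_apply]
      map_mul' := by
        intro g h
        apply Subtype.ext
        apply LinearEquiv.ext
        intro x
        show e (g.1 (h.1 (e.symm x))) = e (g.1 (e.symm (e (h.1 (e.symm x)))))
        rw [e.symm_apply_apply] }

private theorem fin2_sub {F V : Type} [Field F] [AddCommGroup V] [Module F V]
    [FiniteDimensional F V] (W : Submodule F V) {n : ℕ} (h : n ≤ finrank F W) :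
    ∃ L : Submodule F V, L ≤ W ∧ finrank F L = n := by
  obtain ⟨f, hf⟩ := exists_linearIndependent_of_le_finrank h
  have hf' : LinearIndependent F (fun i => (f i : V)) := hf.map' W.subtype (Submodule.ker_subtype W)
  refine ⟨Submodule.span F (Set.range fun i => (f i : V)), ?_, ?_⟩
  · rw [Submodule.span_le]
    rintro _ ⟨i, rfl⟩
    exact (f i).2
  · rw [finrank_span_eq_card hf', Fintype.card_fin]

theorem ge_three (F : Type) [Field F] [Finite F] (r : ℕ) (hr : r % 4 = 2) (hr4 : 4 ≤ r)
    (V : Type) [AddCommGroup V] [Module F V] [FiniteDimensional F V] (Q : QuadraticForm F V)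
    (hQ : ∀ x, (∀ y, polar Q x y = 0) → x = 0) (hV : finrank F V = 2 * r) (hs : Split Q) :
    3 ≤ gammaU (POmegaForm Q) := by
  obtain ⟨Φ, hΦ⟩ := Split.iso (nondeg_of hQ) hs hV
  obtain ⟨e⟩ := fin2_orth (plusForm F r) Q Φ hΦ
  obtain ⟨e1⟩ := derived_congr e
  obtain ⟨e2⟩ := modCenter_congr e1
  have h1 := gammaU_congr e2
  have h2 := three_le_gammaU_POmegaPlus F r hr hr4
  rw [show gammaU (POmegaForm Q) = gammaU (POmegaPlus F r) from h1.symm]
  exact h2

/-- `Q` has no totally singular subspace of dimension `r` -/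
def NotSplit {F V : Type} [Field F] [AddCommGroup V] [Module F V] (Q : QuadraticForm F V) (r : ℕ) : Prop :=
  ∀ W : Submodule F V, (∀ x ∈ W, Q x = 0) → finrank F W < r

theorem all (r : ℕ) (hr : 4 ≤ r) : ∃ q₀ : ℕ, ∀ (F : Type) [Field F] [Finite F], q₀ ≤ Nat.card F →
    (Odd r → Odd (Nat.card F) → gammaU (PSp F r) = 2) ∧
    (Even r → ∀ (V : Type) [AddCommGroup V] [Module F V] [FiniteDimensional F V] (Q : QuadraticForm F V),
      (∀ x, (∀ y, polar Q x y = 0) → x = 0) → finrank F V = 2 * r →
      (gammaU (POmegaForm Q) = 2 ↔ Odd (Nat.card F) ∧ (NotSplit Q r ∨ 4 ∣ r))) := by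
  obtain ⟨q1, h1⟩ := main r hr
  have h2 : ∃ q₀ : ℕ, 4 ∣ r → ∀ (F : Type) [Field F] [Finite F],
      Odd (Nat.card F) → q₀ ≤ Nat.card F →
      ∀ (V : Type) [AddCommGroup V] [Module F V] [FiniteDimensional F V] (Q : QuadraticForm F V),
        (∀ x, (∀ y, polar Q x y = 0) → x = 0) → finrank F V = 2 * r → Split Q →
        gammaU (POmegaForm Q) = 2 := by
    by_cases h4 : 4 ∣ r
    · obtain ⟨m, rfl⟩ := h4
      obtain ⟨q2, h2⟩ := plus_main (2 * m) (by omega) ⟨m, by ring⟩
      refine ⟨q2, fun _ F _ _ hodd hq V _ _ _ Q hQ hV hs => h2 F hodd hq V Q hQ ?_ hs⟩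
      rw [hV]
      ring
    · exact ⟨0, fun h => absurd h h4⟩
  obtain ⟨q2, h2⟩ := h2
  refine ⟨max q1 q2, ?_⟩
  intro F _ _ hq
  have g1 : q1 ≤ Nat.card F := (le_max_left _ _).trans hq
  have g2 : q2 ≤ Nat.card F := (le_max_right _ _).trans hq
  refine ⟨fun hr1 hodd => (h1 F hodd g1).1 hr1, ?_⟩
  intro hre V _ _ _ Q hQ hV
  have hspl : ¬ NotSplit Q r → Split Q := by
    intro hn
    unfold NotSplit at hn
    push Not at hn
    obtain ⟨W, hW, hWr⟩ := hn
    obtain ⟨L, hL, hLr⟩ := fin2_sub W hWr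
    exact ⟨L, fun x hx => hW x (hL hx), by rw [hLr, hV]⟩
  constructor
  · intro hg
    have hodd : Odd (Nat.card F) := by
      by_contra hodd
      rw [Nat.not_odd_iff_even] at hodd
      have hch : CharP F 2 := by
        have := Fintype.ofFinite F
        have h3 : ringChar F = 2 := by
          rw [FiniteField.even_card_iff_char_two, ← Nat.card_eq_fintype_card]
          exact Nat.even_iff.1 hodd
        exact ringChar.of_eq h3
      have h3 := three_le_gammaU_POmegaForm Q hQ r hre hr hV
      have h6 := h3.trans_eq hg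
      norm_num at h6
    refine ⟨hodd, ?_⟩
    by_contra hcon
    rw [not_or] at hcon
    have h4 : r % 4 = 2 := by
      have h5 := Nat.even_iff.1 hre
      have h6 := hcon.2
      omega
    have h5 := ge_three F r h4 hr V Q hQ hV (hspl hcon.1)
    have h6 := h5.trans_eq hg
    norm_num at h6
  · rintro ⟨hodd, h⟩
    by_cases hn : NotSplit Q r
    · exact (h1 F hodd g1).2 hre V Q hQ hV hn
    · exact h2 (h.resolve_left hn) F hodd g2 V Q hQ hV (hspl hn)

end Pool.Agent.H32.UP
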