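import Pool.Agent.H32.UP.SepA
import Pool.Agent.H32.UP.Tor
import Pool.Agent.H32.UP.Bk

/-!
# UP.SepB : an element of the torus that separates all weights

`Sep2 v`: the products `σ a (s i) σ b (s j)`, `s = ss v = (v, v ^ 4 (fr v) ^ 2)`, determine the unordered pair `{(i, a), (j, b)}` unless the product is `1`, and then `i = j`, `b = a + n`.

PROOF of `exists_sep2`. `θ` from `torus_gen` (order `q^n + 1`, `n = D.r`, `q = Nat.card F`), `v = θ ^ 2`. With `N x = ∑ t : Fin n, x t * q ^ t` one has `σ a (ss v i) = θ ^ (2 * N (fv n i a))` (zpow): `σ a v = v ^ (q ^ a.val)` (`fr_pow_apply` as in UD.Sepx: induction) and `q ^ n ≡ -1` modulo the order of `θ`, so `σ a v = θ ^ (2 * N (ev n a))` (if `a.val < n` the position is `a.val` with sign `+`,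
otherwise `a.val - n` with sign `-`), and `σ a (v ^ 4 * fr v ^ 2) = (σ a v) ^ 4 * (σ (a + 1) v) ^ 2`. The hypothesis gives `(q^n + 1) ∣ 2 N x`, `x = fv n i a + fv n j b - fv n k c - fv n l d`, `∑ |x t| ≤ 24` (`fv_bound`), `|2 N x| ≤ 48 q^(n-1) < q^n + 1` as `q ≥ 48`, so `N x = 0`. As `|x t| ≤ 24 < q`, `x = 0` (`digits`: `x 0 ≡ 0` modulo `q`, so `x 0 = 0`, divide by `q`, induction on `n`). Then `fv_sep`.
See UD/Sepx.lean (`σ_sq`, `exists_sep`) for the same argument with one block.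
`dist`: `σ i (s 0) = s 0` gives with the pair `(0, i), (0, 0)` against `(0, 0), (0, 0)`: `i = 0` (the third alternative would give `0 = n`). `weight`: if `s i = σ c (s j)` and `(i, j, c) ≠ (i, i, 0)` use `bar (s j) = (s j)⁻¹`: `s i * σ (c + n) (s j) = 1 = s 0 * σ n (s 0)`; `Sep2` with `(i, 0), (j, c + n)` against `(0, 0), (0, n)`: every alternative gives `i = j` and `c + n = n`.
-/

set_option autoImplicit false
set_option linter.unusedSectionVars false

namespace Pool.Agent.H32.UP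

open Module Pool.Agent.H32.UD

/-- small digits are determined -/
theorem digits (q : ℤ) (n : ℕ) (x : Fin n → ℤ) (hx : ∀ t, |x t| < q) (h : ∑ t, x t * q ^ (t : ℕ) = 0) :
    ∀ t, x t = 0 := by
  induction n with
  | zero => exact fun t => t.elim0
  | succ n ih =>
    have hq : 0 < q := lt_of_le_of_lt (abs_nonneg _) (hx 0)
    rw [Fin.sum_univ_succ] at h
    have e : ∑ t : Fin n, x t.succ * q ^ ((t.succ : Fin (n + 1)) : ℕ) =
        q * ∑ t : Fin n, x t.succ * q ^ (t : ℕ) := by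
      rw [Finset.mul_sum]
      refine Finset.sum_congr rfl fun t _ => ?_
      rw [Fin.val_succ, pow_succ]
      ring
    rw [e, Fin.val_zero, pow_zero, mul_one] at h
    have h0 : x 0 = 0 := by
      refine Int.eq_zero_of_abs_lt_dvd (m := q) ?_ (hx 0)
      exact ⟨-∑ t : Fin n, x t.succ * q ^ (t : ℕ), by linarith⟩
    rw [h0, zero_add] at h
    have h1 := (mul_eq_zero.1 h).resolve_left hq.ne'
    have h2 := ih (fun t => x t.succ) (fun t => hx t.succ) h1
    intro t
    refine Fin.cases h0 h2 t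

namespace Da

variable {F E : Type} [Field F] [Field E] [Algebra F E] (D : Da F E) [Finite F] [Finite E]

/-- separation of the weights -/
def Sep2 (v : E) : Prop :=
  ∀ (i j k l : Fin 2) (a b c d : ZMod (2 * D.r)),
    D.σ a (ss F v i) * D.σ b (ss F v j) = D.σ c (ss F v k) * D.σ d (ss F v l) →
    (i = k ∧ a = c ∧ j = l ∧ b = d) ∨ (i = l ∧ a = d ∧ j = k ∧ b = c) ∨
      (i = j ∧ b = a + (D.r : ZMod (2 * D.r)) ∧ k = l ∧ d = c + (D.r : ZMod (2 * D.r)))

private theorem sepB_fr_pow (n : ℕ) (x : E) : (fr F E ^ n) x = x ^ (Nat.card F ^ n) := by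
  induction n with
  | zero => simp
  | succ n ih =>
    rw [pow_succ', AlgEquiv.mul_apply, ih, fr_apply, ← pow_mul, ← pow_succ]

/-- the number with the digits `x` -/
private def sepB_N (q : ℤ) (n : ℕ) (x : Fin n → ℤ) : ℤ := ∑ t, x t * q ^ (t : ℕ)

private theorem sepB_N_ev (q : ℤ) (n : ℕ) [NeZero (2 * n)] (a : ZMod (2 * n)) :
    sepB_N q n (ev n a) = if a.val < n then q ^ a.val else -q ^ (a.val - n) := by
  have ha : a.val < 2 * n := ZMod.val_lt a
  unfold sepB_N
  by_cases h : a.val < n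
  · rw [if_pos h, Finset.sum_eq_single ⟨a.val, h⟩]
    · unfold ev
      rw [if_pos rfl, one_mul]
    · intro t _ ht
      have h1 : a.val ≠ (t : ℕ) := fun h2 => ht (Fin.ext h2.symm)
      unfold ev
      rw [if_neg h1, if_neg (by omega), zero_mul]
    · intro h2
      exact absurd (Finset.mem_univ _) h2
  · have h3 : a.val - n < n := by omega
    rw [if_neg h, Finset.sum_eq_single ⟨a.val - n, h3⟩]
    · unfold ev
      have h4 : a.val ≠ a.val - n := by omega
      have h5 : a.val = n + (a.val - n) := by omega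
      rw [if_neg h4, if_pos h5]
      ring
    · intro t _ ht
      have h1 : a.val - n ≠ (t : ℕ) := fun h2 => ht (Fin.ext h2.symm)
      have h2 := t.2
      unfold ev
      rw [if_neg (by omega), if_neg (by omega), zero_mul]
    · intro h2
      exact absurd (Finset.mem_univ _) h2

private theorem sepB_σ_sq {θ : Eˣ} (hθ : θ ^ (Nat.card F ^ D.r + 1) = 1) (a : ZMod (2 * D.r)) :
    D.σ a ((θ : E) ^ 2) =
      ((θ ^ (2 * sepB_N (Nat.card F : ℤ) D.r (ev D.r a)) : Eˣ) : E) := by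
  have h0 : D.σ a ((θ : E) ^ 2) = ((θ ^ (2 * Nat.card F ^ a.val) : Eˣ) : E) := by
    unfold σ
    rw [sepB_fr_pow, ← pow_mul, Units.val_pow_eq_pow_val]
  rw [h0, sepB_N_ev]
  congr 1
  split_ifs with h
  · rw [← zpow_natCast]
    congr 1
  · have h1 : a.val = D.r + (a.val - D.r) := by omega
    have h2 : θ ^ (Nat.card F ^ D.r) = θ⁻¹ := by
      rw [pow_succ] at hθ
      exact eq_inv_of_mul_eq_one_left hθ
    have h3 : 2 * Nat.card F ^ a.val = Nat.card F ^ D.r * (2 * Nat.card F ^ (a.val - D.r)) := by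
      conv_lhs => rw [h1, pow_add]
      ring
    rw [h3, pow_mul, h2, inv_pow, ← zpow_natCast, ← zpow_neg]
    congr 1
    push_cast
    ring

private theorem sepB_ss {θ : Eˣ} (hθ : θ ^ (Nat.card F ^ D.r + 1) = 1) (i : Fin 2)
    (a : ZMod (2 * D.r)) : D.σ a (ss F ((θ : E) ^ 2) i) =
      ((θ ^ (2 * sepB_N (Nat.card F : ℤ) D.r (fv D.r i a)) : Eˣ) : E) := by
  have hi : i = 0 ∨ i = 1 := by fin_cases i <;> simp
  rcases hi with rfl | rfl
  · have e1 : ss F ((θ : E) ^ 2) 0 = (θ : E) ^ 2 := rfl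
    have e2 : fv D.r 0 a = ev D.r a := by
      funext t
      unfold fv
      rw [if_pos rfl]
    rw [e1, e2]
    exact D.sepB_σ_sq hθ a
  · have e1 : ss F ((θ : E) ^ 2) 1 = ((θ : E) ^ 2) ^ 4 * fr F E ((θ : E) ^ 2) ^ 2 := rfl
    have e2 : sepB_N (Nat.card F : ℤ) D.r (fv D.r 1 a) =
        4 * sepB_N (Nat.card F : ℤ) D.r (ev D.r a) +
          2 * sepB_N (Nat.card F : ℤ) D.r (ev D.r (a + 1)) := by
      unfold sepB_N
      rw [Finset.mul_sum, Finset.mul_sum, ← Finset.sum_add_distrib]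
      refine Finset.sum_congr rfl fun t _ => ?_
      unfold fv
      rw [if_neg (by decide)]
      ring
    have e3 : D.σ a (fr F E ((θ : E) ^ 2)) = D.σ (a + 1) ((θ : E) ^ 2) := by
      rw [σ_add_apply, σ_one]
    rw [e1, map_mul, map_pow (D.σ a) ((θ : E) ^ 2) 4, map_pow (D.σ a) (fr F E ((θ : E) ^ 2)) 2, e3,
      D.sepB_σ_sq hθ, D.sepB_σ_sq hθ, e2, ← Units.val_pow_eq_pow_val, ← Units.val_pow_eq_pow_val, ← Units.val_mul]
    congr 1
    rw [← zpow_natCast, ← zpow_natCast, ← zpow_mul, ← zpow_mul, ← zpow_add]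
    congr 1
    push_cast
    ring

theorem exists_sep2 (hq : 48 ≤ Nat.card F) :
    ∃ θ : Eˣ, (θ : E) * D.bar θ = 1 ∧ D.Sep2 ((θ : E) ^ 2) ∧
      (∀ u : Eˣ, (u : E) * D.bar u = 1 → ∃ n : ℕ, u = θ ^ n) ∧
      orderOf θ = Nat.card F ^ D.r + 1 := by
  obtain ⟨θ, h1, h2, h3⟩ := D.torus_gen
  refine ⟨θ, h1, ?_, h3, h2⟩
  have hθ : θ ^ (Nat.card F ^ D.r + 1) = 1 := by
    rw [← h2]
    exact pow_orderOf_eq_one θ
  have hQ : (48 : ℤ) ≤ (Nat.card F : ℤ) := by exact_mod_cast hq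
  have hr := D.two_le
  intro i j k l a b c d h
  rw [D.sepB_ss hθ, D.sepB_ss hθ, D.sepB_ss hθ, D.sepB_ss hθ, ← Units.val_mul,
    ← Units.val_mul] at h
  have h' := Units.ext h
  rw [← zpow_add, ← zpow_add] at h'
  set q : ℤ := (Nat.card F : ℤ) with hqdef
  let x : Fin D.r → ℤ := fun t =>
    fv D.r i a t + fv D.r j b t - fv D.r k c t - fv D.r l d t
  have hNx : sepB_N q D.r x = sepB_N q D.r (fv D.r i a) + sepB_N q D.r (fv D.r j b) -
      sepB_N q D.r (fv D.r k c) - sepB_N q D.r (fv D.r l d) := by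
    unfold sepB_N
    rw [← Finset.sum_add_distrib, ← Finset.sum_sub_distrib, ← Finset.sum_sub_distrib]
    refine Finset.sum_congr rfl fun t _ => ?_
    show (fv D.r i a t + fv D.r j b t - fv D.r k c t - fv D.r l d t) * q ^ (t : ℕ) = _
    ring
  have h4 : θ ^ (2 * sepB_N q D.r x) = 1 := by
    have e : 2 * sepB_N q D.r x = (2 * sepB_N q D.r (fv D.r i a) + 2 * sepB_N q D.r (fv D.r j b)) -
        (2 * sepB_N q D.r (fv D.r k c) + 2 * sepB_N q D.r (fv D.r l d)) := by
      rw [hNx]; ring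
    rw [e, zpow_sub, h', mul_inv_cancel]
  have h5 := orderOf_dvd_iff_zpow_eq_one.2 h4
  rw [h2] at h5
  have hsum : ∑ t, |x t| ≤ 24 := by
    have e1 : ∑ t, |x t| ≤ ∑ t, (|fv D.r i a t| + |fv D.r j b t| + |fv D.r k c t| +
        |fv D.r l d t|) := by
      refine Finset.sum_le_sum fun t _ => ?_
      show |fv D.r i a t + fv D.r j b t - fv D.r k c t - fv D.r l d t| ≤ _
      have f1 := abs_sub (fv D.r i a t + fv D.r j b t - fv D.r k c t) (fv D.r l d t)
      have f2 := abs_sub (fv D.r i a t + fv D.r j b t) (fv D.r k c t)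
      have f3 := abs_add_le (fv D.r i a t) (fv D.r j b t)
      linarith
    rw [Finset.sum_add_distrib, Finset.sum_add_distrib, Finset.sum_add_distrib] at e1
    have b1 := fv_bound D.r i a
    have b2 := fv_bound D.r j b
    have b3 := fv_bound D.r k c
    have b4 := fv_bound D.r l d
    linarith
  have hqp : 0 < q ^ (D.r - 1) := pow_pos (by linarith) _
  have habs : |sepB_N q D.r x| ≤ 24 * q ^ (D.r - 1) := by
    unfold sepB_N
    calc |∑ t, x t * q ^ (t : ℕ)| ≤ ∑ t, |x t * q ^ (t : ℕ)| := Finset.abs_sum_le_sum_abs _ _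
      _ ≤ ∑ t, |x t| * q ^ (D.r - 1) := by
          refine Finset.sum_le_sum fun t _ => ?_
          rw [abs_mul, abs_of_nonneg (pow_nonneg (by linarith : (0 : ℤ) ≤ q) _)]
          refine mul_le_mul_of_nonneg_left (pow_le_pow_right₀ (by linarith) ?_) (abs_nonneg _)
          have := t.2
          omega
      _ = (∑ t, |x t|) * q ^ (D.r - 1) := by rw [Finset.sum_mul]
      _ ≤ 24 * q ^ (D.r - 1) := mul_le_mul_of_nonneg_right hsum hqp.le
  have hlt : |2 * sepB_N q D.r x| < ((Nat.card F ^ D.r + 1 : ℕ) : ℤ) := by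
    have e5 : ((Nat.card F ^ D.r + 1 : ℕ) : ℤ) = q * q ^ (D.r - 1) + 1 := by
      push_cast
      rw [← hqdef, ← pow_succ', Nat.sub_add_cancel (by omega)]
    have e7 : 48 * q ^ (D.r - 1) ≤ q * q ^ (D.r - 1) := mul_le_mul_of_nonneg_right hQ hqp.le
    rw [e5, abs_mul, abs_of_pos (by norm_num : (0 : ℤ) < 2)]
    linarith
  have h6 := Int.eq_zero_of_abs_lt_dvd h5 hlt
  have h7 : ∑ t, x t * q ^ (t : ℕ) = 0 := by
    have : sepB_N q D.r x = 0 := by linarith
    exact this
  have h8 := digits q D.r x (fun t => by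
    have e1 : |x t| ≤ ∑ t, |x t| :=
      Finset.single_le_sum (f := fun t => |x t|) (fun _ _ => abs_nonneg _) (Finset.mem_univ t)
    linarith) h7
  refine fv_sep D.r hr i j k l a b c d fun t => ?_
  have h9 : fv D.r i a t + fv D.r j b t - fv D.r k c t - fv D.r l d t = 0 := h8 t
  linarith

/-- the coordinates of the torus element have norm one -/
theorem ss_norm {u : E} (hu : u * D.bar u = 1) (i : Fin 2) : ss F u i * D.bar (ss F u i) = 1 := by
  have hi : i = 0 ∨ i = 1 := by fin_cases i <;> simp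
  rcases hi with rfl | rfl
  · exact hu
  · show u ^ 4 * fr F E u ^ 2 * D.bar (u ^ 4 * fr F E u ^ 2) = 1
    have h1 : D.bar (fr F E u) = fr F E (D.bar u) := by
      rw [← D.σ_one]
      exact D.bar_σ 1 u
    have h2 : fr F E u * fr F E (D.bar u) = 1 := by
      rw [← map_mul, hu, map_one]
    rw [map_mul, map_pow D.bar _ 4, map_pow D.bar _ 2, h1]
    calc u ^ 4 * fr F E u ^ 2 * (D.bar u ^ 4 * fr F E (D.bar u) ^ 2)
        = (u * D.bar u) ^ 4 * (fr F E u * fr F E (D.bar u)) ^ 2 := by ring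
      _ = 1 := by rw [hu, h2, one_pow, one_pow, one_mul]

theorem su_val (u : Eˣ) (i : Fin 2) : ((su F u i : Eˣ) : E) = ss F (u : E) i := by
  have hi : i = 0 ∨ i = 1 := by fin_cases i <;> simp
  rcases hi with rfl | rfl
  · rfl
  · show ((u ^ 4 * Units.map (fr F E : E →* E) u ^ 2 : Eˣ) : E) = (u : E) ^ 4 * fr F E (u : E) ^ 2
    rw [Units.val_mul, Units.val_pow_eq_pow_val, Units.val_pow_eq_pow_val]
    rfl

/-- the weight of `E_ij Fz c` is trivial only for the torus -/
theorem weight {u : E} (hu : u * D.bar u = 1) (hs : D.Sep2 u) (i j : Fin 2) (c : ZMod (2 * D.r))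
    (h : ss F u i = D.σ c (ss F u j)) : i = j ∧ c = 0 := by
  have h1 : D.σ 0 (ss F u i) * D.σ (c + (D.r : ZMod (2 * D.r))) (ss F u j) = 1 := by
    rw [σ_zero_apply, add_comm c, σ_add_apply, ← h]
    exact D.ss_norm hu i
  have h2 : D.σ 0 (ss F u 0) * D.σ (D.r : ZMod (2 * D.r)) (ss F u 0) = 1 := by
    rw [σ_zero_apply]
    exact D.ss_norm hu 0
  rcases hs i j 0 0 0 (c + (D.r : ZMod (2 * D.r))) 0 (D.r : ZMod (2 * D.r)) (h1.trans h2.symm) with
    ⟨e1, _, e3, e4⟩ | ⟨_, e2, _, _⟩ | ⟨e1, e2, _, _⟩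
  · exact ⟨e1.trans e3.symm, by simpa using e4⟩
  · exact absurd e2.symm D.r_ne_zero
  · exact ⟨e1, by simpa using e2⟩

theorem M2_comm_torus {u : E} (hu : u * D.bar u = 1) (hs : D.Sep2 u) (X : Module.End F (Fin 2 → E))
    (hX : X * M2 F (ss F u) = M2 F (ss F u) * X) : ∃ z : Fin 2 → E, X = M2 F z := by
  refine ⟨fun i => D.co2 X i i 0, D.ext_co2 fun i j c => ?_⟩
  rw [co2_M2]
  by_cases h : i = j ∧ c = 0
  · rw [if_pos h, ← h.1, h.2]
  · rw [if_neg h]
    have h1 := congrArg (fun Y => D.co2 Y i j c) hX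
    simp only [co2_mul_M2, co2_M2_mul] at h1
    have h2 : D.co2 X i j c * (D.σ c (ss F u j) - ss F u i) = 0 := by linear_combination h1
    rcases mul_eq_zero.1 h2 with h3 | h3
    · exact h3
    · exact absurd (D.weight hu hs i j c (sub_eq_zero.1 h3).symm) h

end Da

end Pool.Agent.H32.UP
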