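import Pool.Agent.H32.UP.Adj2
import Pool.Agent.H32.UP.SepB

/-!
# UP.Grd2 : a space stable under the torus is graded and `E`-stable

PROOF. Same scheme as UD/Grd.lean (copy the helper lemmas `pow_memW`, `aeval_memW`, `aeval_L`, `aut_σ`, `θ_gen`). Let `s = ss u`, `w (i,j,c) = s i / σ c (s j)`. `Ad X = M2 s * X * M2 s⁻¹` has coefficients `w (i,j,c) * co2 X i j c` (`co2_M2_mul`, `co2_mul_M2`), so for `P ∈ F[X]` the operator `P (Ad)` has coefficients `P(w (i,j,c)) * co2 X i j c` and maps `W` to `W`, `𝔤2` to `𝔤2`.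
As `s j` has norm one (`ss_norm`) `(σ c (s j))⁻¹ = σ (c + r) (s j)`, `w (i,j,c) = s i * σ (c + r) (s j)`. Let `t = (i,j,c)` with `¬ (i = j ∧ c = 0)`. (a) `σ a (w t) = w t'`, `t' = (i',j',c')`: `Sep2` for `(i, a), (j, a + c + r)` against `(i', 0), (j', c' + r)` gives: `a = 0`, `t' = t`; or `i = j'`, `a = c' + r`, `j = i'`, `a + c + r = 0`: `t' = (j, i, -c)`; or (third alternative) `i = j`, `c = 0`, excluded.
(b) so `σ a (w t) = w t` only for `a = 0` (in the second case `i = j`, `c = -c`, `c ≠ 0` so `c = r`, `a = c' + r = 0`); hence `F[w t] = E` (`θ_gen`). (c) As in `exists_P` there is `P ∈ F[X]` with `P(w t) = e` and `P(w t') = 0` for `t' ≠ t, (j, i, -c)` (product of the minimal polynomials of the other `w t'`; also for `t' = (k,k,0)`, `w t' = 1`).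
Then `Y = P(Ad) X ∈ W`, `Y ∈ 𝔤2`, has coefficient `e * co2 X i j c` at `t`, `- σ (-c) (bar (e * co2 X i j c))` at `(j, i, -c)` by `mem_iff2`, `0` elsewhere. If `t ≠ (j, i, -c)` then `Y = S2 i j c (e * co2 X i j c)` (`ext_co2`, `co2_S2`). If `t = (j, i, -c)` then `i = j`, `c = r`, `S2_diag_r`: the element is `0`.
-/

set_option autoImplicit false
set_option linter.unusedSectionVars false

namespace Pool.Agent.H32.UP

open Module Pool.Agent.H32.UD

open Polynomial

private theorem grd2_half {r : ℕ} (hr : 0 < r) {c : ZMod (2 * r)} (hc : c ≠ 0) (h : c + c = 0) :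
    c = (r : ZMod (2 * r)) := by
  have : NeZero (2 * r) := ⟨by omega⟩
  have h1 : c = ((c.val : ℕ) : ZMod (2 * r)) := (ZMod.natCast_zmod_val c).symm
  have h2 : ((c.val + c.val : ℕ) : ZMod (2 * r)) = 0 := by
    rw [Nat.cast_add, ← h1, h]
  rw [ZMod.natCast_eq_zero_iff] at h2
  have h3 := ZMod.val_lt c
  have h4 : c.val ≠ 0 := fun h0 => hc ((ZMod.val_eq_zero c).1 h0)
  obtain ⟨t, ht⟩ := h2
  have h5 : c.val = r := by
    have h6 : c.val = r * t := by
      have : 2 * c.val = 2 * (r * t) := by rw [← mul_assoc, ← ht]; ring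
      omega
    have h7 : t < 2 := by
      by_contra h8
      push Not at h8
      have : r * 2 ≤ r * t := Nat.mul_le_mul_left _ h8
      omega
    have h8 : t ≠ 0 := by
      rintro rfl
      omega
    have h9 : t = 1 := by omega
    rw [h6, h9, mul_one]
  rw [h1, h5]

private theorem grd2_pow {E' : Type} {F : Type} [Field F] [AddCommGroup E'] [Module F E']
    (A : Module.End F E') (W : Submodule F E') (hW : ∀ X ∈ W, A X ∈ W) (n : ℕ) (X : E')
    (hX : X ∈ W) : (A ^ n) X ∈ W := by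
  induction n with
  | zero => simpa using hX
  | succ n ih =>
    rw [pow_succ', Module.End.mul_apply]
    exact hW _ ih

private theorem grd2_aeval {E' : Type} {F : Type} [Field F] [AddCommGroup E'] [Module F E']
    (A : Module.End F E') (W : Submodule F E') (hW : ∀ X ∈ W, A X ∈ W) (P : F[X]) (X : E')
    (hX : X ∈ W) : (aeval A P) X ∈ W := by
  rw [aeval_eq_sum_range, LinearMap.sum_apply]
  exact W.sum_mem fun i _ => W.smul_mem _ (grd2_pow A W hW i X hX)

private theorem grd2_L {E' E : Type} {F : Type} [Field F] [AddCommGroup E'] [Module F E']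
    [Field E] [Algebra F E] (A : Module.End F E') (L : E' →ₗ[F] E) (θ : E)
    (h : ∀ X, L (A X) = θ * L X) (P : F[X]) (X : E') :
    L ((aeval A P) X) = aeval θ P * L X := by
  have h1 : ∀ n X, L ((A ^ n) X) = θ ^ n * L X := by
    intro n
    induction n with
    | zero => intro X; simp
    | succ n ih =>
      intro X
      rw [pow_succ', Module.End.mul_apply, h, ih, pow_succ']
      ring
  rw [aeval_eq_sum_range, aeval_eq_sum_range, LinearMap.sum_apply, map_sum, Finset.sum_mul]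
  refine Finset.sum_congr rfl fun i _ => ?_
  rw [LinearMap.smul_apply, map_smul, h1, smul_mul_assoc]

namespace Da

variable {F E : Type} [Field F] [Field E] [Algebra F E] (D : Da F E) [Finite F] [Finite E]

private theorem grd2_aut (g : E ≃ₐ[F] E) : ∃ i, g = D.σ i := by
  have hf : FiniteDimensional F E := inferInstance
  have hi : Function.Injective D.σ := fun c d h => D.σ_inj h
  have hcard : Nat.card (ZMod (2 * D.r)) = Nat.card (E ≃ₐ[F] E) := by
    rw [IsGalois.card_aut_eq_finrank, D.fin, Nat.card_zmod]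
  have hb : Function.Bijective D.σ := (Nat.bijective_iff_injective_and_card D.σ).2 ⟨hi, hcard⟩
  obtain ⟨i, hi⟩ := hb.2 g
  exact ⟨i, hi.symm⟩

private theorem grd2_gen (θ : E) (h : ∀ i, D.σ i θ = θ → i = 0) (b : E) :
    ∃ Q : F[X], aeval θ Q = b := by
  have hf : FiniteDimensional F E := inferInstance
  have htop : IntermediateField.adjoin F {θ} = ⊤ := by
    rw [Field.primitive_element_iff_algHom_eq_of_eval F E (fun x => Normal.splits inferInstance x)
      θ (AlgHom.id F E)]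
    intro ψ hψ
    have hbij : Function.Bijective ψ := Algebra.IsAlgebraic.algHom_bijective ψ
    obtain ⟨i, hi⟩ := D.grd2_aut (AlgEquiv.ofBijective ψ hbij)
    have h1 : D.σ i θ = θ := by
      rw [← hi]
      exact hψ.symm
    have h2 := h i h1
    ext x
    have h3 : (AlgEquiv.ofBijective ψ hbij) x = x := by
      rw [hi, h2, σ_zero_apply]
    exact h3.symm
  have h1 : b ∈ (IntermediateField.adjoin F {θ}).toSubalgebra := by
    rw [htop]
    trivial
  rw [IntermediateField.adjoin_simple_toSubalgebra_of_isAlgebraic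
    (Algebra.IsAlgebraic.isAlgebraic θ), Algebra.adjoin_singleton_eq_range_aeval] at h1
  exact h1

/-- the weights -/
private noncomputable def grd2_w (u : E) (t : Fin 2 × Fin 2 × ZMod (2 * D.r)) : E :=
  ss F u t.1 / D.σ t.2.2 (ss F u t.2.1)

private theorem grd2_w_eq {u : E} (hu : u * D.bar u = 1) (i j : Fin 2) (c : ZMod (2 * D.r)) :
    D.grd2_w u (i, j, c) = ss F u i * D.σ (c + (D.r : ZMod (2 * D.r))) (ss F u j) := by
  have h1 := D.ss_norm hu j
  have h2 : D.σ c (ss F u j) * D.σ (c + (D.r : ZMod (2 * D.r))) (ss F u j) = 1 := by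
    rw [σ_add_apply, ← bar_eq, ← map_mul, h1, map_one]
  show ss F u i / D.σ c (ss F u j) = _
  rw [div_eq_iff (left_ne_zero_of_mul_eq_one h2), mul_assoc,
    mul_comm (D.σ (c + (D.r : ZMod (2 * D.r))) (ss F u j)), h2, mul_one]

private theorem grd2_conj {u : E} (hu : u * D.bar u = 1) (hs : D.Sep2 u) {i j i' j' : Fin 2}
    {c c' a : ZMod (2 * D.r)} (hc : ¬ (i = j ∧ c = 0))
    (h : D.σ a (D.grd2_w u (i, j, c)) = D.grd2_w u (i', j', c')) :
    (a = 0 ∧ i' = i ∧ j' = j ∧ c' = c) ∨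
      (j' = i ∧ i' = j ∧ c' = -c ∧ a = c' + (D.r : ZMod (2 * D.r))) := by
  have hr := D.two_r
  rw [D.grd2_w_eq hu, D.grd2_w_eq hu, map_mul, ← σ_add_apply] at h
  have h1 := hs i j i' j' a (a + (c + (D.r : ZMod (2 * D.r)))) 0 (c' + (D.r : ZMod (2 * D.r)))
    (by rw [σ_zero_apply]; exact h)
  rcases h1 with ⟨h1, h2, h3, h4⟩ | ⟨h1, h2, h3, h4⟩ | ⟨h1, h2, h3, h4⟩
  · left
    refine ⟨h2, h1.symm, h3.symm, ?_⟩
    linear_combination h2 - h4
  · right
    refine ⟨h1.symm, h3.symm, ?_, h2⟩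
    linear_combination h4 - h2 - hr
  · exfalso
    apply hc
    refine ⟨h1, ?_⟩
    linear_combination h2

private theorem grd2_stab {u : E} (hu : u * D.bar u = 1) (hs : D.Sep2 u) {i j : Fin 2}
    {c a : ZMod (2 * D.r)} (hc : ¬ (i = j ∧ c = 0))
    (h : D.σ a (D.grd2_w u (i, j, c)) = D.grd2_w u (i, j, c)) : a = 0 := by
  rcases D.grd2_conj hu hs hc h with ⟨h1, _⟩ | ⟨h1, _, h3, h4⟩
  · exact h1
  · have hr := D.two_r
    have hc0 : c ≠ 0 := fun h0 => hc ⟨h1.symm, h0⟩
    have h5 : c + c = 0 := by linear_combination h3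
    have h6 := grd2_half (by have := D.two_le; omega) hc0 h5
    rw [h4, h6]
    exact hr

private theorem grd2_P {u : E} (hu : u * D.bar u = 1) (hs : D.Sep2 u) {i j : Fin 2}
    {c : ZMod (2 * D.r)} (hc : ¬ (i = j ∧ c = 0)) (e : E) :
    ∃ P : F[X], aeval (D.grd2_w u (i, j, c)) P = e ∧
      ∀ t, t ≠ (i, j, c) → t ≠ (j, i, -c) → aeval (D.grd2_w u t) P = 0 := by
  classical
  have hf : FiniteDimensional F E := inferInstance
  set N : F[X] := ∏ t ∈ Finset.univ.filter
    (fun t : Fin 2 × Fin 2 × ZMod (2 * D.r) => t ≠ (i, j, c) ∧ t ≠ (j, i, -c)),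
    minpoly F (D.grd2_w u t) with hN
  have hNc : aeval (D.grd2_w u (i, j, c)) N ≠ 0 := by
    rw [hN, map_prod, Finset.prod_ne_zero_iff]
    rintro ⟨i', j', c'⟩ ht h0
    rw [Finset.mem_filter] at ht
    have h1 := isConjRoot_of_aeval_eq_zero
      (Algebra.IsIntegral.isIntegral (R := F) (D.grd2_w u (i', j', c'))) h0
    obtain ⟨g, hg⟩ := isConjRoot_iff_exists_algEquiv.1 h1
    obtain ⟨a, rfl⟩ := D.grd2_aut g
    rcases D.grd2_conj hu hs hc hg with ⟨_, h2, h3, h4⟩ | ⟨h2, h3, h4, _⟩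
    · exact ht.2.1 (by rw [h2, h3, h4])
    · exact ht.2.2 (by rw [h2, h3, h4])
  obtain ⟨Q, hQ⟩ := D.grd2_gen (D.grd2_w u (i, j, c)) (fun a ha => D.grd2_stab hu hs hc ha)
    (e / aeval (D.grd2_w u (i, j, c)) N)
  refine ⟨Q * N, ?_, ?_⟩
  · rw [map_mul, hQ, div_mul_cancel₀ _ hNc]
  · intro t h1 h2
    rw [map_mul, hN, map_prod]
    apply mul_eq_zero_of_right
    exact Finset.prod_eq_zero (i := t) (by simp [h1, h2]) (minpoly.aeval F _)

/-- the coefficient as a linear map -/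
private noncomputable def grd2_co (i j : Fin 2) (c : ZMod (2 * D.r)) :
    Module.End F (Fin 2 → E) →ₗ[F] E where
  toFun X := D.co2 X i j c
  map_add' X Y := D.co2_add X Y i j c
  map_smul' a X := D.co2_smul a X i j c

/-- the adjoint action -/
private noncomputable def grd2_Ad (F : Type) {E : Type} [Field F] [Field E] [Algebra F E]
    (v : Fin 2 → Eˣ) : Module.End F (Module.End F (Fin 2 → E)) where
  toFun X := M2 F (fun i => ((v i : Eˣ) : E)) * X * M2 F (fun i => (((v i)⁻¹ : Eˣ) : E))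
  map_add' X Y := by rw [mul_add, add_mul]
  map_smul' a X := by rw [mul_smul_comm, smul_mul_assoc]; rfl

theorem grade2 (u : Eˣ) (hu : (u : E) * D.bar u = 1) (hs : D.Sep2 (u : E))
    (W : Submodule F (Module.End F (Fin 2 → E)))
    (hW : ∀ X ∈ W, M2 F (fun i => ((su F u i : Eˣ) : E)) * X * M2 F (fun i => (((su F u i)⁻¹ : Eˣ) : E)) ∈ W)
    (X : Module.End F (Fin 2 → E)) (hXW : X ∈ W) (hX : X ∈ D.𝔤2) (i j : Fin 2) (c : ZMod (2 * D.r))
    (hc : ¬ (i = j ∧ c = 0)) (e : E) : D.S2 i j c (e * D.co2 X i j c) ∈ W := by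
  classical
  obtain ⟨P, hP1, hP2⟩ := D.grd2_P hu hs hc e
  have hco : ∀ k l d (Z : Module.End F (Fin 2 → E)), D.grd2_co k l d (grd2_Ad F (su F u) Z) =
      D.grd2_w (u : E) (k, l, d) * D.grd2_co k l d Z := by
    intro k l d Z
    show D.co2 (M2 F (fun i => ((su F u i : Eˣ) : E)) * Z *
      M2 F (fun i => (((su F u i)⁻¹ : Eˣ) : E))) k l d =
      ss F (u : E) k / D.σ d (ss F (u : E) l) * D.co2 Z k l d
    rw [co2_mul_M2, co2_M2_mul, Units.val_inv_eq_inv_val, map_inv₀, su_val, su_val]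
    ring
  have hY : ∀ k l d, D.co2 ((aeval (grd2_Ad F (su F u)) P) X) k l d =
      aeval (D.grd2_w (u : E) (k, l, d)) P * D.co2 X k l d := fun k l d =>
    grd2_L (grd2_Ad F (su F u)) (D.grd2_co k l d) _ (hco k l d) P X
  have hYW : (aeval (grd2_Ad F (su F u)) P) X ∈ W := grd2_aeval (grd2_Ad F (su F u)) W hW P X hXW
  have hYg : (aeval (grd2_Ad F (su F u)) P) X ∈ D.𝔤2 := by
    refine grd2_aeval (grd2_Ad F (su F u)) D.𝔤2 ?_ P X hX
    intro Z hZ
    have h1 : mu2 F (su F u) ∈ D.G2 := D.mu2_mem_G2 fun i => by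
      rw [su_val]
      exact D.ss_norm hu i
    have h2 := D.conj_mem_𝔤2 h1 hZ
    rw [← map_inv] at h2
    exact h2
  generalize (aeval (grd2_Ad F (su F u)) P) X = Y at hY hYW hYg
  have hYc : D.co2 Y i j c = e * D.co2 X i j c := by rw [hY, hP1]
  have hYm : D.co2 Y j i (-c) = -(D.σ (-c) (D.bar (e * D.co2 X i j c))) := by
    rw [(D.mem_iff2 Y).1 hYg i j c, hYc]
  have hY0 : ∀ k l d, ((k, l, d) : Fin 2 × Fin 2 × ZMod (2 * D.r)) ≠ (i, j, c) →
      ((k, l, d) : Fin 2 × Fin 2 × ZMod (2 * D.r)) ≠ (j, i, -c) → D.co2 Y k l d = 0 := by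
    intro k l d h1 h2
    rw [hY, hP2 _ h1 h2, zero_mul]
  by_cases hcc : ((i, j, c) : Fin 2 × Fin 2 × ZMod (2 * D.r)) = (j, i, -c)
  · rw [Prod.mk.injEq, Prod.mk.injEq] at hcc
    obtain ⟨h1, _, h3⟩ := hcc
    have hc0 : c ≠ 0 := fun h0 => hc ⟨h1, h0⟩
    have h5 : c + c = 0 := by linear_combination h3
    have h6 := grd2_half (by have := D.two_le; omega) hc0 h5
    rw [← h1, h6, S2_diag_r]
    exact W.zero_mem
  · have h1 : D.S2 i j c (e * D.co2 X i j c) = Y := by
      apply D.ext_co2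
      intro k l d
      rw [co2_S2]
      by_cases hd : k = i ∧ l = j ∧ d = c
      · rw [if_pos hd, if_neg, sub_zero]
        · rw [hd.1, hd.2.1, hd.2.2, hYc]
        · rintro ⟨g1, g2, g3⟩
          exact hcc (Prod.ext (hd.1.symm.trans g1)
            (Prod.ext (hd.2.1.symm.trans g2) (hd.2.2.symm.trans g3)))
      · rw [if_neg hd, zero_sub]
        by_cases hd' : k = j ∧ l = i ∧ d = -c
        · rw [if_pos hd', hd'.1, hd'.2.1, hd'.2.2, hYm]
        · rw [if_neg hd', neg_zero]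
          refine (hY0 k l d ?_ ?_).symm
          · rw [Ne, Prod.mk.injEq, Prod.mk.injEq]
            exact hd
          · rw [Ne, Prod.mk.injEq, Prod.mk.injEq]
            exact hd'
    rw [h1]
    exact hYW

end Da

end Pool.Agent.H32.UP
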