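import Pool.Agent.H32.UP.Grd2

/-!
# UP.LieC2 : the types contained in a Lie algebra stable under the torus

PROOF. (Compare UD/LieC.lean.) `swap_ty`: `S2_swap`. `ty_of`: `grade2` with `e = a / co2 X i j c`. For the three bracket lemmas put `S2 i j c a = E_ij (a F c) + E_ji (a' F (-c))`, `a' = - σ (-c) (bar a)` (`Bl_sub`-free form: `S2` unfolded, `Fz_M`, `Bl_neg`) and use `Bl_term`; all products of elementary terms are elementary, read off one coefficient with `co2_Bl`: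
`br0`: the coefficient of `S2 0 0 c 1 * S2 0 1 d 1 - S2 0 1 d 1 * S2 0 0 c 1` at `(0, 1, c + d)` is `1` (the second term with first index 0 and second index 1 sits at `d - c ≠ c + d` because `2 c ≠ 0`; `2 c = 0` only for `c = 0, r`). `br1`: the coefficient of `S2 0 1 c 1 * S2 1 1 d 1 - ..` at `(0, 1, c + d)` is `1` (`c - d ≠ c + d`).
`br2`: for `(0,1,c)` and `(1,0,d)` the coefficient at `(0,0,c+d)` of the bracket is `1` (the other term of the block `(0,0)` sits at `- c - d ≠ c + d`), similarly at `(1,1,d+c)` from the bracket of `(1,0,d)` and `(0,1,c)`. Then `ty_of`. (`ZMod` fact: `x + x = 0` implies `x = 0` or `x = r`, see `lc_two` in UD/LieC.lean.)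
`tor_ty`: for `w` with `bar w = - w` the bracket `[S2 0 1 b y, S2 0 1 b z]` with `z = 1`, `y = w / 2` equals `M2 ![-w, σ (-b) w]`: in general it is `- E_00 (y bar z - z bar y) - E_11 (σ (-b) (bar y z - bar z y))`.
-/

set_option autoImplicit false
set_option linter.unusedSectionVars false

namespace Pool.Agent.H32.UP

open Module Pool.Agent.H32.UD

namespace Da

variable {F E : Type} [Field F] [Field E] [Algebra F E] (D : Da F E) [Finite F] [Finite E]

omit [Finite F] [Finite E] in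
private theorem lieC2_two {j : ZMod (2 * D.r)} (h : j + j = 0) : j = 0 ∨ j = (D.r : ZMod (2 * D.r)) := by
  have h1 : j = ((j.val : ℕ) : ZMod (2 * D.r)) := (ZMod.natCast_zmod_val j).symm
  have hlt := ZMod.val_lt j
  have h2 : ((j.val + j.val : ℕ) : ZMod (2 * D.r)) = 0 := by
    rw [Nat.cast_add, ← h1, h]
  rw [ZMod.natCast_eq_zero_iff] at h2
  obtain ⟨k, hk⟩ := h2
  have h4 := D.two_le
  have h3 : j.val = D.r * k := by
    have : 2 * j.val = 2 * (D.r * k) := by rw [← mul_assoc, ← hk]; ring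
    omega
  have hk2 : k < 2 := by
    by_contra hc
    have : D.r * 2 ≤ D.r * k := Nat.mul_le_mul_left _ (by omega)
    omega
  have hk3 : k = 0 ∨ k = 1 := by omega
  rcases hk3 with hk3 | hk3
  · left
    rw [h1, h3, hk3, mul_zero, Nat.cast_zero]
  · right
    rw [h1, h3, hk3, mul_one]

omit [Finite F] [Finite E] in
private theorem lieC2_ne {j : ZMod (2 * D.r)} (h0 : j ≠ 0) (hr : j ≠ (D.r : ZMod (2 * D.r))) : j + j ≠ 0 := by
  intro h
  rcases D.lieC2_two h with h1 | h1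
  · exact h0 h1
  · exact hr h1

/-- the second coefficient of `S2 i j c a` -/
private noncomputable def lieC2_p (c : ZMod (2 * D.r)) (a : E) : E := -(D.σ (-c) (D.bar a))

private theorem lieC2_S (i j : Fin 2) (c : ZMod (2 * D.r)) (a : E) :
    D.S2 i j c a = Bl i j (M F a * D.Fz c) + Bl j i (M F (D.lieC2_p c a) * D.Fz (-c)) := by
  have e1 : M F (D.lieC2_p c a) * D.Fz (-c) = -(D.Fz (-c) * M F (D.bar a)) := by
    rw [D.Fz_M]
    ext x
    change -(D.σ (-c) (D.bar a)) * D.σ (-c) x = -(D.σ (-c) (D.bar a) * D.σ (-c) x)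
    rw [neg_mul]
  rw [e1, Bl_neg, S2, sub_eq_add_neg]

private theorem lieC2_mul (i j k l m n : Fin 2) (a b : E) (c d e : ZMod (2 * D.r)) :
    D.co2 (Bl i j (M F a * D.Fz c) * Bl k l (M F b * D.Fz d)) m n e =
      if j = k ∧ m = i ∧ n = l ∧ e = c + d then a * D.σ c b else 0 := by
  rw [D.Bl_term]
  by_cases h : j = k
  · rw [if_pos h, D.co2_Bl]
    simp only [h, true_and]
  · rw [if_neg h, D.co2_zero]
    simp only [h, false_and, if_false]

private theorem lieC2_co (i j k l m n : Fin 2) (a b : E) (c d e : ZMod (2 * D.r)) :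
    D.co2 (D.S2 i j c a * D.S2 k l d b) m n e =
      (if j = k ∧ m = i ∧ n = l ∧ e = c + d then a * D.σ c b else 0) +
      (if j = l ∧ m = i ∧ n = k ∧ e = c + -d then a * D.σ c (D.lieC2_p d b) else 0) +
      ((if i = k ∧ m = j ∧ n = l ∧ e = -c + d then D.lieC2_p c a * D.σ (-c) b else 0) +
        (if i = l ∧ m = j ∧ n = k ∧ e = -c + -d then D.lieC2_p c a * D.σ (-c) (D.lieC2_p d b) else 0)) := by
  rw [D.lieC2_S, D.lieC2_S, add_mul, mul_add, mul_add, D.co2_add, D.co2_add, D.co2_add, D.lieC2_mul,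
    D.lieC2_mul, D.lieC2_mul, D.lieC2_mul]

private theorem lieC2_p_one (c : ZMod (2 * D.r)) : D.lieC2_p c 1 = -1 := by
  rw [lieC2_p, map_one, map_one]

/-- the types contained in `W` -/
def Ty2 (W : Submodule F (Module.End F (Fin 2 → E))) (i j : Fin 2) : Set (ZMod (2 * D.r)) :=
  {c | ∀ a, D.S2 i j c a ∈ W}

/-- the hypotheses on `W` -/
structure Good2 (W : Submodule F (Module.End F (Fin 2 → E))) (u : Eˣ) : Prop where
  le : W ≤ D.𝔤2
  norm : (u : E) * D.bar u = 1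
  sep : D.Sep2 (u : E)
  ad : ∀ X ∈ W, M2 F (fun i => ((su F u i : Eˣ) : E)) * X * M2 F (fun i => (((su F u i)⁻¹ : Eˣ) : E)) ∈ W
  tor : ∀ e : E, D.bar e = -e → M2 F (dl F e) ∈ W
  lie : ∀ X ∈ W, ∀ Y ∈ W, X * Y - Y * X ∈ W

variable {D}

theorem Good2.swap_ty {W : Submodule F (Module.End F (Fin 2 → E))} {u : Eˣ} (h : D.Good2 W u) {i j : Fin 2}
    {c : ZMod (2 * D.r)} (hc : c ∈ D.Ty2 W i j) : -c ∈ D.Ty2 W j i := by
  intro a
  rw [S2_swap]
  exact W.neg_mem (hc _)

theorem Good2.ty_of {W : Submodule F (Module.End F (Fin 2 → E))} {u : Eˣ} (h : D.Good2 W u)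
    {X : Module.End F (Fin 2 → E)} (hX : X ∈ W) {i j : Fin 2} {c : ZMod (2 * D.r)} (hc : ¬ (i = j ∧ c = 0))
    (hne : D.co2 X i j c ≠ 0) : c ∈ D.Ty2 W i j := by
  intro a
  have h1 := D.grade2 u h.norm h.sep W h.ad X hX (h.le hX) i j c hc (a / D.co2 X i j c)
  rwa [div_mul_cancel₀ _ hne] at h1

theorem Good2.br0 {W : Submodule F (Module.End F (Fin 2 → E))} {u : Eˣ} (h : D.Good2 W u)
    {c d : ZMod (2 * D.r)} (hc0 : c ≠ 0) (hcr : c ≠ (D.r : ZMod (2 * D.r))) (hc : c ∈ D.Ty2 W 0 0)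
    (hd : d ∈ D.Ty2 W 0 1) : c + d ∈ D.Ty2 W 0 1 := by
  have h2 := D.lieC2_ne hc0 hcr
  have n1 : ¬ (c + d = -c + d) := fun e => h2 (by linear_combination e)
  refine h.ty_of (h.lie _ (hc 1) _ (hd 1)) (fun e => zero_ne_one e.1) ?_
  rw [D.co2_sub, D.lieC2_co, D.lieC2_co]
  simp [n1]

theorem Good2.br1 {W : Submodule F (Module.End F (Fin 2 → E))} {u : Eˣ} (h : D.Good2 W u)
    {c d : ZMod (2 * D.r)} (hc0 : c ≠ 0) (hcr : c ≠ (D.r : ZMod (2 * D.r))) (hc : c ∈ D.Ty2 W 1 1)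
    (hd : d ∈ D.Ty2 W 0 1) : d + c ∈ D.Ty2 W 0 1 := by
  have h2 := D.lieC2_ne hc0 hcr
  have n1 : ¬ (d + c = d + -c) := fun e => h2 (by linear_combination e)
  refine h.ty_of (h.lie _ (hd 1) _ (hc 1)) (fun e => zero_ne_one e.1) ?_
  rw [D.co2_sub, D.lieC2_co, D.lieC2_co]
  simp [n1]

theorem Good2.br2 {W : Submodule F (Module.End F (Fin 2 → E))} {u : Eˣ} (h : D.Good2 W u)
    {c d : ZMod (2 * D.r)} (hc : c ∈ D.Ty2 W 0 1) (hd : d ∈ D.Ty2 W 0 1) (h0 : c - d ≠ 0)
    (hr : c - d ≠ (D.r : ZMod (2 * D.r))) : c - d ∈ D.Ty2 W 0 0 ∧ c - d ∈ D.Ty2 W 1 1 := by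
  have h2 := D.lieC2_ne h0 hr
  have n1 : ¬ (c - d = d + -c) := fun e => h2 (by linear_combination e)
  have n2 : ¬ (c - d = -c + d) := fun e => h2 (by linear_combination e)
  have n3 : c - d = c + -d := sub_eq_add_neg c d
  have n4 : c - d = -d + c := by ring
  constructor
  · refine h.ty_of (h.lie _ (hc 1) _ (hd 1)) (fun e => h0 e.2) ?_
    rw [D.co2_sub, D.lieC2_co, D.lieC2_co]
    simp [n1, ← n3, D.lieC2_p_one]
  · refine h.ty_of (h.lie _ (hc 1) _ (hd 1)) (fun e => h0 e.2) ?_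
    rw [D.co2_sub, D.lieC2_co, D.lieC2_co]
    simp [n2, ← n4, D.lieC2_p_one]

theorem Good2.tor_ty {W : Submodule F (Module.End F (Fin 2 → E))} {u : Eˣ} (h : D.Good2 W u)
    {b : ZMod (2 * D.r)} (hb : b ∈ D.Ty2 W 0 1) (w : E) (hw : D.bar w = -w) :
    M2 F ![-w, D.σ (-b) w] ∈ W := by
  have h1 := h.lie _ (hb (w / 2)) _ (hb 1)
  have e : D.S2 0 1 b (w / 2) * D.S2 0 1 b 1 - D.S2 0 1 b 1 * D.S2 0 1 b (w / 2) =
      M2 F ![-w, D.σ (-b) w] := by
    have h2 : (2 : E) ≠ 0 := by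
      have h3 := D.two_ne
      intro h4
      apply h3
      apply (algebraMap F E).injective
      rw [map_ofNat, map_zero, h4]
    have hb2 : D.bar (w / 2) = -(w / 2) := by
      rw [map_div₀, hw, map_ofNat, neg_div]
    have hp : D.lieC2_p b (w / 2) = D.σ (-b) (w / 2) := by
      rw [lieC2_p, hb2, map_neg, neg_neg]
    have hs : w / 2 + w / 2 = w := by
      rw [← add_div, ← two_mul, mul_div_cancel_left₀ _ h2]
    have hs2 : D.σ (-b) (w / 2) + D.σ (-b) (w / 2) = D.σ (-b) w := by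
      rw [← map_add, hs]
    apply D.ext_co2
    intro m n e
    rw [D.co2_sub, D.lieC2_co, D.lieC2_co, D.co2_M2, hp, D.lieC2_p_one, map_one, map_one, map_neg, map_neg,
      map_one, map_one, D.σ_apply_neg]
    generalize D.σ (-b) (w / 2) = x at hs2 ⊢
    generalize D.σ (-b) w = y at hs2 ⊢
    fin_cases m <;> fin_cases n
    · by_cases he : e = 0
      · simp [he]
        linear_combination -hs
      · simp [he]
    · simp
    · simp
    · by_cases he : e = 0
      · simp [he]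
        linear_combination hs2
      · simp [he]
  rwa [e] at h1

end Da

end Pool.Agent.H32.UP
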