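import Pool.Agent.H32.UP.Fib2
import Pool.Agent.H32.UP.SepB

/-!
# UP.Low2 : lower bound for the order of `H`

PROOF. Adapt UD/Low.lean, with `N = finrank F 𝔤2 ≤ (4 r)^2` in place of `nn r` (the constants for all `N ≤ 16 r ^ 2` are added up: `choose C hC using fibre2 r`, `choose q0 hq0 using many_nondeg2`, take sums over `Finset.range (16 r ^ 2 + 1)`; `finrank F (End_F (Fin 2 → E)) = (4 r)^2`). `Wsp2 H = 𝔤2` is spanned by the elements `h M2 (dl e) h⁻¹`, so there is a basis of this form, `h : Fin N → ..`, `e : Fin N → E`.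
Let `X` = the set of `t : Fin N → T2` with independent `dfac2`; `card T2^N ≤ 2 card X` (`many_nondeg2`). The map `X → H`, `t ↦ ∏ h i (mu2 (su (t i))) (h i)⁻¹` (in `H` by `HasT2`; as an endomorphism the `List` product of `fac2`: `mu2_coe`, `su_val`) has fibres of size `≤ C q^(r N - N)` (`fibre2`). So `q^N ≤ 2^(N+1) C card H`.
-/

set_option autoImplicit false
set_option linter.unusedSectionVars false

namespace Pool.Agent.H32.UP

open Module Pool.Agent.H32.UD

/-- the coercion from automorphisms to endomorphisms is multiplicative -/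
private def low2_psi (F E : Type) [Field F] [Field E] [Algebra F E] :
    ((Fin 2 → E) ≃ₗ[F] (Fin 2 → E)) →* Module.End F (Fin 2 → E) where
  toFun g := (g : Module.End F (Fin 2 → E))
  map_one' := rfl
  map_mul' _ _ := rfl

private theorem low2_prod {F E : Type} [Field F] [Field E] [Algebra F E] [Finite F] [Finite E] {n : ℕ}
    (h : Fin n → ((Fin 2 → E) ≃ₗ[F] (Fin 2 → E))) (t : Fin n → Eˣ) :
    (((List.ofFn fun i => h i * mu2 F (su F (t i)) * (h i)⁻¹).prod :
        (Fin 2 → E) ≃ₗ[F] (Fin 2 → E)) : Module.End F (Fin 2 → E)) =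
      (List.ofFn fun i => fac2 (h i) ((t i : Eˣ) : E)).prod := by
  have h1 := map_list_prod (low2_psi F E) (List.ofFn fun i => h i * mu2 F (su F (t i)) * (h i)⁻¹)
  rw [List.map_ofFn] at h1
  refine h1.trans ?_
  congr 2
  funext i
  have h2 : (fun j => ((su F (t i) j : Eˣ) : E)) = ss F ((t i : Eˣ) : E) := by
    funext j
    exact Da.su_val (t i) j
  show ((h i : Module.End F (Fin 2 → E)) * ((mu2 F (su F (t i)) :
    (Fin 2 → E) ≃ₗ[F] (Fin 2 → E)) : Module.End F (Fin 2 → E)) *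
      (((h i)⁻¹ : (Fin 2 → E) ≃ₗ[F] (Fin 2 → E)) : Module.End F (Fin 2 → E))) = _
  rw [mu2_coe, h2]
  rfl

private theorem low2_basis {F E : Type} [Field F] [Field E] [Algebra F E] [Finite F] [Finite E] (D : Da F E)
    (H : Subgroup ((Fin 2 → E) ≃ₗ[F] (Fin 2 → E))) (hW : D.Wsp2 H = D.𝔤2) :
    ∃ (h : Fin (finrank F D.𝔤2) → ((Fin 2 → E) ≃ₗ[F] (Fin 2 → E))) (e : Fin (finrank F D.𝔤2) → E),
      (∀ i, h i ∈ H) ∧ (∀ i, D.bar (e i) = -e i) ∧
      LinearIndependent F (fun i => (h i : Module.End F (Fin 2 → E)) * M2 F (dl F (e i)) *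
        (((h i)⁻¹ : (Fin 2 → E) ≃ₗ[F] (Fin 2 → E)) : Module.End F (Fin 2 → E))) := by
  classical
  have hFE : FiniteDimensional F (Fin 2 → E) := Module.Finite.of_finite
  obtain ⟨b, hbS, hbspan, hbli⟩ := exists_linearIndependent F {Y : Module.End F (Fin 2 → E) |
    ∃ h ∈ H, ∃ e : E, D.bar e = -e ∧ Y = (h : Module.End F (Fin 2 → E)) * M2 F (dl F e) *
      ((h⁻¹ : (Fin 2 → E) ≃ₗ[F] (Fin 2 → E)) : Module.End F (Fin 2 → E))}
  have hfin : FiniteDimensional F (Module.End F (Fin 2 → E)) := inferInstance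
  have hbf : b.Finite := hbli.setFinite
  let _ : Fintype b := hbf.fintype
  have hcard : Fintype.card b = finrank F D.𝔤2 := by
    have h1 := finrank_span_set_eq_card hbli
    have h2 : Submodule.span F b = D.𝔤2 := by
      rw [hbspan, ← hW]
      rfl
    rw [h2, Set.toFinset_card] at h1
    exact h1.symm
  let eq : Fin (finrank F D.𝔤2) ≃ b := (Fintype.equivFinOfCardEq hcard).symm
  have hx : ∀ i : Fin (finrank F D.𝔤2), ∃ (h : (Fin 2 → E) ≃ₗ[F] (Fin 2 → E)) (e : E), h ∈ H ∧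
      D.bar e = -e ∧ ((eq i : b) : Module.End F (Fin 2 → E)) =
        (h : Module.End F (Fin 2 → E)) * M2 F (dl F e) *
          ((h⁻¹ : (Fin 2 → E) ≃ₗ[F] (Fin 2 → E)) : Module.End F (Fin 2 → E)) := by
    intro i
    obtain ⟨h, hh, e, he, hY⟩ := hbS (eq i).2
    exact ⟨h, e, hh, he, hY⟩
  choose h e hh he hY using hx
  refine ⟨h, e, hh, he, ?_⟩
  have h3 : (fun i => (h i : Module.End F (Fin 2 → E)) * M2 F (dl F (e i)) *
      (((h i)⁻¹ : (Fin 2 → E) ≃ₗ[F] (Fin 2 → E)) : Module.End F (Fin 2 → E))) =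
      (fun y : b => (y : Module.End F (Fin 2 → E))) ∘ eq := by
    funext i
    exact (hY i).symm
  rw [h3]
  exact hbli.comp _ eq.injective

private theorem low2_dim {F E : Type} [Field F] [Field E] [Algebra F E] [Finite F] [Finite E] (D : Da F E) :
    finrank F D.𝔤2 ≤ 16 * D.r ^ 2 := by
  have hFE : FiniteDimensional F (Fin 2 → E) := Module.Finite.of_finite
  have hfin : FiniteDimensional F (Module.End F (Fin 2 → E)) := inferInstance
  have h1 := Submodule.finrank_le D.𝔤2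
  have hE : FiniteDimensional F E := Module.Finite.of_finite
  have h2 : finrank F (Fin 2 → E) = 4 * D.r := by
    rw [Module.finrank_pi_fintype, Fin.sum_univ_two, D.fin]
    ring
  have h3 : finrank F (Module.End F (Fin 2 → E)) = 16 * D.r ^ 2 := by
    have h4 := Module.finrank_linearMap F F (Fin 2 → E) (Fin 2 → E)
    rw [h2] at h4
    refine h4.trans ?_
    ring
  rw [h3] at h1
  exact h1

theorem lower2 (r : ℕ) : ∃ C q0 : ℕ, ∀ (F E : Type) [Field F] [Field E] [Algebra F E] [Finite F] [Finite E]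
    (D : Da F E), D.r = r → q0 ≤ Nat.card F → ∀ H : Subgroup ((Fin 2 → E) ≃ₗ[F] (Fin 2 → E)), H ≤ D.G2 →
    D.HasT2 H → D.Wsp2 H = D.𝔤2 → Nat.card F ^ finrank F D.𝔤2 ≤ C * Nat.card H := by
  classical
  choose C hC using fibre2 r
  choose q0 hq0 using many_nondeg2
  refine ⟨∑ n ∈ Finset.range (16 * r ^ 2 + 1), 2 ^ (n + 1) * C n,
    ∑ n ∈ Finset.range (16 * r ^ 2 + 1), q0 n, ?_⟩
  intro F E _ _ _ _ _ D hr hq H hH hT hW
  subst hr
  have hdim := low2_dim D
  have hb := low2_basis D H hW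
  have hC1 : 2 ^ (finrank F D.𝔤2 + 1) * C (finrank F D.𝔤2) ≤
      ∑ n ∈ Finset.range (16 * D.r ^ 2 + 1), 2 ^ (n + 1) * C n :=
    Finset.single_le_sum (f := fun n => 2 ^ (n + 1) * C n) (fun _ _ => Nat.zero_le _)
      (Finset.mem_range.2 (by omega))
  have hq1' : q0 (finrank F D.𝔤2) ≤ Nat.card F :=
    le_trans (Finset.single_le_sum (f := q0) (fun _ _ => Nat.zero_le _)
      (Finset.mem_range.2 (by omega))) hq
  refine le_trans ?_ (Nat.mul_le_mul_right _ hC1)
  clear hC1 hq hdim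
  generalize finrank F D.𝔤2 = n at hb hq1' ⊢
  obtain ⟨h, e, hh, he, hli⟩ := hb
  have hmany := hq0 n F E D hq1' h e hli
  have hfib := hC n F E D rfl h e he
  let X := {t : Fin n → D.T2 //
      LinearIndependent F (fun i => dfac2 h e (fun j => ((t j : Eˣ) : E)) i)}
  have hmem : ∀ t : Fin n → D.T2,
      (List.ofFn fun i => h i * mu2 F (su F ((t i : Eˣ))) * (h i)⁻¹).prod ∈ H := by
    intro t
    refine H.list_prod_mem fun x hx => ?_
    obtain ⟨i, rfl⟩ := List.mem_ofFn.1 hx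
    refine H.mul_mem (H.mul_mem (hh i) ?_) (H.inv_mem (hh i))
    obtain ⟨v, hv, hv2⟩ := (t i).2
    rw [hv2]
    exact hT v hv
  let Φ : X → H := fun t => ⟨_, hmem t.1⟩
  have key : ∀ (g : H) (t : X), Φ t = g → (List.ofFn fun i => fac2 (h i) ((t.1 i : Eˣ) : E)).prod =
      ((g : (Fin 2 → E) ≃ₗ[F] (Fin 2 → E)) : Module.End F (Fin 2 → E)) := by
    intro g t ht
    rw [← low2_prod h (fun i => ((t.1 i : D.T2) : Eˣ))]
    exact congrArg (fun x : H => ((x : (Fin 2 → E) ≃ₗ[F] (Fin 2 → E)) : Module.End F (Fin 2 → E))) ht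
  have hFH : Finite H := Finite.of_injective
    (fun x : H => ((x : (Fin 2 → E) ≃ₗ[F] (Fin 2 → E)) : (Fin 2 → E) → (Fin 2 → E)))
    (fun x y hxy => Subtype.ext (LinearEquiv.ext fun z => congrFun hxy z))
  let _ : Fintype H := Fintype.ofFinite H
  let _ : Fintype D.T2 := Fintype.ofFinite _
  let _ : Fintype X := Fintype.ofFinite X
  have hcX : Nat.card X ≤ (C n * Nat.card F ^ (D.r * n - n)) * Nat.card H := by
    have h1 := Finset.card_le_mul_card_image_of_maps_to (f := Φ) (s := Finset.univ)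
      (t := Finset.univ) (fun _ _ => Finset.mem_univ _) (C n * Nat.card F ^ (D.r * n - n)) (by
        intro g _
        refine le_trans ?_ (hfib ((g : (Fin 2 → E) ≃ₗ[F] (Fin 2 → E)) : Module.End F (Fin 2 → E)))
        rw [← Fintype.card_subtype, ← Nat.card_eq_fintype_card]
        refine Nat.card_le_card_of_injective
          (fun t : {t : X // Φ t = g} => (⟨t.1.1, t.1.2, key g t.1 t.2⟩ : {t : Fin n → D.T2 //
            LinearIndependent F (fun i => dfac2 h e (fun j => ((t j : Eˣ) : E)) i) ∧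
            (List.ofFn fun i => fac2 (h i) ((t i : Eˣ) : E)).prod =
              ((g : (Fin 2 → E) ≃ₗ[F] (Fin 2 → E)) : Module.End F (Fin 2 → E))})) ?_
        intro t t' htt
        exact Subtype.ext (Subtype.ext (congrArg (fun x => x.1) htt)))
    rw [Finset.card_univ, Finset.card_univ, ← Nat.card_eq_fintype_card, ← Nat.card_eq_fintype_card] at h1
    exact h1
  have hq1 : 0 < Nat.card F := Nat.card_pos
  have hr1 : n ≤ D.r * n := Nat.le_mul_of_pos_left n (by have := D.two_le; omega)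
  have h2 := D.card_T2
  have h3 : (Nat.card F ^ D.r) ^ n ≤ 2 ^ n * Nat.card D.T2 ^ n := by
    rw [← mul_pow, h2]
    exact Nat.pow_le_pow_left (Nat.le_succ _) n
  have h4 : Nat.card F ^ (D.r * n - n) * Nat.card F ^ n = (Nat.card F ^ D.r) ^ n := by
    rw [← pow_add, ← pow_mul]
    congr 1
    omega
  have h5 : Nat.card F ^ (D.r * n - n) * Nat.card F ^ n ≤
      Nat.card F ^ (D.r * n - n) * (2 ^ (n + 1) * C n * Nat.card H) := by
    rw [h4]
    calc (Nat.card F ^ D.r) ^ n ≤ 2 ^ n * Nat.card D.T2 ^ n := h3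
      _ ≤ 2 ^ n * (2 * Nat.card X) := Nat.mul_le_mul_left _ hmany
      _ ≤ 2 ^ n * (2 * ((C n * Nat.card F ^ (D.r * n - n)) * Nat.card H)) :=
        Nat.mul_le_mul_left _ (Nat.mul_le_mul_left _ hcX)
      _ = Nat.card F ^ (D.r * n - n) * (2 ^ (n + 1) * C n * Nat.card H) := by
        rw [pow_succ]
        ring
  exact Nat.le_of_mul_le_mul_left h5 (pow_pos hq1 _)

end Pool.Agent.H32.UP
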