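import Pool.Agent.H32.UP.Tor
import Pool.Agent.H32.UP.Bas2
import Pool.Agent.H24.UD.Fin
import Pool.Agent.H49.UDN.ESplit
import Pool.Agent.H49.UDN.EMain

/-!
# UP.Orth2 : the isometry group of the two-block model is the orthogonal group of plus type

PROOF. (Compare `DQ_apply`, `polar_DQ`, `G_eq_orth`, `bounded_index` in H24/UD/Fin.lean, `iso_orth` in UD/IsoO.lean.) `Q2 x = 2⁻¹ B2 x x`, `polar Q2 = B2` (`B2_symm`). `bounded_index2`: `orth_index` (H24/UD/Fin.lean) with `q0 = C.factorial + 1`, dimension `4 r ≥ 8`, `B2_nondeg`. `split2`: `norm_onto` with `e = -1` gives `t` with `t * bar t = -1`; `L = {v | v 1 = t * v 0}` is totally singular, of dimension `2 r`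
(`v ↦ v 0` is an isomorphism onto `E`), `finrank F (Fin 2 → E) = 4 r`. `iso_plus`: `Split.iso` (H49/UDN/ESplit.lean) for `Q` and for `Q2` gives an isometry `V ≃ (Fin 2 → E)`, conjugate. `exists_da`: as `exists_dat` in UD/Exd.lean (`FiniteField.Extension F p (2 * r)`; `2 ≠ 0` in a finite field of odd order).
-/

set_option autoImplicit false
set_option linter.unusedSectionVars false

namespace Pool.Agent.H32.UP

open Module QuadraticMap Pool.Agent.H32.UD Pool.Agent.H49.UDN

namespace Da

variable {F E : Type} [Field F] [Field E] [Algebra F E] [Finite F] [Finite E] (D : Da F E)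

/-- the quadratic form of `D.B2` -/
noncomputable def Q2 : QuadraticForm F (Fin 2 → E) := (2⁻¹ : F) • D.B2.toQuadraticMap

theorem Q2_apply (x : Fin 2 → E) : D.Q2 x = 2⁻¹ * D.B2 x x := by
  simp [Q2]

theorem polar_Q2 (x y : Fin 2 → E) : polar D.Q2 x y = D.B2 x y := by
  have h2 := D.two_ne
  have h3 := D.B2_symm x y
  unfold polar
  rw [Q2_apply, Q2_apply, Q2_apply]
  simp only [map_add, LinearMap.add_apply]
  rw [h3]
  field_simp
  ring

theorem G2_eq_orth : D.G2 = orth D.Q2 := by
  ext g
  rw [D.mem_G2, mem_orth]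
  constructor
  · intro h x
    rw [Q2_apply, Q2_apply, h]
  · intro h x y
    rw [← polar_Q2 D, ← polar_Q2 D]
    exact polar_of_isom D.Q2 (fun a b => map_add g a b) h x y

theorem fin2 : finrank F (Fin 2 → E) = 2 * (2 * D.r) := by
  have hfd : Module.Finite F E := inferInstance
  rw [Module.finrank_pi_fintype, Fin.sum_univ_two, D.fin]
  ring

theorem split2 : Split D.Q2 := by
  obtain ⟨t, ht⟩ := D.norm_onto (-1 : Eˣ) (by simp)
  have ht' : (t : E) * D.bar t = -1 := by
    rw [ht]
    simp
  let l : E →ₗ[F] (Fin 2 → E) := LinearMap.pi fun i => if i = 0 then LinearMap.id else M F (t : E)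
  have l0 : ∀ x, l x 0 = x := fun x => rfl
  have l1 : ∀ x, l x 1 = t * x := fun x => rfl
  have hl : Function.Injective l := by
    intro x y h
    have h1 := congrFun h 0
    rwa [l0, l0] at h1
  refine ⟨LinearMap.range l, ?_, ?_⟩
  · rintro _ ⟨x, rfl⟩
    rw [Q2_apply, B2_apply, Fin.sum_univ_two, l0, l1]
    have h1 : (t : E) * x * D.bar (t * x) = -(x * D.bar x) := by
      rw [map_mul]
      linear_combination (x * D.bar x) * ht'
    rw [h1, map_neg, add_neg_cancel, mul_zero]
  · rw [LinearMap.finrank_range_of_inj hl, D.fin, D.fin2]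

end Da

private theorem o2_fin {F E : Type} [Field F] [Field E] [Algebra F E] [Finite E] :
    Finite ((Fin 2 → E) ≃ₗ[F] (Fin 2 → E)) :=
  Finite.of_injective (fun g : (Fin 2 → E) ≃ₗ[F] (Fin 2 → E) => (g : (Fin 2 → E) → (Fin 2 → E)))
    fun _ _ h => LinearEquiv.ext fun x => congrFun h x

theorem bounded_index2 (C : ℕ) : ∃ q0 : ℕ, ∀ (F E : Type) [Field F] [Field E] [Algebra F E] [Finite F]
    [Finite E] (D : Da F E), q0 ≤ Nat.card F → ∀ H : Subgroup ((Fin 2 → E) ≃ₗ[F] (Fin 2 → E)), H ≤ D.G2 →
    Nat.card D.G2 ≤ C * Nat.card H → ⁅D.G2, D.G2⁆ ≤ H := by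
  refine ⟨C.factorial + 1, ?_⟩
  intro F E _ _ _ _ _ D hq H hH h
  have hfd : FiniteDimensional F E := inferInstance
  have hfin : Finite ((Fin 2 → E) ≃ₗ[F] (Fin 2 → E)) := o2_fin
  have hC : C.factorial < Nat.card F := by omega
  have hdim : 6 ≤ finrank F (Fin 2 → E) := by
    rw [D.fin2]
    have := D.two_le
    omega
  rw [D.G2_eq_orth] at hH h ⊢
  exact Pool.Agent.H24.UD.orth_index
    (fun x hx => D.B2_nondeg fun y => by rw [← D.polar_Q2]; exact hx y) D.two_ne hdim hH hC h

theorem iso_plus {F E : Type} [Field F] [Field E] [Algebra F E] [Finite F] [Finite E] (D : Da F E)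
    (V : Type) [AddCommGroup V] [Module F V] [FiniteDimensional F V] (Q : QuadraticForm F V)
    (hQ : ∀ x, (∀ y, polar Q x y = 0) → x = 0) (hV : finrank F V = 2 * (2 * D.r)) (hs : Split Q) :
    Nonempty (OrthGroup Q ≃* D.G2) := by
  have hfd : FiniteDimensional F E := inferInstance
  obtain ⟨e1, he1⟩ := Split.iso (nondeg_of hQ) hs hV
  obtain ⟨e2, he2⟩ := Split.iso (nondeg_of (Q := D.Q2) fun x hx => D.B2_nondeg fun y => by
    rw [← D.polar_Q2]; exact hx y) D.split2 D.fin2
  let e : V ≃ₗ[F] (Fin 2 → E) := e1.symm.trans e2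
  have he : ∀ x, D.Q2 (e x) = Q x := by
    intro x
    show D.Q2 (e2 (e1.symm x)) = Q x
    rw [he2, ← he1, LinearEquiv.apply_symm_apply]
  have hes : ∀ x, Q (e.symm x) = D.Q2 x := by
    intro x
    rw [← he, LinearEquiv.apply_symm_apply]
  rw [D.G2_eq_orth]
  refine ⟨?_⟩
  exact
    { toFun := fun g => ⟨(e.symm.trans (g.1 : V ≃ₗ[F] V)).trans e, by
        rw [mem_orth]
        intro x
        show D.Q2 (e (g.1 (e.symm x))) = D.Q2 x
        rw [he, g.2, hes]⟩
      invFun := fun g => ⟨(e.trans (g.1 : (Fin 2 → E) ≃ₗ[F] (Fin 2 → E))).trans e.symm, by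
        intro x
        show Q (e.symm (g.1 (e x))) = Q x
        rw [hes, g.2, he]⟩
      left_inv := by
        intro g
        apply Subtype.ext
        apply LinearEquiv.ext
        intro x
        show e.symm (e (g.1 (e.symm (e x)))) = g.1 x
        rw [e.symm_apply_apply, e.symm_apply_apply]
      right_inv := by
        intro g
        apply Subtype.ext
        apply LinearEquiv.ext
        intro x
        show e (e.symm (g.1 (e (e.symm x)))) = g.1 x
        rw [e.apply_symm_apply, e.apply_symm_apply]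
      map_mul' := by
        intro g h
        apply Subtype.ext
        apply LinearEquiv.ext
        intro x
        show e (g.1 (h.1 (e.symm x))) = e (g.1 (e.symm (e (h.1 (e.symm x)))))
        rw [e.symm_apply_apply] }

private lemma da_two {F : Type} [Field F] [Finite F] (hodd : Odd (Nat.card F)) : (2 : F) ≠ 0 := by
  intro h
  have h1 : addOrderOf (1 : F) ∣ 2 := by
    rw [addOrderOf_dvd_iff_nsmul_eq_zero, nsmul_eq_mul, mul_one]
    exact_mod_cast h
  have h2 : addOrderOf (1 : F) ≠ 1 := by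
    rw [Ne, AddMonoid.addOrderOf_eq_one_iff]
    exact one_ne_zero
  have h3 : addOrderOf (1 : F) = 2 := ((Nat.dvd_prime Nat.prime_two).1 h1).resolve_left h2
  have h4 : addOrderOf (1 : F) ∣ Nat.card F := addOrderOf_dvd_natCard _
  rw [h3] at h4
  exact (Nat.not_even_iff_odd.2 hodd) (even_iff_two_dvd.2 h4)

theorem exists_da (F : Type) [Field F] [Finite F] (hodd : Odd (Nat.card F)) (r : ℕ) (hr : 2 ≤ r) :
    ∃ (E : Type) (_ : Field E) (_ : Algebra F E) (_ : Finite E) (D : Da F E), D.r = r := by
  let p := ringChar F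
  have : CharP F p := ringChar.charP F
  have : Fact p.Prime := ⟨CharP.char_is_prime F p⟩
  have : NeZero (2 * r) := ⟨by omega⟩
  exact ⟨FiniteField.Extension F p (2 * r), inferInstance, inferInstance, inferInstance,
    { r := r
      two_le := hr
      fin := FiniteField.finrank_extension F p (2 * r)
      two_ne := da_two hodd }, rfl⟩

end Pool.Agent.H32.UP
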