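import Pool.Agent.H32.UP.Bas2
import Pool.Agent.H32.UD.Ct

/-!
# UP.Upp2 : upper bound for the order of the isometry group

PROOF. Adapt UD/Upp.lean with `N = finrank F 𝔤2 ≤ (4 r)^2` in place of `nn r` (the constants of `pmap_card ((4 r)^2) ((4 r)^2) ((4 r)^2 - N) 2` for `N ≤ 16 r ^ 2` are added up: `choose`, sum over `Finset.range (16 r ^ 2 + 1)`). `V = W = End_F (Fin 2 → E)`, `P X = (st X) * X - 1` with the adjoint `st` (from the injectivity of `D.B2.flip`, `B2_nondeg'`),
derivative `Y ↦ st Y X + st X Y`. At `g ∈ G2` (`st g * g = 1`) its kernel is mapped by `Y ↦ g⁻¹ Y` injectively into `𝔤2`, so the rank is `≥ (4 r)^2 - N`. `finrank F (Fin 2 → E) = 4 r` (`Module.finrank_pi_fintype`, `D.fin`).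
-/

set_option autoImplicit false
set_option linter.unusedSectionVars false

namespace Pool.Agent.H32.UP

open Module Pool.Agent.H32.UD

namespace Da

variable {F E : Type} [Field F] [Field E] [Algebra F E] (D : Da F E) [Finite F] [Finite E]

include D in
private theorem Upp2_fin : FiniteDimensional F E := by
  apply FiniteDimensional.of_finrank_pos
  rw [D.fin]
  have := D.two_le
  omega

private theorem Upp2_inj : Function.Injective D.B2.flip := by
  rw [injective_iff_map_eq_zero]
  intro y hy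
  apply D.B2_nondeg'
  intro x
  have := LinearMap.congr_fun hy x
  simpa using this

include D in
private theorem Upp2_dim : finrank F (Fin 2 → E) = 4 * D.r := by
  haveI := D.Upp2_fin
  rw [Module.finrank_pi_fintype, Fin.sum_univ_two, D.fin]
  ring

private theorem Upp2_star : ∃ st : Module.End F (Fin 2 → E) →ₗ[F] Module.End F (Fin 2 → E),
    ∀ X x y, D.B2 (X x) y = D.B2 x (st X y) := by
  haveI := D.Upp2_fin
  let Φ : (Fin 2 → E) ≃ₗ[F] Module.Dual F (Fin 2 → E) :=
    LinearMap.linearEquivOfInjective D.B2.flip D.Upp2_inj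
      (Subspace.dual_finrank_eq (K := F) (V := Fin 2 → E)).symm
  have hΦ : ∀ x y, Φ y x = D.B2 x y := fun x y => rfl
  refine ⟨{ toFun := fun X => Φ.symm.toLinearMap ∘ₗ (Module.Dual.transpose (R := F) X) ∘ₗ Φ.toLinearMap
            map_add' := ?_
            map_smul' := ?_ }, ?_⟩
  · intro X Y
    apply LinearMap.ext
    intro x
    simp
  · intro c X
    apply LinearMap.ext
    intro x
    simp
  · intro X x y
    rw [← hΦ x]
    simp only [LinearMap.coe_mk, AddHom.coe_mk, LinearMap.comp_apply, LinearEquiv.coe_coe,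
      LinearEquiv.apply_symm_apply, Module.Dual.transpose_apply]
    exact (hΦ _ _).symm

/-- the derivative at `g` -/
private noncomputable def Upp2L (st : Module.End F (Fin 2 → E) →ₗ[F] Module.End F (Fin 2 → E))
    (g : Module.End F (Fin 2 → E)) : Module.End F (Fin 2 → E) →ₗ[F] Module.End F (Fin 2 → E) where
  toFun Y := st Y * g + st g * Y
  map_add' := by intro a b; simp only [map_add]; noncomm_ring
  map_smul' := by
    intro c a
    simp only [map_smul, smul_mul_assoc, mul_smul_comm, RingHom.id_apply, smul_add]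

private theorem Upp2_rank {st : Module.End F (Fin 2 → E) →ₗ[F] Module.End F (Fin 2 → E)}
    (hst : ∀ X x y, D.B2 (X x) y = D.B2 x (st X y)) {g : (Fin 2 → E) ≃ₗ[F] (Fin 2 → E)}
    (hg : g ∈ D.G2) : (4 * D.r) ^ 2 - finrank F D.𝔤2 ≤
      finrank F (LinearMap.range (Upp2L st (g : Module.End F (Fin 2 → E)))) := by
  haveI := D.Upp2_fin
  have hsg : st (g : Module.End F (Fin 2 → E)) * (g : Module.End F (Fin 2 → E)) = 1 := by
    apply LinearMap.ext
    intro y
    rw [← sub_eq_zero]
    apply D.B2_nondeg'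
    intro x
    rw [map_sub, Module.End.mul_apply, ← hst]
    have := hg x y
    show D.B2 (g x) (g y) - D.B2 x y = 0
    rw [this, sub_self]
  have hgg : ∀ Y : Module.End F (Fin 2 → E), (g : Module.End F (Fin 2 → E)) *
      (((g⁻¹ : (Fin 2 → E) ≃ₗ[F] (Fin 2 → E)) : Module.End F (Fin 2 → E)) * Y) = Y := by
    intro Y
    apply LinearMap.ext
    intro x
    show g ((g⁻¹ : (Fin 2 → E) ≃ₗ[F] (Fin 2 → E)) (Y x)) = Y x
    rw [← LinearEquiv.mul_apply, mul_inv_cancel]
    rfl
  have hmul : ∀ X Y, st (X * Y) = st Y * st X := by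
    intro X Y
    apply LinearMap.ext
    intro y
    rw [← sub_eq_zero]
    apply D.B2_nondeg'
    intro x
    rw [map_sub, ← hst, Module.End.mul_apply, Module.End.mul_apply, ← hst, ← hst, sub_self]
  have hker : ∀ Y ∈ LinearMap.ker (Upp2L st (g : Module.End F (Fin 2 → E))),
      ((g⁻¹ : (Fin 2 → E) ≃ₗ[F] (Fin 2 → E)) : Module.End F (Fin 2 → E)) * Y ∈ D.𝔤2 := by
    intro Y hY
    rw [LinearMap.mem_ker] at hY
    have hY' : st Y * (g : Module.End F (Fin 2 → E)) +
        st (g : Module.End F (Fin 2 → E)) * Y = 0 := hY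
    set Z := ((g⁻¹ : (Fin 2 → E) ≃ₗ[F] (Fin 2 → E)) : Module.End F (Fin 2 → E)) * Y with hZ
    have hYZ : Y = (g : Module.End F (Fin 2 → E)) * Z := (hgg Y).symm
    rw [hYZ, hmul, mul_assoc, hsg, mul_one, ← mul_assoc, hsg, one_mul] at hY'
    intro x y
    rw [hst Z x y, ← map_add, ← LinearMap.add_apply, hY']
    simp
  have h1 : finrank F (LinearMap.ker (Upp2L st (g : Module.End F (Fin 2 → E)))) ≤
      finrank F D.𝔤2 := by
    let f : LinearMap.ker (Upp2L st (g : Module.End F (Fin 2 → E))) →ₗ[F] D.𝔤2 :=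
      { toFun := fun Y => ⟨((g⁻¹ : (Fin 2 → E) ≃ₗ[F] (Fin 2 → E)) : Module.End F (Fin 2 → E)) *
          (Y : Module.End F (Fin 2 → E)), hker Y Y.2⟩
        map_add' := by intro a b; apply Subtype.ext; simp [mul_add]
        map_smul' := by intro c a; apply Subtype.ext; simp }
    refine LinearMap.finrank_le_finrank_of_injective (f := f) ?_
    intro a b hab
    have h2 : ((g⁻¹ : (Fin 2 → E) ≃ₗ[F] (Fin 2 → E)) : Module.End F (Fin 2 → E)) *
        (a : Module.End F (Fin 2 → E)) =
        ((g⁻¹ : (Fin 2 → E) ≃ₗ[F] (Fin 2 → E)) : Module.End F (Fin 2 → E)) *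
          (b : Module.End F (Fin 2 → E)) := congrArg Subtype.val hab
    apply Subtype.ext
    rw [← hgg a, h2, hgg]
  have h3 := LinearMap.finrank_range_add_finrank_ker (Upp2L st (g : Module.End F (Fin 2 → E)))
  have h5 : finrank F (Module.End F (Fin 2 → E)) =
      finrank F (Fin 2 → E) * finrank F (Fin 2 → E) :=
    Module.finrank_linearMap F F (Fin 2 → E) (Fin 2 → E)
  rw [h5, D.Upp2_dim, ← sq] at h3
  omega

end Da

theorem upper2 (r : ℕ) : ∃ C : ℕ, ∀ (F E : Type) [Field F] [Field E] [Algebra F E] [Finite F] [Finite E]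
    (D : Da F E), D.r = r → Nat.card D.G2 ≤ C * Nat.card F ^ finrank F D.𝔤2 := by
  choose c hC using fun N : ℕ => pmap_card ((4 * r) ^ 2) ((4 * r) ^ 2) ((4 * r) ^ 2 - N) 2
  refine ⟨∑ N ∈ Finset.range ((4 * r) ^ 2 + 1), c N, ?_⟩
  intro F E _ _ _ _ _ D hr
  subst hr
  haveI := D.Upp2_fin
  obtain ⟨st, hst⟩ := D.Upp2_star
  have hd : finrank F (Module.End F (Fin 2 → E)) = (4 * D.r) ^ 2 := by
    have h5 : finrank F (Module.End F (Fin 2 → E)) =
        finrank F (Fin 2 → E) * finrank F (Fin 2 → E) :=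
      Module.finrank_linearMap F F (Fin 2 → E) (Fin 2 → E)
    rw [h5, D.Upp2_dim, ← sq]
  have hP := ((PMap.lin st).mul
    (PMap.lin (LinearMap.id : Module.End F (Fin 2 → E) →ₗ[F] Module.End F (Fin 2 → E)))).sub
    ((PMap.const (F := F) (V := Module.End F (Fin 2 → E)) (1 : Module.End F (Fin 2 → E))).mono
      (Nat.zero_le (1 + 1)))
  have hle : finrank F D.𝔤2 ≤ (4 * D.r) ^ 2 := by
    rw [← hd]
    exact Submodule.finrank_le _
  have h := hC (finrank F D.𝔤2) F (Module.End F (Fin 2 → E)) (Module.End F (Fin 2 → E)) _ _ hd hd hP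
  rw [Nat.sub_sub_self hle] at h
  have hc : c (finrank F D.𝔤2) ≤ ∑ N ∈ Finset.range ((4 * D.r) ^ 2 + 1), c N :=
    Finset.single_le_sum (f := c) (fun _ _ => Nat.zero_le _)
      (Finset.mem_range.2 (Nat.lt_succ_of_le hle))
  refine le_trans (le_trans ?_ h) (Nat.mul_le_mul_right _ hc)
  haveI : Finite (Module.End F (Fin 2 → E)) := Module.finite_of_finite F
  have hz : ∀ g ∈ D.G2, st (g : Module.End F (Fin 2 → E)) * (g : Module.End F (Fin 2 → E)) - 1 = 0 := by
    intro g hg
    apply LinearMap.ext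
    intro y
    apply D.B2_nondeg'
    intro x
    rw [LinearMap.sub_apply, map_sub, Module.End.mul_apply, ← hst]
    have := hg x y
    show D.B2 (g x) (g y) - D.B2 x y = 0
    rw [this, sub_self]
  refine Nat.card_le_card_of_injective
    (fun g : D.G2 => ⟨((g : (Fin 2 → E) ≃ₗ[F] (Fin 2 → E)) : Module.End F (Fin 2 → E)), ?_, ?_⟩) ?_
  · exact hz g g.2
  · refine (D.Upp2_rank hst g.2).trans ?_
    apply Submodule.finrank_mono
    rintro _ ⟨Y, rfl⟩
    apply Submodule.subset_span
    refine ⟨Y, ?_⟩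
    simp [Da.Upp2L]
  · intro a b hab
    have h1 := congrArg Subtype.val hab
    apply Subtype.ext
    apply LinearEquiv.toLinearMap_injective
    exact h1

end Pool.Agent.H32.UP
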