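import Pool.Agent.H32.UP.Dich2
import Pool.Agent.H32.UP.Low2
import Pool.Agent.H32.UP.Upp2
import Pool.Agent.H32.UP.Orth2

/-!
# UP.Ovg2 : the overgroups of the torus

PROOF. As UD/Ovg.lean: `dichotomy2` (`q ≥ 48`): either a condition of `D.NN` holds on `H` or `Wsp2 H = 𝔤2`. In the second case `lower2` gives `q^N ≤ C₁ card H`, `upper2` gives `card G2 ≤ C₂ q^N`, so `card G2 ≤ C₂ C₁ card H` and `bounded_index2 (C₂ C₁)` applies.
-/

set_option autoImplicit false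

namespace Pool.Agent.H32.UP

open Module Pool.Agent.H32.UD

theorem overgroups2 (r : ℕ) : ∃ q0 : ℕ, ∀ (F E : Type) [Field F] [Field E] [Algebra F E] [Finite F]
    [Finite E] (D : Da F E), D.r = r → q0 ≤ Nat.card F → ∀ H : Subgroup ((Fin 2 → E) ≃ₗ[F] (Fin 2 → E)),
    H ≤ D.G2 → D.HasT2 H → (∃ P ∈ D.NN, ∀ h ∈ H, P h) ∨ ⁅D.G2, D.G2⁆ ≤ H := by
  obtain ⟨C₁, q1, h1⟩ := lower2 r
  obtain ⟨C₂, h2⟩ := upper2 r
  obtain ⟨q2, h3⟩ := bounded_index2 (C₂ * C₁)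
  refine ⟨max 48 (max q1 q2), ?_⟩
  intro F E _ _ _ _ _ D hr hq H hH hT
  have e1 : 48 ≤ Nat.card F := (le_max_left _ _).trans hq
  have e2 : q1 ≤ Nat.card F := ((le_max_left _ _).trans (le_max_right _ _)).trans hq
  have e3 : q2 ≤ Nat.card F := ((le_max_right _ _).trans (le_max_right _ _)).trans hq
  rcases D.dichotomy2 e1 H hH hT with h | h
  · refine Or.inr (h3 F E D e3 H hH ?_)
    calc Nat.card D.G2 ≤ C₂ * Nat.card F ^ finrank F D.𝔤2 := h2 F E D hr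
      _ ≤ C₂ * (C₁ * Nat.card H) := Nat.mul_le_mul_left _ (h1 F E D hr e2 H hH hT h)
      _ = C₂ * C₁ * Nat.card H := (mul_assoc _ _ _).symm
  · exact Or.inl h

end Pool.Agent.H32.UP
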