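import Mathlib

/-!
# UP.SepA : the weight vectors determine the unordered pairs

`ev n a ∈ ℤ^n` (`a ∈ ZMod (2 n)`) is the signed unit vector, `ev (a + n) = - ev a`; `fv 0 a = ev a`, `fv 1 a = 4 ev a + 2 ev (a + 1)`.

PROOF of `fv_sep`. By cases on `i, j, k, l`, using parities of the coordinates. Let `x ≡ y` be congruence modulo 2 in `ℤ^n`. `fv 0 a ≡ ev a` has exactly one odd coordinate, `fv 1 a ≡ 0`. So the number of indices `0` among `i, j` and among `k, l` has the same parity.
(a) `{i,j} = {0,1} = {k,l}` (up to order): `ev a + fv 1 b = ev c + fv 1 d`. Parity: the positions of `a` and `c` agree, `c = a` or `c = a + n`. If `c = a`: `fv 1 b = fv 1 d`; half of it is `2 ev b + ev (b+1) = 2 ev d + ev (d+1)`, parity: `d + 1 = b + 1` or `b + 1 + n`, in the second case `fv 1 d = - fv 1 b`, `fv 1 b = 0`, impossible. If `c = a + n`: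
`2 ev a + fv 1 b = fv 1 d`, half: `ev a + 2 ev b + ev (b+1) = 2 ev d + ev (d+1)`: the left side has 0 or 2 odd coordinates, the right side one: impossible.
(b) `i = j = k = l = 0`: `ev a + ev b = ev c + ev d` (a sum of two signed unit vectors determines them unless it is zero: compare coordinates, `omega`).
(c) `i = j = 0`, `k = l = 1`: `ev a + ev b = fv 1 c + fv 1 d ≡ 0`, so `b = a` or `b = a + n`. If `b = a`, half: `ev a = 2 ev c + ev (c+1) + 2 ev d + ev (d+1)`: parity: one odd coordinate against 0 or 2: impossible. If `b = a + n`: `fv 1 c + fv 1 d = 0`, half: `2 (ev c + ev d) + (ev (c+1) + ev (d+1)) = 0`, parity: `d = c` or `d = c + n`; `d = c` gives `2 fv 1 c = 0`, impossible; so `d = c + n`, the third alternative. Symmetrically for `i = j = 1`, `k = l = 0`.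
(d) all `1`: with `x = ev a + ev b - ev c - ev d` and the negacyclic shift `τ` (`τ (ev a) = ev (a+1)`, `τ^n = -1`): `(4 + 2 τ) x = 0`, so `τ x = -2 x`, `- x = τ^n x = (-2)^n x`, `x = 0` (a nonzero coordinate would give `(-2)^n = -1`, `n ≥ 1`), and (b) applies.
(Checked by computer for `n = 2, .., 8`.) Concretely `τ x t = x (t-1)` for `t > 0`, `τ x 0 = - x (n-1)`.
-/

set_option autoImplicit false

namespace Pool.Agent.H32.UP

/-- signed unit vector -/
def ev (n : ℕ) (a : ZMod (2 * n)) : Fin n → ℤ :=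
  fun t => if a.val = t then 1 else if a.val = n + t then -1 else 0

/-- weight vectors -/
def fv (n : ℕ) (i : Fin 2) (a : ZMod (2 * n)) : Fin n → ℤ :=
  fun t => if i = 0 then ev n a t else 4 * ev n a t + 2 * ev n (a + 1) t

private theorem sepA_pos (n : ℕ) [NeZero (2 * n)] : 0 < n := by
  have h := NeZero.ne (2 * n)
  omega

private theorem sepA_val_add_n (n : ℕ) [NeZero (2 * n)] (a : ZMod (2 * n)) :
    (a + n).val = if a.val < n then a.val + n else a.val - n := by
  have hn := sepA_pos n
  have ha := ZMod.val_lt a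
  rw [ZMod.val_add, ZMod.val_natCast, Nat.mod_eq_of_lt (show n < 2 * n by omega)]
  split_ifs with h
  · exact Nat.mod_eq_of_lt (by omega)
  · rw [Nat.mod_eq_sub_mod (by omega), Nat.mod_eq_of_lt (by omega)]
    omega

private theorem sepA_val_add_one (n : ℕ) [NeZero (2 * n)] (a : ZMod (2 * n)) :
    (a + 1).val = if a.val + 1 < 2 * n then a.val + 1 else 0 := by
  have hn := sepA_pos n
  have ha := ZMod.val_lt a
  have : Fact (1 < 2 * n) := ⟨by omega⟩
  rw [ZMod.val_add, ZMod.val_one]
  split_ifs with h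
  · exact Nat.mod_eq_of_lt h
  · rw [show a.val + 1 = 2 * n by omega, Nat.mod_self]

theorem ev_add_n (n : ℕ) [NeZero (2 * n)] (a : ZMod (2 * n)) (t : Fin n) : ev n (a + n) t = -ev n a t := by
  have ha := ZMod.val_lt a
  have ht := t.2
  unfold ev
  rw [sepA_val_add_n]
  split_ifs <;> omega

private theorem sepA_comm (n : ℕ) (a : ZMod (2 * n)) : a + (n : ZMod (2 * n)) + 1 = a + 1 + n := by
  ring

theorem fv_add_n (n : ℕ) [NeZero (2 * n)] (i : Fin 2) (a : ZMod (2 * n)) (t : Fin n) :
    fv n i (a + n) t = -fv n i a t := by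
  unfold fv
  rw [sepA_comm, ev_add_n, ev_add_n]
  split_ifs
  · rfl
  · ring

/-- the position of a signed unit vector -/
private def sepAp (n : ℕ) [NeZero (2 * n)] (a : ZMod (2 * n)) : Fin n :=
  ⟨if a.val < n then a.val else a.val - n, by
    have ha := ZMod.val_lt a
    have hn := sepA_pos n
    split_ifs <;> omega⟩

private def sepAs (n : ℕ) (a : ZMod (2 * n)) : ℤ := if a.val < n then 1 else -1

private theorem sepA_ev (n : ℕ) [NeZero (2 * n)] (a : ZMod (2 * n)) (t : Fin n) :
    ev n a t = if t = sepAp n a then sepAs n a else 0 := by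
  have ha := ZMod.val_lt a
  have ht := t.2
  unfold ev sepAp sepAs
  simp only [Fin.ext_iff]
  split_ifs <;> omega

private theorem sepA_s (n : ℕ) (a : ZMod (2 * n)) : sepAs n a = 1 ∨ sepAs n a = -1 := by
  unfold sepAs
  split_ifs
  · exact Or.inl rfl
  · exact Or.inr rfl

private theorem sepA_eq (n : ℕ) [NeZero (2 * n)] {a b : ZMod (2 * n)} (hp : sepAp n a = sepAp n b)
    (hs : sepAs n a = sepAs n b) : a = b := by
  apply ZMod.val_injective
  unfold sepAp at hp
  unfold sepAs at hs
  simp only [Fin.ext_iff] at hp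
  split_ifs at hp hs <;> omega

private theorem sepA_pn (n : ℕ) [NeZero (2 * n)] (a : ZMod (2 * n)) :
    sepAp n (a + n) = sepAp n a := by
  have ha := ZMod.val_lt a
  unfold sepAp
  simp only [Fin.ext_iff, sepA_val_add_n]
  split_ifs <;> omega

private theorem sepA_sn (n : ℕ) [NeZero (2 * n)] (a : ZMod (2 * n)) :
    sepAs n (a + n) = -sepAs n a := by
  have ha := ZMod.val_lt a
  unfold sepAs
  rw [sepA_val_add_n]
  split_ifs <;> omega

private theorem sepA_pos_eq (n : ℕ) [NeZero (2 * n)] {a b : ZMod (2 * n)}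
    (hp : sepAp n a = sepAp n b) : a = b ∨ b = a + n := by
  rcases sepA_s n a with h1 | h1 <;> rcases sepA_s n b with h2 | h2
  · exact Or.inl (sepA_eq n hp (by rw [h1, h2]))
  · exact Or.inr (sepA_eq n (by rw [sepA_pn, hp]) (by rw [sepA_sn, h1, h2]))
  · exact Or.inr (sepA_eq n (by rw [sepA_pn, hp]) (by rw [sepA_sn, h1, h2]; norm_num))
  · exact Or.inl (sepA_eq n hp (by rw [h1, h2]))

private theorem sepA_sum_ev (n : ℕ) [NeZero (2 * n)] (a : ZMod (2 * n)) :
    ∑ t, ev n a t = sepAs n a := by
  simp [sepA_ev]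

private theorem sepA_abs (n : ℕ) (a : ZMod (2 * n)) : ∑ t, |ev n a t| ≤ 1 := by
  rcases Nat.eq_zero_or_pos n with hn | hn
  · subst hn
    simp
  · have : NeZero (2 * n) := ⟨by omega⟩
    have h : ∀ t, |ev n a t| = if t = sepAp n a then 1 else 0 := by
      intro t
      rw [sepA_ev]
      split_ifs
      · rcases sepA_s n a with h1 | h1 <;> rw [h1] <;> norm_num
      · simp
    simp [h]

theorem fv_bound (n : ℕ) (i : Fin 2) (a : ZMod (2 * n)) : ∑ t, |fv n i a t| ≤ 6 := by
  by_cases hi : i = 0
  · have h : ∀ t, fv n i a t = ev n a t := fun t => by unfold fv; rw [if_pos hi]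
    simp only [h]
    linarith [sepA_abs n a]
  · have h : ∀ t, |fv n i a t| ≤ 4 * |ev n a t| + 2 * |ev n (a + 1) t| := by
      intro t
      unfold fv
      rw [if_neg hi]
      refine (abs_add_le _ _).trans ?_
      rw [abs_mul, abs_mul]
      norm_num
    refine (Finset.sum_le_sum fun t _ => h t).trans ?_
    rw [Finset.sum_add_distrib, ← Finset.mul_sum, ← Finset.mul_sum]
    linarith [sepA_abs n a, sepA_abs n (a + 1)]

private theorem sepA_sodd (n : ℕ) (a : ZMod (2 * n)) : sepAs n a % 2 = 1 := by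
  rcases sepA_s n a with h | h <;> rw [h] <;> norm_num

/-- two unit vectors which agree modulo 2 have the same position -/
private theorem sepA_par (n : ℕ) [NeZero (2 * n)] {a b : ZMod (2 * n)}
    (h : ∀ t, (ev n a t - ev n b t) % 2 = 0) : a = b ∨ b = a + n := by
  apply sepA_pos_eq
  by_contra hne
  have h1 := h (sepAp n a)
  rw [sepA_ev, sepA_ev, if_pos rfl, if_neg hne] at h1
  have h2 := sepA_sodd n a
  omega

private theorem sepA_zero (n : ℕ) [NeZero (2 * n)] {a : ZMod (2 * n)}
    (h : ∀ t, 2 * ev n a t + ev n (a + 1) t = 0) : False := by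
  have h1 := h (sepAp n (a + 1))
  rw [sepA_ev n (a + 1), if_pos rfl] at h1
  have h2 := sepA_sodd n (a + 1)
  omega

private theorem sepA_f0 (n : ℕ) (a : ZMod (2 * n)) (t : Fin n) : fv n 0 a t = ev n a t := by
  unfold fv
  rw [if_pos rfl]

private theorem sepA_f1 (n : ℕ) (a : ZMod (2 * n)) (t : Fin n) :
    fv n 1 a t = 4 * ev n a t + 2 * ev n (a + 1) t := by
  unfold fv
  rw [if_neg (by decide)]

/-- case (a) -/
private theorem sepA_caseA (n : ℕ) [NeZero (2 * n)] {a b c d : ZMod (2 * n)}
    (h : ∀ t, fv n 0 a t + fv n 1 b t = fv n 0 c t + fv n 1 d t) : a = c ∧ b = d := by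
  simp only [sepA_f0, sepA_f1] at h
  have h1 : a = c ∨ c = a + n := sepA_par n fun t => by
    have := h t
    omega
  rcases h1 with h1 | h1
  · subst h1
    refine ⟨rfl, ?_⟩
    have h2 : b + 1 = d + 1 ∨ d + 1 = b + 1 + n := sepA_par n fun t => by
      have := h t
      omega
    rcases h2 with h2 | h2
    · exact add_right_cancel h2
    · exfalso
      have h3 : d = b + n := by
        have : d + 1 = b + n + 1 := by rw [h2]; ring
        exact add_right_cancel this
      refine sepA_zero n (a := b) fun t => ?_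
      have h4 := h t
      rw [h2, h3, ev_add_n, ev_add_n] at h4
      omega
  · exfalso
    have h2 : ∀ t, ev n a t + 2 * ev n b t + ev n (b + 1) t = 2 * ev n d t + ev n (d + 1) t := by
      intro t
      have h3 := h t
      rw [h1, ev_add_n] at h3
      omega
    have h3 : ∑ t, (ev n a t + 2 * ev n b t + ev n (b + 1) t) =
        ∑ t, (2 * ev n d t + ev n (d + 1) t) := Finset.sum_congr rfl fun t _ => h2 t
    simp only [Finset.sum_add_distrib, ← Finset.mul_sum, sepA_sum_ev] at h3
    have := sepA_sodd n a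
    have := sepA_sodd n (b + 1)
    have := sepA_sodd n (d + 1)
    omega

/-- case (b) -/
private theorem sepA_caseB (n : ℕ) [NeZero (2 * n)] {a b c d : ZMod (2 * n)}
    (h : ∀ t, ev n a t + ev n b t = ev n c t + ev n d t) :
    (a = c ∧ b = d) ∨ (a = d ∧ b = c) ∨ (b = a + n ∧ d = c + n) := by
  have key : ∀ x y : ZMod (2 * n), sepAp n x = sepAp n y → sepAs n x + sepAs n y = 0 → y = x + n := by
    intro x y h1 h2
    apply sepA_eq n
    · rw [sepA_pn, h1]
    · rw [sepA_sn]
      omega
  have ha := h (sepAp n a)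
  have hb := h (sepAp n b)
  have hc := h (sepAp n c)
  have hd := h (sepAp n d)
  simp only [sepA_ev, if_true] at ha hb hc hd
  have sa := sepA_s n a
  have sb := sepA_s n b
  have sc := sepA_s n c
  have sd := sepA_s n d
  by_cases hab : sepAp n a = sepAp n b
  · by_cases hs : sepAs n a + sepAs n b = 0
    · right; right
      refine ⟨key a b hab hs, ?_⟩
      have h1 : ∀ t, ev n c t + ev n d t = 0 := by
        intro t
        rw [← h t, sepA_ev, sepA_ev, hab]
        split_ifs
        · exact hs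
        · rfl
      have hcd : sepAp n c = sepAp n d := by
        by_contra hne
        have h2 := h1 (sepAp n c)
        rw [sepA_ev, sepA_ev, if_pos rfl, if_neg hne] at h2
        omega
      refine key c d hcd ?_
      have h2 := h1 (sepAp n c)
      rw [sepA_ev, sepA_ev, if_pos rfl, if_pos hcd] at h2
      exact h2
    · have hs' : sepAs n a = sepAs n b := by omega
      have e1 : a = b := sepA_eq n hab hs'
      subst e1
      left
      by_cases hac : sepAp n a = sepAp n c
      · by_cases had : sepAp n a = sepAp n d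
        · rw [if_pos rfl, if_pos hac, if_pos had] at ha
          exact ⟨sepA_eq n hac (by omega), sepA_eq n had (by omega)⟩
        · rw [if_pos rfl, if_pos hac, if_neg had] at ha
          omega
      · by_cases had : sepAp n a = sepAp n d
        · rw [if_pos rfl, if_neg hac, if_pos had] at ha
          omega
        · rw [if_pos rfl, if_neg hac, if_neg had] at ha
          omega
  · rw [if_neg hab] at ha
    rw [if_neg (Ne.symm hab)] at hb
    by_cases hac : sepAp n a = sepAp n c
    · have hbc : sepAp n b ≠ sepAp n c := fun h' => hab (hac.trans h'.symm)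
      rw [if_neg hbc] at hb
      by_cases hbd : sepAp n b = sepAp n d
      · have had : sepAp n a ≠ sepAp n d := fun h' => hab (h'.trans hbd.symm)
        rw [if_pos hac, if_neg had] at ha
        rw [if_pos hbd] at hb
        exact Or.inl ⟨sepA_eq n hac (by omega), sepA_eq n hbd (by omega)⟩
      · rw [if_neg hbd] at hb
        omega
    · rw [if_neg hac] at ha
      by_cases had : sepAp n a = sepAp n d
      · rw [if_pos had] at ha
        have hbd : sepAp n b ≠ sepAp n d := fun h' => hab (had.trans h'.symm)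
        rw [if_neg hbd] at hb
        by_cases hbc : sepAp n b = sepAp n c
        · rw [if_pos hbc] at hb
          exact Or.inr (Or.inl ⟨sepA_eq n had (by omega), sepA_eq n hbc (by omega)⟩)
        · rw [if_neg hbc] at hb
          omega
      · rw [if_neg had] at ha
        omega

/-- case (c) -/
private theorem sepA_caseC (n : ℕ) [NeZero (2 * n)] {a b c d : ZMod (2 * n)}
    (h : ∀ t, fv n 0 a t + fv n 0 b t = fv n 1 c t + fv n 1 d t) : b = a + n ∧ d = c + n := by
  simp only [sepA_f0, sepA_f1] at h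
  have h1 : a = b ∨ b = a + n := sepA_par n fun t => by
    have := h t
    omega
  rcases h1 with h1 | h1
  · exfalso
    subst h1
    have h2 : ∀ t, ev n a t = 2 * ev n c t + ev n (c + 1) t + 2 * ev n d t + ev n (d + 1) t := by
      intro t
      have h3 := h t
      omega
    have h3 : ∑ t, ev n a t =
        ∑ t, (2 * ev n c t + ev n (c + 1) t + 2 * ev n d t + ev n (d + 1) t) :=
      Finset.sum_congr rfl fun t _ => h2 t
    simp only [Finset.sum_add_distrib, ← Finset.mul_sum, sepA_sum_ev] at h3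
    have := sepA_sodd n a
    have := sepA_sodd n (c + 1)
    have := sepA_sodd n (d + 1)
    omega
  · refine ⟨h1, ?_⟩
    have h2 : ∀ t, 2 * ev n c t + ev n (c + 1) t + 2 * ev n d t + ev n (d + 1) t = 0 := by
      intro t
      have h3 := h t
      rw [h1, ev_add_n] at h3
      omega
    have h3 : c + 1 = d + 1 ∨ d + 1 = c + 1 + n := sepA_par n fun t => by
      have := h2 t
      omega
    rcases h3 with h3 | h3
    · exfalso
      have h4 : c = d := add_right_cancel h3
      subst h4
      refine sepA_zero n (a := c) fun t => ?_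
      have := h2 t
      omega
    · have : d + 1 = c + n + 1 := by rw [h3]; ring
      exact add_right_cancel this

/-- the negacyclic shift -/
private theorem sepA_shift0 (m : ℕ) (a : ZMod (2 * (m + 1))) :
    ev (m + 1) (a + 1) 0 = -ev (m + 1) a (Fin.last m) := by
  have : NeZero (2 * (m + 1)) := ⟨by omega⟩
  have ha := ZMod.val_lt a
  unfold ev
  rw [sepA_val_add_one]
  simp only [Fin.val_zero, Fin.val_last]
  split_ifs <;> first | omega | contradiction

private theorem sepA_shift1 (m : ℕ) (a : ZMod (2 * (m + 1))) (t : Fin m) :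
    ev (m + 1) (a + 1) t.succ = ev (m + 1) a t.castSucc := by
  have : NeZero (2 * (m + 1)) := ⟨by omega⟩
  have ha := ZMod.val_lt a
  have ht := t.2
  unfold ev
  rw [sepA_val_add_one]
  simp only [Fin.val_succ, Fin.val_castSucc]
  split_ifs <;> first | omega | contradiction

/-- case (d) -/
private theorem sepA_caseD (n : ℕ) [NeZero (2 * n)] {a b c d : ZMod (2 * n)}
    (h : ∀ t, fv n 1 a t + fv n 1 b t = fv n 1 c t + fv n 1 d t) :
    ∀ t, ev n a t + ev n b t = ev n c t + ev n d t := by
  obtain ⟨m, rfl⟩ : ∃ m, n = m + 1 := ⟨n - 1, by have := sepA_pos n; omega⟩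
  simp only [sepA_f1] at h
  have h1 : ∀ t, |ev (m + 1) (a + 1) t + ev (m + 1) (b + 1) t - ev (m + 1) (c + 1) t
      - ev (m + 1) (d + 1) t| = 2 * |ev (m + 1) a t + ev (m + 1) b t - ev (m + 1) c t
      - ev (m + 1) d t| := by
    intro t
    have h2 := h t
    have h3 : ev (m + 1) (a + 1) t + ev (m + 1) (b + 1) t - ev (m + 1) (c + 1) t
      - ev (m + 1) (d + 1) t = (-2) * (ev (m + 1) a t + ev (m + 1) b t - ev (m + 1) c t
      - ev (m + 1) d t) := by omega
    rw [h3, abs_mul]
    norm_num
  have h2 : ∑ t, |ev (m + 1) (a + 1) t + ev (m + 1) (b + 1) t - ev (m + 1) (c + 1) t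
      - ev (m + 1) (d + 1) t| = ∑ t, |ev (m + 1) a t + ev (m + 1) b t - ev (m + 1) c t
      - ev (m + 1) d t| := by
    rw [Fin.sum_univ_succ, Fin.sum_univ_castSucc (fun t => |ev (m + 1) a t + ev (m + 1) b t
      - ev (m + 1) c t - ev (m + 1) d t|)]
    simp only [sepA_shift0, sepA_shift1]
    rw [add_comm]
    congr 1
    rw [← abs_neg]
    congr 1
    ring
  rw [Finset.sum_congr rfl fun t _ => h1 t, ← Finset.mul_sum] at h2
  have h3 : ∑ t, |ev (m + 1) a t + ev (m + 1) b t - ev (m + 1) c t - ev (m + 1) d t| = 0 := by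
    linarith
  intro t
  have h4 := (Finset.sum_eq_zero_iff_of_nonneg (fun t _ => abs_nonneg _)).1 h3 t (Finset.mem_univ t)
  have h5 := abs_eq_zero.1 h4
  linarith

private theorem sepA_sum_f0 (n : ℕ) [NeZero (2 * n)] (a : ZMod (2 * n)) :
    (∑ t, fv n 0 a t) % 2 = 1 := by
  simp only [sepA_f0, sepA_sum_ev]
  exact sepA_sodd n a

private theorem sepA_sum_f1 (n : ℕ) [NeZero (2 * n)] (a : ZMod (2 * n)) :
    (∑ t, fv n 1 a t) % 2 = 0 := by
  simp only [sepA_f1, Finset.sum_add_distrib, ← Finset.mul_sum, sepA_sum_ev]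
  omega

theorem fv_sep (n : ℕ) (hn : 2 ≤ n) [NeZero (2 * n)] (i j k l : Fin 2) (a b c d : ZMod (2 * n))
    (h : ∀ t, fv n i a t + fv n j b t = fv n k c t + fv n l d t) :
    (i = k ∧ a = c ∧ j = l ∧ b = d) ∨ (i = l ∧ a = d ∧ j = k ∧ b = c) ∨
      (i = j ∧ b = a + n ∧ k = l ∧ d = c + n) := by
  have hsum : ∑ t, fv n i a t + ∑ t, fv n j b t = ∑ t, fv n k c t + ∑ t, fv n l d t := by
    rw [← Finset.sum_add_distrib, ← Finset.sum_add_distrib]
    exact Finset.sum_congr rfl fun t _ => h t
  have two : ∀ x : Fin 2, x = 0 ∨ x = 1 := by decide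
  have z0 := sepA_sum_f0 n
  have z1 := sepA_sum_f1 n
  rcases two i with hi | hi <;> rcases two j with hj | hj <;> rcases two k with hk | hk <;>
    rcases two l with hl | hl <;> subst hi <;> subst hj <;> subst hk <;> subst hl
  · rcases sepA_caseB n (fun t => by have := h t; simpa only [sepA_f0] using this) with
      ⟨h1, h2⟩ | ⟨h1, h2⟩ | ⟨h1, h2⟩
    · exact Or.inl ⟨rfl, h1, rfl, h2⟩
    · exact Or.inr (Or.inl ⟨rfl, h1, rfl, h2⟩)
    · exact Or.inr (Or.inr ⟨rfl, h1, rfl, h2⟩)
  · have := z0 a; have := z0 b; have := z0 c; have := z1 d; omega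
  · have := z0 a; have := z0 b; have := z1 c; have := z0 d; omega
  · obtain ⟨h1, h2⟩ := sepA_caseC n h
    exact Or.inr (Or.inr ⟨rfl, h1, rfl, h2⟩)
  · have := z0 a; have := z1 b; have := z0 c; have := z0 d; omega
  · obtain ⟨h1, h2⟩ := sepA_caseA n h
    exact Or.inl ⟨rfl, h1, rfl, h2⟩
  · obtain ⟨h1, h2⟩ := sepA_caseA n (a := a) (b := b) (c := d) (d := c) fun t => by
      rw [h t, add_comm]
    exact Or.inr (Or.inl ⟨rfl, h1, rfl, h2⟩)
  · have := z0 a; have := z1 b; have := z1 c; have := z1 d; omega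
  · have := z1 a; have := z0 b; have := z0 c; have := z0 d; omega
  · obtain ⟨h1, h2⟩ := sepA_caseA n (a := b) (b := a) (c := c) (d := d) fun t => by
      rw [← h t, add_comm]
    exact Or.inr (Or.inl ⟨rfl, h2, rfl, h1⟩)
  · obtain ⟨h1, h2⟩ := sepA_caseA n (a := b) (b := a) (c := d) (d := c) fun t => by
      rw [add_comm, h t, add_comm]
    exact Or.inl ⟨rfl, h2, rfl, h1⟩
  · have := z1 a; have := z0 b; have := z1 c; have := z1 d; omega
  · obtain ⟨h1, h2⟩ := sepA_caseC n (a := c) (b := d) (c := a) (d := b) fun t => (h t).symm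
    exact Or.inr (Or.inr ⟨rfl, h2, rfl, h1⟩)
  · have := z1 a; have := z1 b; have := z0 c; have := z1 d; omega
  · have := z1 a; have := z1 b; have := z1 c; have := z0 d; omega
  · rcases sepA_caseB n (sepA_caseD n h) with ⟨h1, h2⟩ | ⟨h1, h2⟩ | ⟨h1, h2⟩
    · exact Or.inl ⟨rfl, h1, rfl, h2⟩
    · exact Or.inr (Or.inl ⟨rfl, h1, rfl, h2⟩)
    · exact Or.inr (Or.inr ⟨rfl, h1, rfl, h2⟩)

end Pool.Agent.H32.UP
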