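import Pool.Agent.H32.UP.Tf

/-!
# UP.TfB : linear functionals of the torus element `(u, u ^ 4 (fr u) ^ 2)`

PROOF. `ℓ (ss t * x) = ℓ₀ (t) + ℓ₁ (t ^ 4 fr t ^ 2)` with `ℓ₀ y = ℓ (Pi.single 0 (y * x 0))`, `ℓ₁ y = ℓ (Pi.single 1 (y * x 1))`. `ℓ₀`: `TFun.coord`. `ℓ₁`: `exists_coeff ((Algebra.linearMap F E).comp ℓ₁)` gives `a c` with `algebraMap (ℓ₁ y) = ∑ c, a c * σ c y`;
`σ c (t ^ 4 * fr t ^ 2) = σ c t ^ 4 * σ (c + 1) t ^ 2` (`σ_one`, `σ_add_apply`), a product of six functions `TFun 1` (`TFun.sig` with `a = 1`) and the constant `a c` (`TFun.const 0`), so `TFun 6` (`TFun.mul`, `TFun.congr`), then `TFun.sum`, `TFun.add`, `TFun.mono`.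
-/

set_option autoImplicit false
set_option linter.unusedSectionVars false

namespace Pool.Agent.H32.UP

open Module Pool.Agent.H32.UD

namespace Da

variable {F E : Type} [Field F] [Field E] [Algebra F E] (D : Da F E) [Finite F] [Finite E]

theorem TFun.coord2 (ℓ : (Fin 2 → E) →ₗ[F] F) (x : Fin 2 → E) :
    D.TFun 6 (fun t => algebraMap F E (ℓ (ss F t * x))) := by
  set l0 : E →ₗ[F] F := ℓ ∘ₗ (LinearMap.single F (fun _ : Fin 2 => E) 0) ∘ₗ
    (LinearMap.mulRight F (x 0)) with hl0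
  set l1 : E →ₗ[F] F := ℓ ∘ₗ (LinearMap.single F (fun _ : Fin 2 => E) 1) ∘ₗ
    (LinearMap.mulRight F (x 1)) with hl1
  have h0 : D.TFun 6 (fun t => algebraMap F E (l0 t)) :=
    TFun.mono (TFun.coord (D := D) l0) (by norm_num)
  obtain ⟨a, ha⟩ := D.exists_coeff ((Algebra.linearMap F E).comp l1)
  have h1 : D.TFun 6 (fun t => algebraMap F E (l1 (t ^ 4 * fr F E t ^ 2))) := by
    have h2 : ∀ c : ZMod (2 * D.r), D.TFun 6 (fun t => a c *
        (D.σ c t * D.σ c t * D.σ c t * D.σ c t * (D.σ (c + 1) t * D.σ (c + 1) t))) := by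
      intro c
      have s1 : D.TFun 1 (fun t => D.σ c t) :=
        TFun.congr (TFun.sig (D := D) 1 c) fun u _ => one_mul _
      have s2 : D.TFun 1 (fun t => D.σ (c + 1) t) :=
        TFun.congr (TFun.sig (D := D) 1 (c + 1)) fun u _ => one_mul _
      exact TFun.mul (TFun.const (D := D) 0 (a c))
        (TFun.mul (TFun.mul (TFun.mul (TFun.mul s1 s1) s1) s1) (TFun.mul s2 s2))
    refine TFun.congr (TFun.sum (D := D) (Finset.univ : Finset (ZMod (2 * D.r)))
      (fun c _ => h2 c)) fun u _ => ?_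
    have h3 := LinearMap.congr_fun ha (u ^ 4 * fr F E u ^ 2)
    rw [LinearMap.sum_apply] at h3
    refine Eq.trans ?_ h3.symm
    refine Finset.sum_congr rfl fun c _ => ?_
    change _ = a c * D.σ c (u ^ 4 * fr F E u ^ 2)
    rw [map_mul, map_pow, map_pow, ← D.σ_one, ← D.σ_add_apply]
    ring
  refine TFun.congr (TFun.add h0 h1) fun u _ => ?_
  rw [← map_add]
  congr 1
  change ℓ (Pi.single 0 (u * x 0)) + ℓ (Pi.single 1 (u ^ 4 * fr F E u ^ 2 * x 1)) = _
  rw [← map_add]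
  congr 1
  ext i
  fin_cases i <;> simp [ss]

end Da

end Pool.Agent.H32.UP
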