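import Pool.Agent.H32.UP.Dim0
import Pool.Agent.H32.UP.Bas2
import Pool.Agent.H42.PL.Defs

/-!
# UP.TrK : the transfer from the two-block model to quaternions over the fixed field of `bar`
-/

set_option autoImplicit false
set_option linter.unusedSectionVars false

namespace Pool.Agent.H32.UP

open Module Pool.Agent.H32.UD

namespace Da

variable {F E : Type} [Field F] [Field E] [Algebra F E] (D : Da F E) [Finite F] [Finite E]

/-- the fixed field of `bar` -/
noncomputable def K0 : IntermediateField F E where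
  carrier := {x | D.bar x = x}
  add_mem' := by
    intro a b ha hb
    show D.bar (a + b) = a + b
    rw [map_add, show D.bar a = a from ha, show D.bar b = b from hb]
  mul_mem' := by
    intro a b ha hb
    show D.bar (a * b) = a * b
    rw [map_mul, show D.bar a = a from ha, show D.bar b = b from hb]
  algebraMap_mem' := fun c => D.bar.commutes c
  inv_mem' := by
    intro a ha
    show D.bar a⁻¹ = a⁻¹
    rw [map_inv₀, show D.bar a = a from ha]

theorem mem_K0 {x : E} : x ∈ D.K0 ↔ D.bar x = x := Iff.rfl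

theorem bar_K0 (x : D.K0) : D.bar (x : E) = x := x.2

theorem finrank_K0 : finrank F D.K0 = D.r := by
  rw [← D.dim_Ep]
  rfl

theorem fr_K0 (x : D.K0) : ((fr F D.K0 x : D.K0) : E) = fr F E (x : E) := by
  rw [fr_apply, fr_apply]
  rfl

theorem fr_pow_K0 (j : ℕ) (x : D.K0) : (((fr F D.K0 ^ j) x : D.K0) : E) = (fr F E ^ j) (x : E) := by
  induction j with
  | zero => rfl
  | succ j ih => rw [pow_succ', pow_succ', AlgEquiv.mul_apply, AlgEquiv.mul_apply, fr_K0, ih]

theorem symm_K0 (x : D.K0) : (((fr F D.K0).symm x : D.K0) : E) = (fr F E).symm (x : E) := by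
  rw [AlgEquiv.eq_symm_apply, ← fr_K0, AlgEquiv.apply_symm_apply]

theorem bar_symm (x : E) : D.bar ((fr F E).symm x) = (fr F E).symm (D.bar x) := by
  rw [AlgEquiv.eq_symm_apply, ← σ_one, ← bar_σ, σ_one, AlgEquiv.apply_symm_apply]

theorem exists_u : ∃ u : E, u ≠ 0 ∧ D.bar u = -u := by
  by_contra hno
  push Not at hno
  apply D.r_ne_zero
  apply D.σ_inj
  rw [σ_zero]
  ext x
  have h1 : x - D.bar x = 0 := by
    by_contra h0
    exact hno _ h0 (by rw [map_sub, bar_bar]; ring)
  rw [← bar_eq, ← sub_eq_zero.1 h1]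
  rfl

include D in
theorem two_ne_E : (2 : E) ≠ 0 := by
  intro h
  apply D.two_ne
  apply (algebraMap F E).injective
  rw [map_zero, map_ofNat, h]

/-- the square of `u` -/
noncomputable def kap (u : E) (hu : D.bar u = -u) : D.K0 := ⟨u ^ 2, by rw [mem_K0, map_pow, hu]; ring⟩

/-- the number `η` -/
noncomputable def et (u : E) (hu : D.bar u = -u) : D.K0 := -(fr F D.K0 (D.kap u hu))

/-- the linear map from the quaternions -/
noncomputable def ps (u : E) : (Fin 4 → D.K0) →ₗ[F] (Fin 2 → E) where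
  toFun x := ![(x 0 : E) + (fr F E).symm (x 1 : E) * u, (x 2 : E) + (fr F E).symm (x 3 : E) * u]
  map_add' x y := by
    ext i
    fin_cases i
    · show ((x 0 + y 0 : D.K0) : E) + (fr F E).symm ((x 1 + y 1 : D.K0) : E) * u =
        ((x 0 : E) + (fr F E).symm (x 1 : E) * u) + ((y 0 : E) + (fr F E).symm (y 1 : E) * u)
      push_cast
      rw [map_add]
      ring
    · show ((x 2 + y 2 : D.K0) : E) + (fr F E).symm ((x 3 + y 3 : D.K0) : E) * u =
        ((x 2 : E) + (fr F E).symm (x 3 : E) * u) + ((y 2 : E) + (fr F E).symm (y 3 : E) * u)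
      push_cast
      rw [map_add]
      ring
  map_smul' c x := by
    ext i
    fin_cases i
    · show ((c • x 0 : D.K0) : E) + (fr F E).symm ((c • x 1 : D.K0) : E) * u =
        c • ((x 0 : E) + (fr F E).symm (x 1 : E) * u)
      have e0 : ((c • x 0 : D.K0) : E) = c • (x 0 : E) := rfl
      have e1 : ((c • x 1 : D.K0) : E) = c • (x 1 : E) := rfl
      rw [e0, e1, map_smul, smul_add, smul_mul_assoc]
    · show ((c • x 2 : D.K0) : E) + (fr F E).symm ((c • x 3 : D.K0) : E) * u =
        c • ((x 2 : E) + (fr F E).symm (x 3 : E) * u)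
      have e0 : ((c • x 2 : D.K0) : E) = c • (x 2 : E) := rfl
      have e1 : ((c • x 3 : D.K0) : E) = c • (x 3 : E) := rfl
      rw [e0, e1, map_smul, smul_add, smul_mul_assoc]

theorem ps_zero (u : E) (x : Fin 4 → D.K0) : D.ps u x 0 = (x 0 : E) + (fr F E).symm (x 1 : E) * u := rfl

theorem ps_one (u : E) (x : Fin 4 → D.K0) : D.ps u x 1 = (x 2 : E) + (fr F E).symm (x 3 : E) * u := rfl

private theorem trk_zero {u : E} (hu0 : u ≠ 0) (hu : D.bar u = -u) {a b : E} (ha : D.bar a = a)
    (hb : D.bar b = b) (h : a + b * u = 0) : a = 0 ∧ b = 0 := by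
  have h1 : a - b * u = 0 := by
    have := congrArg D.bar h
    rw [map_add, map_mul, ha, hb, hu, map_zero] at this
    linear_combination this
  have h2 : (2 : E) * a = 0 := by linear_combination h + h1
  have h3 : a = 0 := (mul_eq_zero.1 h2).resolve_left D.two_ne_E
  rw [h3, zero_add] at h
  exact ⟨h3, (mul_eq_zero.1 h).resolve_right hu0⟩

theorem ps_inj {u : E} (hu0 : u ≠ 0) (hu : D.bar u = -u) : Function.Injective (D.ps u) := by
  rw [injective_iff_map_eq_zero]
  intro x hx
  have h0 := congrFun hx 0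
  have h1 := congrFun hx 1
  rw [ps_zero] at h0
  rw [ps_one] at h1
  have hb : ∀ y : D.K0, D.bar ((fr F E).symm (y : E)) = (fr F E).symm (y : E) := fun y => by
    rw [bar_symm, bar_K0]
  obtain ⟨a0, b0⟩ := D.trk_zero hu0 hu (D.bar_K0 _) (hb _) h0
  obtain ⟨a1, b1⟩ := D.trk_zero hu0 hu (D.bar_K0 _) (hb _) h1
  have hz : ∀ y : D.K0, (fr F E).symm (y : E) = 0 → y = 0 := by
    intro y hy
    rw [EmbeddingLike.map_eq_zero_iff] at hy
    exact Subtype.ext hy
  funext i
  fin_cases i
  · exact Subtype.ext a0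
  · exact hz _ b0
  · exact Subtype.ext a1
  · exact hz _ b1

/-- the isomorphism -/
noncomputable def pse (u : E) (hu0 : u ≠ 0) (hu : D.bar u = -u) : (Fin 4 → D.K0) ≃ₗ[F] (Fin 2 → E) :=
  LinearEquiv.ofInjectiveOfFinrankEq (D.ps u) (D.ps_inj hu0 hu) (by
    rw [Module.finrank_pi_fintype, Module.finrank_pi_fintype]
    simp only [D.finrank_K0, D.fin, Finset.sum_const, Finset.card_univ, Fintype.card_fin, smul_eq_mul]
    ring)

theorem pse_apply (u : E) (hu0 : u ≠ 0) (hu : D.bar u = -u) (x : Fin 4 → D.K0) :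
    D.pse u hu0 hu x = D.ps u x := rfl

private theorem trk_trace {u : E} (hu : D.bar u = -u) {a : E} (ha : D.bar a = a) :
    Algebra.trace F E (a * u) = 0 := by
  have h := D.trace_bar (a * u)
  rw [map_mul, ha, hu, mul_neg, map_neg] at h
  have h2 : (2 : F) * Algebra.trace F E (a * u) = 0 := by linear_combination -h
  exact (mul_eq_zero.1 h2).resolve_left D.two_ne

private theorem trk_trace_K0 (x : D.K0) : Algebra.trace F E (x : E) = 2 * Algebra.trace F D.K0 x := by
  have h1 := Algebra.trace_trace (R := F) (S := D.K0) (T := E) (x : E)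
  have h2 : Algebra.trace D.K0 E (x : E) = (2 : D.K0) * x := by
    have h3 : (x : E) = algebraMap D.K0 E x := rfl
    rw [h3, Algebra.trace_algebraMap]
    have h4 : finrank D.K0 E = 2 := by
      have h5 := Module.finrank_mul_finrank F D.K0 E
      rw [D.finrank_K0, D.fin] at h5
      have h6 := D.two_le
      have h7 : 0 < D.r := by omega
      exact Nat.eq_of_mul_eq_mul_left h7 (by rw [h5]; ring)
    rw [h4, nsmul_eq_mul]
    norm_num
  rw [← h1, h2]
  have h5 : (2 : D.K0) * x = (2 : F) • x := by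
    rw [Algebra.smul_def, map_ofNat]
  rw [h5, map_smul, smul_eq_mul]

private theorem trk_fr (x : D.K0) : Algebra.trace F D.K0 (fr F D.K0 x) = Algebra.trace F D.K0 x :=
  Algebra.trace_eq_of_algEquiv (fr F D.K0) x

private theorem trk_block {u : E} (hu : D.bar u = -u) (a b a' b' : D.K0) :
    Algebra.trace F E (((a : E) + (fr F E).symm (b : E) * u) *
      D.bar ((a' : E) + (fr F E).symm (b' : E) * u)) =
    2 * Algebra.trace F D.K0 (a * a' + D.et u hu * b * b') := by
  have e1 : ((a : E) + (fr F E).symm (b : E) * u) * D.bar ((a' : E) + (fr F E).symm (b' : E) * u) =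
      (((a * a' - D.kap u hu * ((fr F D.K0).symm b * (fr F D.K0).symm b') : D.K0) : E)) +
        ((fr F E).symm (b : E) * a' - a * (fr F E).symm (b' : E)) * u := by
    rw [map_add, map_mul, D.bar_K0, D.bar_symm, D.bar_K0, hu]
    push_cast
    rw [symm_K0, symm_K0]
    have e2 : ((D.kap u hu : D.K0) : E) = u ^ 2 := rfl
    rw [e2]
    ring
  rw [e1, map_add, D.trk_trace_K0, D.trk_trace hu (by
    rw [map_sub, map_mul, map_mul, bar_symm, bar_symm, bar_K0, bar_K0, bar_K0, bar_K0]), add_zero]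
  congr 1
  have e4 : fr F D.K0 (D.kap u hu * ((fr F D.K0).symm b * (fr F D.K0).symm b')) =
      fr F D.K0 (D.kap u hu) * (b * b') := by
    rw [map_mul (fr F D.K0), map_mul (fr F D.K0), AlgEquiv.apply_symm_apply, AlgEquiv.apply_symm_apply]
  have e3 : D.et u hu * b * b' = -(fr F D.K0 (D.kap u hu) * (b * b')) := by
    rw [et]
    ring
  rw [map_sub, map_add, ← D.trk_fr (D.kap u hu * ((fr F D.K0).symm b * (fr F D.K0).symm b')), e4, e3,
    map_neg]
  ring

open Pool.Agent.H42.PL in
theorem form_tr {u : E} (hu : D.bar u = -u) (x y : Fin 4 → D.K0) :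
    D.B2 (D.ps u x) (D.ps u y) = 2 * Bf F (D.et u hu) x y := by
  rw [B2_apply, Fin.sum_univ_two, ps_zero, ps_zero, ps_one, ps_one, D.trk_block hu, D.trk_block hu, Bf, bq,
    ← mul_add, ← map_add]
  congr 2
  ring

theorem et_nonsq {u : E} (hu0 : u ≠ 0) (hu : D.bar u = -u) (hev : Even D.r) : ¬ IsSquare (D.et u hu) := by
  have hK2 : (2 : D.K0) ≠ 0 := by
    intro h
    apply D.two_ne_E
    exact congrArg (Subtype.val : D.K0 → E) h
  -- `-1` is a square in `K0`
  have hodd : Odd (Nat.card F) := by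
    rw [← Nat.not_even_iff_odd]
    intro h
    apply D.two_ne
    let _ := Fintype.ofFinite F
    rw [Nat.card_eq_fintype_card] at h
    have h2 : ringChar F = 2 := FiniteField.even_card_iff_char_two.2 (Nat.even_iff.1 h)
    have h3 := ringChar.Nat.cast_ringChar (R := F)
    rw [h2] at h3
    exact_mod_cast h3
  have hm1 : IsSquare (-1 : D.K0) := by
    let _ := Fintype.ofFinite D.K0
    rw [FiniteField.isSquare_neg_one_iff]
    have h1 : Fintype.card D.K0 = Nat.card F ^ D.r := by
      rw [← Nat.card_eq_fintype_card, Module.natCard_eq_pow_finrank (K := F), D.finrank_K0]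
    obtain ⟨m, hm⟩ := hev
    rw [h1, hm, ← two_mul, pow_mul]
    obtain ⟨k, hk⟩ := hodd
    have h2 : Nat.card F ^ 2 % 4 = 1 := by
      rw [hk]
      have : (2 * k + 1) ^ 2 = 4 * (k ^ 2 + k) + 1 := by ring
      rw [this]
      omega
    rw [Nat.pow_mod, h2, one_pow]
    norm_num
  intro hsq
  have h1 : IsSquare (fr F D.K0 (D.kap u hu)) := by
    have h2 : fr F D.K0 (D.kap u hu) = (-1) * D.et u hu := by
      rw [et]
      ring
    rw [h2]
    exact hm1.mul hsq
  obtain ⟨k, hk⟩ := h1
  have h2 : D.kap u hu = (fr F D.K0).symm k * (fr F D.K0).symm k := by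
    rw [← map_mul, ← hk, AlgEquiv.symm_apply_apply]
  have h3 : u ^ 2 = (((fr F D.K0).symm k : D.K0) : E) * (((fr F D.K0).symm k : D.K0) : E) :=
    congrArg (Subtype.val : D.K0 → E) h2
  have h4 : (u - (((fr F D.K0).symm k : D.K0) : E)) * (u + (((fr F D.K0).symm k : D.K0) : E)) = 0 := by
    linear_combination h3
  have h5 : D.bar u = u := by
    rcases mul_eq_zero.1 h4 with h | h
    · rw [sub_eq_zero.1 h]
      exact D.bar_K0 _
    · rw [eq_neg_of_add_eq_zero_left h, map_neg, D.bar_K0]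
  rw [hu] at h5
  have h6 : (2 : E) * u = 0 := by linear_combination -h5
  exact hu0 ((mul_eq_zero.1 h6).resolve_left D.two_ne_E)

open Pool.Agent.H42.PL in
theorem ps_dg (u : E) (j : ℕ) (a : D.K0) (x : Fin 4 → D.K0) :
    D.ps u (dg F j a x) = M2 F ![(a : E), (fr F E ^ j) (a : E)] (D.ps u x) := by
  ext i
  fin_cases i
  · show D.ps u (dg F j a x) 0 = (a : E) * D.ps u x 0
    rw [ps_zero, ps_zero]
    show ((a * x 0 : D.K0) : E) + (fr F E).symm ((fr F D.K0 a * x 1 : D.K0) : E) * u = _
    push_cast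
    rw [map_mul, fr_K0, AlgEquiv.symm_apply_apply]
    ring
  · show D.ps u (dg F j a x) 1 = (fr F E ^ j) (a : E) * D.ps u x 1
    rw [ps_one, ps_one]
    show (((fr F D.K0 ^ j) a * x 2 : D.K0) : E) +
      (fr F E).symm (((fr F D.K0 ^ (j + 1)) a * x 3 : D.K0) : E) * u = _
    push_cast
    rw [map_mul, fr_pow_K0, fr_pow_K0, pow_succ', AlgEquiv.mul_apply, AlgEquiv.symm_apply_apply]
    ring

open Pool.Agent.H42.PL in
theorem ps_Jd (u : E) (x : Fin 4 → D.K0) :
    D.ps u (Jd 0 x) = M2 F ![(1 : E), -1] (D.ps u x) := by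
  ext i
  fin_cases i
  · show D.ps u (Jd 0 x) 0 = (1 : E) * D.ps u x 0
    rw [ps_zero, ps_zero]
    simp [Jd, Jh]
  · show D.ps u (Jd 0 x) 1 = (-1 : E) * D.ps u x 1
    rw [ps_one, ps_one]
    simp [Jd, Jh]
    ring

end Da

end Pool.Agent.H32.UP
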